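import Mathlib

/-!
# Self-similarity of the abc conjecture: definitions
-/

namespace Pool.Agent.N746.Self

/-- the radical: the product of the primes dividing `n` -/
def R (n : ℕ) : ℕ := ∏ p ∈ n.primeFactors, p

/-- the abc inequality for the triples with the property `T`: for every `ε > 0` there is `κ` such
that `c ≤ κ R (a b c) ^ (1 + ε)` for all coprime positive integers `a + b = c` with `T a b c`. So
`ABC fun _ _ _ => True` is the abc conjecture. -/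
def ABC (T : ℕ → ℕ → ℕ → Prop) : Prop :=
  ∀ ε : ℝ, 0 < ε → ∃ κ : ℝ, ∀ a b c : ℕ, 0 < a → 0 < b → Nat.Coprime a b → a + b = c → T a b c →
    (c : ℝ) ≤ κ * (R (a * b * c) : ℝ) ^ (1 + ε)

/-- the triples `((x y) ^ n, Q ^ 2, P ^ 2)`, where `P + Q = x ^ n` and `P - Q = y ^ n`, with `N ∣ Q`,
`Q ≤ δ P` and `P ^ 2` in one of the intervals `[Y i, (Y i) ^ (1 + δ)]` -/
def Dihedral (n N : ℕ) (δ : ℝ) (Y : ℕ → ℝ) (a b c : ℕ) : Prop :=
  ∃ x y P Q : ℕ, P + Q = x ^ n ∧ P = y ^ n + Q ∧ a = (x * y) ^ n ∧ b = Q ^ 2 ∧ c = P ^ 2 ∧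
    N ∣ Q ∧ (Q : ℝ) ≤ δ * P ∧ ∃ i, Y i ≤ c ∧ (c : ℝ) ≤ (Y i) ^ (1 + δ)

end Pool.Agent.N746.Self
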