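import Mathlib
import Pool.Agent.N746.Self.Defs

/-!
# Self-similarity of the abc conjecture: the transfer lemma

If every abc triple `(a, b, c)` can be mapped to an abc triple `(a', b', c')` with a property `T`
such that `c ^ d ≤ K c'` and `R (a' b' c') ≤ K R (a b c) c ^ (d - 1)`, with `d ≤ D` and `K` bounded,
then the abc inequality for the triples with the property `T` implies it for all triples.
-/

namespace Pool.Agent.N746.Self

open Finset

theorem R_pos (n : ℕ) : 0 < R n := Finset.prod_pos fun _ hp => (Nat.prime_of_mem_primeFactors hp).pos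

theorem R_le {n : ℕ} (hn : 0 < n) : R n ≤ n := Nat.le_of_dvd hn (Nat.prod_primeFactors_dvd n)

theorem R_le_of_primes {m n : ℕ} (hn : n ≠ 0) (h : ∀ p : ℕ, p.Prime → p ∣ m → p ∣ n) :
    R m ≤ R n := by
  unfold R
  apply Finset.prod_le_prod_of_subset_of_one_le'
  · intro p hp
    rw [Nat.mem_primeFactors] at hp ⊢
    exact ⟨hp.1, h p hp.1 hp.2.1, hn⟩
  · intro p hp _
    exact (Nat.prime_of_mem_primeFactors hp).one_lt.le

theorem R_mul_le (m n : ℕ) (hm : m ≠ 0) (hn : n ≠ 0) : R (m * n) ≤ R m * R n := by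
  unfold R
  rw [Nat.primeFactors_mul hm hn]
  rw [← Finset.prod_union_inter]
  apply Nat.le_mul_of_pos_right
  exact Finset.prod_pos fun p hp =>
    (Nat.prime_of_mem_primeFactors (Finset.mem_of_mem_inter_left hp)).pos

/-- **Transfer.** -/
theorem transfer (T : ℕ → ℕ → ℕ → Prop) (D : ℕ) (K : ℝ) (c₀ : ℕ) (hK : 1 ≤ K)
    (h : ∀ a b c : ℕ, 0 < a → 0 < b → Nat.Coprime a b → a + b = c → c₀ ≤ c →
      ∃ d a' b' c' : ℕ, 1 ≤ d ∧ d ≤ D ∧ 0 < a' ∧ 0 < b' ∧ Nat.Coprime a' b' ∧ a' + b' = c' ∧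
        T a' b' c' ∧ (c : ℝ) ^ d ≤ K * c' ∧
        (R (a' * b' * c') : ℝ) ≤ K * R (a * b * c) * (c : ℝ) ^ (d - 1))
    (hT : ABC T) : ABC fun _ _ _ => True := by
  intro ε hε
  set E : ℝ := 1 + D * (1 + ε) with hE
  have hE1 : 1 ≤ E := by rw [hE]; have : (0:ℝ) ≤ D * (1 + ε) := by positivity
                         linarith
  set ε' : ℝ := ε / E with hε'
  have hε'0 : 0 < ε' := by rw [hε']; positivity
  obtain ⟨κ', hκ'⟩ := hT ε' hε'0
  set κ₁ : ℝ := max κ' 1 with hκ₁
  have hκ1 : 1 ≤ κ₁ := le_max_right _ _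
  have hεE : ε' * E = ε := by rw [hε']; field_simp
  set e : ℝ := 1 - D * ε' with he
  have hkey : (1 + ε) * e = 1 + ε' := by
    rw [he]
    have : ε' * (1 + D * (1 + ε)) = ε := by rw [← hE]; exact hεE
    linarith
  have he0 : 0 < e := by
    have : 0 < (1 + ε) * e := by rw [hkey]; linarith
    exact (mul_pos_iff_of_pos_left (by linarith)).1 this
  set C : ℝ := Real.log K + Real.log κ₁ + (1 + ε') * Real.log K with hC
  have hlK : 0 ≤ Real.log K := Real.log_nonneg hK
  have hlκ : 0 ≤ Real.log κ₁ := Real.log_nonneg hκ1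
  have hC0 : 0 ≤ C := by rw [hC]; positivity
  refine ⟨max (Real.exp (C / e)) (c₀ + 1), ?_⟩
  intro a b c ha hb hab habc _
  have hc : 0 < c := by omega
  have hR1 : (1 : ℝ) ≤ R (a * b * c) := by exact_mod_cast R_pos _
  have hR0 : (0 : ℝ) < R (a * b * c) := by linarith
  have hRp : (1 : ℝ) ≤ (R (a * b * c) : ℝ) ^ (1 + ε) := Real.one_le_rpow hR1 (by linarith)
  rcases Nat.lt_or_ge c c₀ with hlt | hge
  · have h1 : (c : ℝ) ≤ c₀ := by exact_mod_cast hlt.le
    have h2 : (c₀ : ℝ) + 1 ≤ max (Real.exp (C / e)) (c₀ + 1) := le_max_right _ _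
    have h3 : (0 : ℝ) ≤ max (Real.exp (C / e)) (c₀ + 1) := le_trans (by positivity) h2
    calc (c : ℝ) ≤ max (Real.exp (C / e)) (c₀ + 1) * 1 := by linarith
      _ ≤ _ := mul_le_mul_of_nonneg_left hRp h3
  · obtain ⟨d, a', b', c', hd1, hdD, ha', hb', hab', habc', hT', hcd, hRR⟩ :=
      h a b c ha hb hab habc hge
    have hc' : 0 < c' := by omega
    have h1 := hκ' a' b' c' ha' hb' hab' habc' hT'
    have hR'1 : (1 : ℝ) ≤ R (a' * b' * c') := by exact_mod_cast R_pos _
    have hR'0 : (0 : ℝ) < R (a' * b' * c') := by linarith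
    have hcR : (1 : ℝ) ≤ c := by exact_mod_cast hc
    have hcR' : (1 : ℝ) ≤ c' := by exact_mod_cast hc'
    have h2 : (c' : ℝ) ≤ κ₁ * (R (a' * b' * c') : ℝ) ^ (1 + ε') := by
      refine h1.trans (mul_le_mul_of_nonneg_right (le_max_left _ _) ?_)
      exact Real.rpow_nonneg hR'0.le _
    -- logarithms
    set ℓ := Real.log c with hℓ
    have hℓ0 : 0 ≤ ℓ := Real.log_nonneg hcR
    have l1 : d * ℓ ≤ Real.log K + Real.log c' := by
      have := Real.log_le_log (by positivity) hcd
      rw [Real.log_pow, Real.log_mul (by linarith) (by linarith)] at this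
      exact this
    have l2 : Real.log c' ≤ Real.log κ₁ + (1 + ε') * Real.log (R (a' * b' * c')) := by
      have := Real.log_le_log (by linarith) h2
      rw [Real.log_mul (by linarith) (Real.rpow_pos_of_pos hR'0 _).ne', Real.log_rpow hR'0] at this
      exact this
    have l3 : Real.log (R (a' * b' * c')) ≤
        Real.log K + Real.log (R (a * b * c)) + (d - 1 : ℝ) * ℓ := by
      have := Real.log_le_log hR'0 hRR
      rw [Real.log_mul (by positivity) (by positivity), Real.log_mul (by linarith) hR0.ne',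
        Real.log_pow, Nat.cast_sub hd1, Nat.cast_one] at this
      exact this
    set ρ := Real.log (R (a * b * c)) with hρ
    have hρ0 : 0 ≤ ρ := Real.log_nonneg hR1
    have hdD' : (d : ℝ) ≤ D := by exact_mod_cast hdD
    have hd1' : (1 : ℝ) ≤ d := by exact_mod_cast hd1
    have l4 : d * ℓ ≤ C + (1 + ε') * (ρ + (d - 1) * ℓ) := by
      have := mul_le_mul_of_nonneg_left l3 (show (0:ℝ) ≤ 1 + ε' by linarith)
      rw [hC]
      nlinarith
    have l5 : e * ℓ ≤ C + (1 + ε') * ρ := by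
      have : (d - 1 : ℝ) * ε' * ℓ ≤ D * ε' * ℓ := by
        apply mul_le_mul_of_nonneg_right _ hℓ0
        apply mul_le_mul_of_nonneg_right _ hε'0.le
        linarith
      rw [he]
      nlinarith
    have l6 : ℓ ≤ C / e + (1 + ε) * ρ := by
      have : ℓ ≤ (C + (1 + ε') * ρ) / e := by
        rw [le_div_iff₀ he0]; linarith
      calc ℓ ≤ (C + (1 + ε') * ρ) / e := this
        _ = C / e + (1 + ε) * ρ := by
          rw [← hkey]; field_simp
    have l7 : (c : ℝ) ≤ Real.exp (C / e) * (R (a * b * c) : ℝ) ^ (1 + ε) := by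
      rw [Real.rpow_def_of_pos hR0, ← Real.exp_add, ← Real.exp_log (show (0:ℝ) < c by linarith)]
      apply Real.exp_le_exp.2
      rw [← hℓ, ← hρ]
      linarith
    refine l7.trans (mul_le_mul_of_nonneg_right (le_max_left _ _) ?_)
    exact Real.rpow_nonneg hR0.le _

end Pool.Agent.N746.Self
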