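import Mathlib
import Pool.Agent.N746.Self.Core

/-!
# Self-similarity of the abc conjecture: Belyi maps with three rational cusps
-/

namespace Pool.Agent.N746.Self

open Finset Polynomial

/-- the value at `(x, y)` of the form of degree `d` with dehomogenization `p` -/
def hom (d : ℕ) (p : ℤ[X]) (x y : ℤ) : ℤ := ∑ i ∈ range (d + 1), p.coeff i * x ^ i * y ^ (d - i)

/-- `a, b, c` are, up to the order and a common factor, the absolute values of
`A (x, y)`, `B (x, y)` and `A (x, y) + B (x, y)` for some coprime `x, y ≥ 1` -/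
def Image (d : ℕ) (p q : ℤ[X]) (a b c : ℕ) : Prop :=
  ∃ x y m : ℕ, 0 < x ∧ 0 < y ∧ Nat.Coprime x y ∧ 0 < m ∧
    ({m * a, m * b, m * c} : Multiset ℕ) =
      {(hom d p x y).natAbs, (hom d q x y).natAbs, (hom d p x y + hom d q x y).natAbs}

theorem hom_add (d : ℕ) (p q : ℤ[X]) (x y : ℤ) : hom d (p + q) x y = hom d p x y + hom d q x y := by
  unfold hom
  rw [← sum_add_distrib]
  refine sum_congr rfl fun i _ => ?_
  rw [coeff_add]; ring

theorem hom_eval {F : Type} [Field F] [CharZero F] (d : ℕ) (p : ℤ[X]) (hp : p.natDegree ≤ d)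
    (x y : ℤ) (hy : y ≠ 0) :
    ((hom d p x y : ℤ) : F) = (y : F) ^ d * (p.map (Int.castRingHom F)).eval ((x : F) / y) := by
  have hy' : (y : F) ≠ 0 := by exact_mod_cast hy
  rw [eval_eq_sum_range' (n := d + 1) (by
    refine lt_of_le_of_lt natDegree_map_le (by omega)), mul_sum]
  unfold hom
  push_cast
  refine sum_congr rfl fun i hi => ?_
  rw [mem_range] at hi
  rw [coeff_map, eq_intCast]
  have e : (y : F) ^ d = (y : F) ^ (d - i) * (y : F) ^ i := by rw [← pow_add]; congr 1; omega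
  rw [e, div_pow]
  field_simp

theorem hom_mul (d e : ℕ) (p q : ℤ[X]) (hp : p.natDegree ≤ d) (hq : q.natDegree ≤ e)
    (x y : ℤ) (hy : y ≠ 0) : hom (d + e) (p * q) x y = hom d p x y * hom e q x y := by
  have h : ((hom (d + e) (p * q) x y : ℤ) : ℚ) = ((hom d p x y * hom e q x y : ℤ) : ℚ) := by
    push_cast
    rw [hom_eval (F := ℚ) (d + e) (p * q) (natDegree_mul_le.trans (by omega)) x y hy,
      hom_eval (F := ℚ) d p hp x y hy, hom_eval (F := ℚ) e q hq x y hy, Polynomial.map_mul,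
      eval_mul, pow_add]
    ring
  exact_mod_cast h

/-- a form which is not zero has finitely many zeros -/
theorem zeros (d : ℕ) (p : ℤ[X]) (hp : p.natDegree ≤ d) (h0 : p ≠ 0) :
    ∃ c₀ : ℕ, ∀ x y : ℕ, 0 < x → 0 < y → Nat.Coprime x y → c₀ ≤ x + y →
      hom d p x y ≠ 0 := by
  set P : ℚ[X] := p.map (Int.castRingHom ℚ) with hP
  have hP0 : P ≠ 0 := by
    rw [hP, Polynomial.map_ne_zero_iff (Int.castRingHom ℚ).injective_int]; exact h0
  refine ⟨1 + ∑ s ∈ P.roots.toFinset, (s.num.natAbs + s.den), ?_⟩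
  intro x y hx hy hxy hc hz
  have hy' : (y : ℤ) ≠ 0 := by exact_mod_cast hy.ne'
  have h1 := hom_eval (F := ℚ) d p hp x y hy'
  rw [hz] at h1
  have hyq : ((y : ℤ) : ℚ) ^ d ≠ 0 := pow_ne_zero _ (by exact_mod_cast hy')
  have h2 : P.eval (((x : ℤ) : ℚ) / ((y : ℤ) : ℚ)) = 0 := by
    simp only [Int.cast_zero] at h1
    rcases mul_eq_zero.1 h1.symm with h | h
    · exact absurd h hyq
    · exact h
  set s : ℚ := ((x : ℤ) : ℚ) / ((y : ℤ) : ℚ) with hs
  have hsm : s ∈ P.roots.toFinset := by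
    rw [Multiset.mem_toFinset, mem_roots hP0]; exact h2
  have hle := single_le_sum (f := fun s : ℚ => s.num.natAbs + s.den) (fun _ _ => Nat.zero_le _) hsm
  have hnum : s.num = x := by
    rw [hs]
    apply Rat.num_div_eq_of_coprime (by exact_mod_cast hy)
    simpa using hxy
  have hden : (s.den : ℤ) = y := by
    rw [hs]
    apply Rat.den_div_eq_of_coprime (by exact_mod_cast hy)
    simpa using hxy
  have hden' : s.den = y := by exact_mod_cast hden
  simp only [hnum, hden', Int.natAbs_natCast] at hle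
  omega

/-- upper bound for a form -/
theorem hom_le (d : ℕ) (p : ℤ[X]) : ∃ K : ℕ, 1 ≤ K ∧ ∀ x y : ℕ,
    (hom d p x y).natAbs ≤ K * (x + y) ^ d := by
  refine ⟨1 + ∑ i ∈ range (d + 1), (p.coeff i).natAbs, by omega, fun x y => ?_⟩
  unfold hom
  calc (∑ i ∈ range (d + 1), p.coeff i * (x : ℤ) ^ i * (y : ℤ) ^ (d - i)).natAbs
      ≤ ∑ i ∈ range (d + 1), (p.coeff i * (x : ℤ) ^ i * (y : ℤ) ^ (d - i)).natAbs :=
        Int.natAbs_sum_le _ _
    _ ≤ ∑ i ∈ range (d + 1), (p.coeff i).natAbs * (x + y) ^ d := by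
        refine sum_le_sum fun i hi => ?_
        rw [mem_range] at hi
        rw [Int.natAbs_mul, Int.natAbs_mul, Int.natAbs_pow, Int.natAbs_pow, mul_assoc]
        refine Nat.mul_le_mul_left _ ?_
        simp only [Int.natAbs_natCast]
        calc x ^ i * y ^ (d - i) ≤ (x + y) ^ i * (x + y) ^ (d - i) :=
              Nat.mul_le_mul (Nat.pow_le_pow_left (by omega) _) (Nat.pow_le_pow_left (by omega) _)
          _ = (x + y) ^ d := by rw [← pow_add]; congr 1; omega
    _ = (∑ i ∈ range (d + 1), (p.coeff i).natAbs) * (x + y) ^ d := by rw [sum_mul]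
    _ ≤ _ := Nat.mul_le_mul_right _ (by omega)

/-- lower bound for the maximum of two coprime forms -/
theorem max_ge (d : ℕ) (p q : ℤ[X]) (hp : p.natDegree ≤ d) (hq : q.natDegree ≤ d)
    (hpq : p.coeff d ≠ 0 ∨ q.coeff d ≠ 0)
    (hcop : IsCoprime (p.map (Int.castRingHom ℚ)) (q.map (Int.castRingHom ℚ))) :
    ∃ κ : ℝ, 0 < κ ∧ ∀ x y : ℕ, 0 < x → 0 < y →
      κ * ((x + y : ℕ) : ℝ) ^ d ≤ max |(hom d p x y : ℝ)| |(hom d q x y : ℝ)| := by
  set f : ℤ[X] → ℝ → ℝ := fun p t =>
    ∑ i ∈ range (d + 1), (p.coeff i : ℝ) * t ^ i * (1 - t) ^ (d - i) with hf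
  have hcont : ∀ p, Continuous (f p) := by
    intro p; rw [hf]; fun_prop
  have hval : ∀ (p : ℤ[X]) (x y : ℕ), 0 < x → 0 < y →
      (hom d p x y : ℝ) = ((x + y : ℕ) : ℝ) ^ d * f p ((x : ℝ) / ((x + y : ℕ) : ℝ)) := by
    intro p x y hx hy
    have hc : ((x + y : ℕ) : ℝ) ≠ 0 := by positivity
    rw [hf]
    simp only
    unfold hom
    push_cast
    rw [mul_sum]
    refine sum_congr rfl fun i hi => ?_
    rw [mem_range] at hi
    have hc' : (x : ℝ) + y ≠ 0 := by exact_mod_cast hc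
    have e : ((x : ℝ) + y) ^ d = ((x : ℝ) + y) ^ (d - i) * ((x : ℝ) + y) ^ i := by
      rw [← pow_add]; congr 1; omega
    have e2 : (1 - (x : ℝ) / (x + y)) = y / (x + y) := by field_simp; ring
    rw [e, e2, div_pow, div_pow]
    field_simp
  have hpos : ∀ t ∈ Set.Icc (0 : ℝ) 1, 0 < max |f p t| |f q t| := by
    intro t ht
    by_contra hcon
    have h1 : |f p t| ≤ 0 := le_trans (le_max_left _ _) (not_lt.1 hcon)
    have h2 : |f q t| ≤ 0 := le_trans (le_max_right _ _) (not_lt.1 hcon)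
    have h1' : f p t = 0 := abs_eq_zero.1 (le_antisymm h1 (abs_nonneg _))
    have h2' : f q t = 0 := abs_eq_zero.1 (le_antisymm h2 (abs_nonneg _))
    rcases eq_or_lt_of_le ht.2 with h | h
    · -- t = 1
      have hco : ∀ p : ℤ[X], f p 1 = p.coeff d := by
        intro p
        rw [hf]
        simp only [one_pow, mul_one, sub_self]
        rw [sum_range_succ]
        simp only [Nat.sub_self, pow_zero, mul_one]
        rw [sum_eq_zero, zero_add]
        intro i hi
        rw [mem_range] at hi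
        rw [zero_pow (by omega), mul_zero]
      rw [h, hco] at h1' h2'
      rcases hpq with h | h
      · exact h (by exact_mod_cast h1')
      · exact h (by exact_mod_cast h2')
    · have hne : (1 - t) ≠ 0 := by linarith
      have hev : ∀ p : ℤ[X], p.natDegree ≤ d →
          f p t = (1 - t) ^ d * (p.map (Int.castRingHom ℝ)).eval (t / (1 - t)) := by
        intro p hp
        rw [eval_eq_sum_range' (n := d + 1) (by
          refine lt_of_le_of_lt natDegree_map_le (by omega)), mul_sum, hf]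
        refine sum_congr rfl fun i hi => ?_
        rw [mem_range] at hi
        rw [coeff_map, eq_intCast]
        have e : (1 - t) ^ d = (1 - t) ^ (d - i) * (1 - t) ^ i := by rw [← pow_add]; congr 1; omega
        rw [e, div_pow]
        field_simp
      rw [hev p hp] at h1'
      rw [hev q hq] at h2'
      have g1 := (mul_eq_zero.1 h1').resolve_left (pow_ne_zero _ hne)
      have g2 := (mul_eq_zero.1 h2').resolve_left (pow_ne_zero _ hne)
      have hcop' := hcop.map (Polynomial.mapRingHom (algebraMap ℚ ℝ))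
      simp only [coe_mapRingHom, Polynomial.map_map] at hcop'
      have hr : (algebraMap ℚ ℝ).comp (Int.castRingHom ℚ) = Int.castRingHom ℝ :=
        RingHom.ext_int _ _
      rw [hr] at hcop'
      obtain ⟨u, v, huv⟩ := hcop'
      have := congrArg (eval (t / (1 - t))) huv
      rw [eval_add, eval_mul, eval_mul, g1, g2, mul_zero, mul_zero, add_zero, eval_one] at this
      exact zero_ne_one this
  obtain ⟨t₀, ht₀, hmin⟩ := isCompact_Icc.exists_isMinOn (s := Set.Icc (0 : ℝ) 1)
    ⟨0, by norm_num⟩ (f := fun t => max |f p t| |f q t|)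
    (((hcont p).abs.max (hcont q).abs).continuousOn)
  refine ⟨max |f p t₀| |f q t₀|, hpos t₀ ht₀, fun x y hx hy => ?_⟩
  have hxy : (0 : ℝ) < ((x + y : ℕ) : ℝ) := by positivity
  have hmem : (x : ℝ) / ((x + y : ℕ) : ℝ) ∈ Set.Icc (0 : ℝ) 1 := by
    constructor
    · positivity
    · rw [div_le_one hxy]; push_cast; linarith [show (0 : ℝ) ≤ y by positivity]
  have h1 := hmin hmem
  simp only [Set.mem_ofPred_eq] at h1
  rw [hval p x y hx hy, hval q x y hx hy, abs_mul, abs_mul, abs_of_pos (pow_pos hxy d),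
    ← mul_max_of_nonneg _ _ (pow_pos hxy d).le, mul_comm]
  exact mul_le_mul_of_nonneg_left h1 (pow_pos hxy d).le

/-- the common divisors of the values of two coprime forms -/
theorem gcd_dvd (d : ℕ) (p q : ℤ[X]) (hp : p.natDegree ≤ d) (hq : q.natDegree ≤ d)
    (hpq : p.coeff d ≠ 0 ∨ q.coeff d ≠ 0)
    (hcop : IsCoprime (p.map (Int.castRingHom ℚ)) (q.map (Int.castRingHom ℚ))) :
    ∃ Δ : ℤ, Δ ≠ 0 ∧ ∀ x y : ℕ, 0 < x → 0 < y → Nat.Coprime x y → ∀ g : ℤ,
      g ∣ hom d p x y → g ∣ hom d q x y → g ∣ Δ := by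
  -- Bezout
  obtain ⟨D, hD, u, v, huv⟩ : ∃ D : ℤ, D ≠ 0 ∧ ∃ u v : ℤ[X], u * p + v * q = C D := by
    obtain ⟨u, v, huv⟩ := hcop
    obtain ⟨b1, hb1m, hb1⟩ := IsLocalization.integerNormalization_spec (nonZeroDivisors ℤ) u
    obtain ⟨b2, hb2m, hb2⟩ := IsLocalization.integerNormalization_spec (nonZeroDivisors ℤ) v
    set u' := IsLocalization.integerNormalization (nonZeroDivisors ℤ) u
    set v' := IsLocalization.integerNormalization (nonZeroDivisors ℤ) v
    have hb1' : (b1 : ℤ) ≠ 0 := nonZeroDivisors.ne_zero hb1m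
    have hb2' : (b2 : ℤ) ≠ 0 := nonZeroDivisors.ne_zero hb2m
    refine ⟨(b1 : ℤ) * b2, mul_ne_zero hb1' hb2', C (b2 : ℤ) * u', C (b1 : ℤ) * v', ?_⟩
    apply Polynomial.map_injective (Int.castRingHom ℚ) (Int.castRingHom ℚ).injective_int
    have e1 : u'.map (Int.castRingHom ℚ) = C ((b1 : ℤ) : ℚ) * u := by
      have : (Int.castRingHom ℚ) = algebraMap ℤ ℚ := rfl
      rw [this, hb1, Algebra.smul_def]
      rfl
    have e2 : v'.map (Int.castRingHom ℚ) = C ((b2 : ℤ) : ℚ) * v := by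
      have : (Int.castRingHom ℚ) = algebraMap ℤ ℚ := rfl
      rw [this, hb2, Algebra.smul_def]
      rfl
    have m : ∀ b : ℤ, (C b).map (Int.castRingHom ℚ) = C (b : ℚ) := fun b => by
      rw [map_C]; rfl
    rw [Polynomial.map_add, Polynomial.map_mul, Polynomial.map_mul, Polynomial.map_mul,
      Polynomial.map_mul, m, m, m, e1, e2]
    have := congrArg (fun z => C ((b1 : ℤ) : ℚ) * C ((b2 : ℤ) : ℚ) * z) huv
    simp only [mul_one] at this
    rw [Int.cast_mul, C_mul, ← this]
    ring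
  set e : ℕ := max u.natDegree v.natDegree with he
  have key : ∀ x y : ℕ, 0 < y →
      D * (y : ℤ) ^ (e + d) = hom e u x y * hom d p x y + hom e v x y * hom d q x y := by
    intro x y hy
    have hy' : (y : ℤ) ≠ 0 := by exact_mod_cast hy.ne'
    rw [← hom_mul e d u p (le_max_left _ _) hp x y hy',
      ← hom_mul e d v q (le_max_right _ _) hq x y hy', ← hom_add, huv]
    unfold hom
    rw [sum_range_succ', sum_eq_zero]
    · simp
    · intro i _
      rw [coeff_C_of_ne_zero (by omega)]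
      ring
  have lead : ∀ (r : ℤ[X]) (x y : ℕ), ∃ s : ℤ, hom d r x y = r.coeff d * (x : ℤ) ^ d + y * s := by
    intro r x y
    refine ⟨∑ i ∈ range d, r.coeff i * (x : ℤ) ^ i * (y : ℤ) ^ (d - i - 1), ?_⟩
    unfold hom
    rw [sum_range_succ, mul_sum]
    simp only [Nat.sub_self, pow_zero, mul_one]
    rw [add_comm]
    congr 1
    refine sum_congr rfl fun i hi => ?_
    rw [mem_range] at hi
    have : d - i = (d - i - 1) + 1 := by omega
    rw [this, pow_succ]
    simp only [Nat.add_sub_cancel]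
    ring
  have main : ∀ (r : ℤ[X]) (x y : ℕ), 0 < x → 0 < y → Nat.Coprime x y → ∀ g : ℤ,
      g ∣ hom d p x y → g ∣ hom d q x y → g ∣ hom d r x y → g ∣ D * r.coeff d ^ (e + d) := by
    intro r x y hx hy hxy g hgp hgq hgr
    obtain ⟨s, hs⟩ := lead r x y
    have h1 : g ∣ D * (y : ℤ) ^ (e + d) := by
      rw [key x y hy]
      exact dvd_add (hgp.mul_left _) (hgq.mul_left _)
    have h2 : g ∣ (r.coeff d * (x : ℤ) ^ d) ^ (e + d) - (-(y * s)) ^ (e + d) := by
      refine dvd_trans ?_ (sub_dvd_pow_sub_pow _ _ _)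
      rw [sub_neg_eq_add, ← hs]
      exact hgr
    have h3 : g ∣ D * (r.coeff d * (x : ℤ) ^ d) ^ (e + d) := by
      have e1 : D * (r.coeff d * (x : ℤ) ^ d) ^ (e + d) =
          D * ((r.coeff d * (x : ℤ) ^ d) ^ (e + d) - (-(y * s)) ^ (e + d)) +
            (D * (y : ℤ) ^ (e + d)) * (-s) ^ (e + d) := by
        have : (-((y : ℤ) * s)) ^ (e + d) = (y : ℤ) ^ (e + d) * (-s) ^ (e + d) := by
          rw [← mul_pow]; ring
        rw [this]; ring
      rw [e1]
      exact dvd_add (h2.mul_left _) (h1.mul_right _)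
    have hco : IsCoprime ((x : ℤ) ^ (d * (e + d))) ((y : ℤ) ^ (e + d)) := by
      apply IsCoprime.pow
      exact Nat.isCoprime_iff_coprime.2 hxy
    obtain ⟨a, b, hab⟩ := hco
    have e2 : D * r.coeff d ^ (e + d) =
        a * (D * (r.coeff d * (x : ℤ) ^ d) ^ (e + d)) +
          b * r.coeff d ^ (e + d) * (D * (y : ℤ) ^ (e + d)) := by
      have := congrArg (fun z => D * r.coeff d ^ (e + d) * z) hab
      simp only [mul_one] at this
      rw [← this, mul_pow, ← pow_mul]
      ring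
    rw [e2]
    exact dvd_add (h3.mul_left _) (h1.mul_left _)
  rcases hpq with h | h
  · exact ⟨D * p.coeff d ^ (e + d), mul_ne_zero hD (pow_ne_zero _ h),
      fun x y hx hy hxy g h1 h2 => main p x y hx hy hxy g h1 h2 h1⟩
  · exact ⟨D * q.coeff d ^ (e + d), mul_ne_zero hD (pow_ne_zero _ h),
      fun x y hx hy hxy g h1 h2 => main q x y hx hy hxy g h1 h2 h2⟩

end Pool.Agent.N746.Self
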