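import Mathlib
import Pool.Agent.N746.Self.Forms

/-!
# Self-similarity of the abc conjecture: the general principle
-/

namespace Pool.Agent.N746.Self

open Finset Polynomial

theorem reduce (A B C : ℕ) (hA : 0 < A) (hB : 0 < B) (h : A + B = C) :
    ∃ m a b c : ℕ, 0 < m ∧ 0 < a ∧ 0 < b ∧ Nat.Coprime a b ∧ a + b = c ∧
      A = m * a ∧ B = m * b ∧ C = m * c := by
  have hg : 0 < Nat.gcd A B := Nat.gcd_pos_of_pos_left _ hA
  obtain ⟨a, ha⟩ := Nat.gcd_dvd_left A B
  obtain ⟨b, hb⟩ := Nat.gcd_dvd_right A B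
  set m := Nat.gcd A B with hm
  refine ⟨m, a, b, a + b, hg, ?_, ?_, ?_, rfl, ha, hb, ?_⟩
  · rcases Nat.eq_zero_or_pos a with h | h
    · rw [h, mul_zero] at ha; omega
    · exact h
  · rcases Nat.eq_zero_or_pos b with h | h
    · rw [h, mul_zero] at hb; omega
    · exact h
  · have : m * Nat.gcd a b = m * 1 := by
      rw [← Nat.gcd_mul_left, ← ha, ← hb, mul_one]
    exact Nat.eq_of_mul_eq_mul_left hg this
  · rw [mul_add, ← ha, ← hb, h]

/-- the abc triple attached to two integers -/
theorem arrange (α β : ℤ) (hα : α ≠ 0) (hβ : β ≠ 0) (hγ : α + β ≠ 0) :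
    ∃ m a b c : ℕ, 0 < m ∧ 0 < a ∧ 0 < b ∧ Nat.Coprime a b ∧ a + b = c ∧
      ({m * a, m * b, m * c} : Multiset ℕ) = {α.natAbs, β.natAbs, (α + β).natAbs} ∧
      (m : ℤ) ∣ α ∧ (m : ℤ) ∣ β ∧ α.natAbs ≤ m * c ∧ β.natAbs ≤ m * c ∧
      (∀ p : ℕ, p.Prime → p ∣ a * b * c → (p : ℤ) ∣ α * β * (α + β)) := by
  have h1 : 0 < α.natAbs := Int.natAbs_pos.2 hα
  have h2 : 0 < β.natAbs := Int.natAbs_pos.2 hβ
  have h3 : 0 < (α + β).natAbs := Int.natAbs_pos.2 hγ
  have hpr : ∀ (m a b c : ℕ), (m * a) * (m * b) * (m * c) = α.natAbs * β.natAbs * (α + β).natAbs →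
      ∀ p : ℕ, p.Prime → p ∣ a * b * c → (p : ℤ) ∣ α * β * (α + β) := by
    intro m a b c he p _ hp
    rw [← Int.natCast_dvd_natCast] at hp
    rw [← Int.natAbs_dvd_natAbs, Int.natAbs_mul, Int.natAbs_mul, Int.natAbs_natCast, ← he]
    have : (m * a) * (m * b) * (m * c) = (a * b * c) * m ^ 3 := by ring
    rw [this]
    exact Dvd.dvd.mul_right (by exact_mod_cast hp) _
  have hcase : (α + β).natAbs = α.natAbs + β.natAbs ∨ α.natAbs = β.natAbs + (α + β).natAbs ∨
      β.natAbs = α.natAbs + (α + β).natAbs := by omega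
  rcases hcase with h | h | h
  · obtain ⟨m, a, b, c, hm, ha, hb, hab, habc, eA, eB, eC⟩ := reduce _ _ _ h1 h2 h.symm
    refine ⟨m, a, b, c, hm, ha, hb, hab, habc, ?_, ?_, ?_, ?_, ?_, ?_⟩
    · rw [eA, eB, eC]
    · rw [← Int.dvd_natAbs, eA]; push_cast; exact dvd_mul_right _ _
    · rw [← Int.dvd_natAbs, eB]; push_cast; exact dvd_mul_right _ _
    · rw [← eC]; omega
    · rw [← eC]; omega
    · exact hpr m a b c (by rw [← eA, ← eB, ← eC])
  · obtain ⟨m, a, b, c, hm, ha, hb, hab, habc, eA, eB, eC⟩ := reduce _ _ _ h2 h3 h.symm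
    refine ⟨m, a, b, c, hm, ha, hb, hab, habc, ?_, ?_, ?_, ?_, ?_, ?_⟩
    · rw [eA, eB, eC]
      simp only [Multiset.insert_eq_cons]
      rw [Multiset.cons_swap (m * c) (m * a)]
      congr 1
      rw [← Multiset.singleton_add, ← Multiset.singleton_add, add_comm]
    · rw [← Int.dvd_natAbs, eC]; push_cast; exact dvd_mul_right _ _
    · rw [← Int.dvd_natAbs, eA]; push_cast; exact dvd_mul_right _ _
    · rw [← eC]
    · rw [← eC]; omega
    · exact hpr m a b c (by rw [← eA, ← eB, ← eC]; ring)
  · obtain ⟨m, a, b, c, hm, ha, hb, hab, habc, eA, eB, eC⟩ := reduce _ _ _ h1 h3 h.symm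
    refine ⟨m, a, b, c, hm, ha, hb, hab, habc, ?_, ?_, ?_, ?_, ?_, ?_⟩
    · rw [eA, eB, eC]
      simp only [Multiset.insert_eq_cons]
      congr 1
      rw [← Multiset.singleton_add, ← Multiset.singleton_add, add_comm]
    · rw [← Int.dvd_natAbs, eA]; push_cast; exact dvd_mul_right _ _
    · rw [← Int.dvd_natAbs, eC]; push_cast; exact dvd_mul_right _ _
    · rw [← eC]; omega
    · rw [← eC]
    · exact hpr m a b c (by rw [← eA, ← eB, ← eC]; ring)

/-- **The general principle.** Let `A`, `B` be coprime forms of degree `d` (given by their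
dehomogenizations `p`, `q`) and let `A B (A + B)` divide a multiple of a power of
`x y (x + y) G`, where `G ≠ 0` has degree `d - 1`. Then the abc conjecture is equivalent to its
restriction to the values of `A, B, A + B`. -/
theorem general (d : ℕ) (p q g : ℤ[X]) (k : ℕ) (M : ℤ) (hM : M ≠ 0)
    (hp : p.natDegree ≤ d) (hq : q.natDegree ≤ d) (hpq : p.coeff d ≠ 0 ∨ q.coeff d ≠ 0)
    (hcop : IsCoprime (p.map (Int.castRingHom ℚ)) (q.map (Int.castRingHom ℚ)))
    (hg : g.natDegree + 1 ≤ d) (hg0 : g ≠ 0) (h0 : p * q * (p + q) ≠ 0)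
    (hdvd : p * q * (p + q) ∣ C M * (X * (X + 1) * g) ^ k) :
    ABC (Image d p q) ↔ ABC fun _ _ _ => True := by
  refine ⟨fun hT => ?_, fun h ε hε => ?_⟩
  swap
  · obtain ⟨κ, hκ⟩ := h ε hε
    exact ⟨κ, fun a b c ha hb hab habc _ => hκ a b c ha hb hab habc trivial⟩
  have hd : 1 ≤ d := by omega
  have hp0 : p ≠ 0 := fun h => h0 (by rw [h]; ring)
  have hq0 : q ≠ 0 := fun h => h0 (by rw [h]; ring)
  have hpq0 : p + q ≠ 0 := fun h => h0 (by rw [h]; ring)
  obtain ⟨c₁, hc₁⟩ := zeros d p hp hp0
  obtain ⟨c₂, hc₂⟩ := zeros d q hq hq0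
  obtain ⟨c₃, hc₃⟩ := zeros d (p + q) ((natDegree_add_le _ _).trans (max_le hp hq)) hpq0
  obtain ⟨c₄, hc₄⟩ := zeros (d - 1) g (by omega) hg0
  obtain ⟨K₁, hK₁, hK₁'⟩ := hom_le (d - 1) g
  obtain ⟨κ, hκ, hκ'⟩ := max_ge d p q hp hq hpq hcop
  obtain ⟨Δ, hΔ, hΔ'⟩ := gcd_dvd d p q hp hq hpq hcop
  have hM1 : 1 ≤ M.natAbs := Int.natAbs_pos.2 hM
  have hΔ1 : 1 ≤ Δ.natAbs := Int.natAbs_pos.2 hΔ
  obtain ⟨h, hh⟩ := hdvd
  set e := h.natDegree with he
  refine transfer (Image d p q) d (max (max 1 (Δ.natAbs / κ)) (M.natAbs * K₁)) (c₁ + c₂ + c₃ + c₄)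
    (le_trans (le_max_left _ _) (le_max_left _ _)) ?_ hT
  intro a b c ha hb hab habc hc
  have n1 : hom d p a b ≠ 0 := hc₁ a b ha hb hab (by omega)
  have n2 : hom d q a b ≠ 0 := hc₂ a b ha hb hab (by omega)
  have n3 : hom d p a b + hom d q a b ≠ 0 := by
    rw [← hom_add]; exact hc₃ a b ha hb hab (by omega)
  have n4 : hom (d - 1) g a b ≠ 0 := hc₄ a b ha hb hab (by omega)
  obtain ⟨m, a', b', c', hm, ha', hb', hab', habc', hms, hmα, hmβ, hα, hβ, hpr⟩ :=
    arrange _ _ n1 n2 n3
  refine ⟨d, a', b', c', hd, le_rfl, ha', hb', hab', habc',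
    ⟨a, b, m, ha, hb, hab, hm, hms⟩, ?_, ?_⟩
  · -- the height
    have hmΔ : m ≤ Δ.natAbs := by
      have := hΔ' a b ha hb hab m hmα hmβ
      rw [← Int.natAbs_dvd_natAbs, Int.natAbs_natCast] at this
      exact Nat.le_of_dvd hΔ1 this
    have h1 := hκ' a b ha hb
    have h2 : max |(hom d p a b : ℝ)| |(hom d q a b : ℝ)| ≤ m * c' := by
      have e1 : ((hom d p a b).natAbs : ℝ) = |(hom d p a b : ℝ)| := by
        rw [Nat.cast_natAbs, Int.cast_abs]
      have e2 : ((hom d q a b).natAbs : ℝ) = |(hom d q a b : ℝ)| := by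
        rw [Nat.cast_natAbs, Int.cast_abs]
      rw [← e1, ← e2]
      refine max_le ?_ ?_
      · exact_mod_cast hα
      · exact_mod_cast hβ
    have h3 : (m : ℝ) * c' ≤ Δ.natAbs * c' :=
      mul_le_mul_of_nonneg_right (by exact_mod_cast hmΔ) (Nat.cast_nonneg _)
    rw [habc] at h1
    have h4 : (c : ℝ) ^ d ≤ Δ.natAbs / κ * c' := by
      rw [div_mul_eq_mul_div, le_div_iff₀ hκ]
      linarith
    refine h4.trans (mul_le_mul_of_nonneg_right ?_ (Nat.cast_nonneg _))
    exact le_trans (le_max_right _ _) (le_max_left _ _)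
  · -- the radical
    have hb0 : (b : ℤ) ≠ 0 := by exact_mod_cast hb.ne'
    have hprime : ∀ r : ℕ, r.Prime → r ∣ a' * b' * c' →
        r ∣ M.natAbs * (a * b * c) * (hom (d - 1) g a b).natAbs := by
      intro r hr hrd
      have h1 := hpr r hr hrd
      -- homogenize the divisibility
      set E := e + k * (d + 1) with hE
      have e1 : hom (d + d + d + E) (p * q * (p + q) * h) a b =
          hom d p a b * hom d q a b * (hom d p a b + hom d q a b) * hom E h a b := by
        rw [hom_mul (d + d + d) E (p * q * (p + q)) h _ (by omega) _ _ hb0,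
          hom_mul (d + d) d (p * q) (p + q) _ ((natDegree_add_le _ _).trans (max_le hp hq)) _ _ hb0,
          hom_mul d d p q hp hq _ _ hb0, hom_add]
        · exact natDegree_mul_le.trans (by omega)
        · refine natDegree_mul_le.trans (Nat.add_le_add (natDegree_mul_le.trans (by omega)) ?_)
          exact (natDegree_add_le _ _).trans (max_le hp hq)
      have e2 : ∀ k : ℕ, hom (k * (d + 1)) ((X * (X + 1) * g) ^ k) a b =
          (a * (a + b) * hom (d - 1) g a b) ^ k := by
        intro k
        have hX : hom 1 (X : ℤ[X]) a b = a := by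
          unfold hom; simp [coeff_X]
        have hX1 : hom 1 (X + 1 : ℤ[X]) a b = a + b := by
          unfold hom; simp [sum_range_succ, coeff_X, coeff_one]; ring
        have hdX : (X * (X + 1) * g : ℤ[X]).natDegree ≤ d + 1 := by
          refine natDegree_mul_le.trans ?_
          have : (X * (X + 1) : ℤ[X]).natDegree ≤ 2 := by
            refine natDegree_mul_le.trans ?_
            have h1 : (X : ℤ[X]).natDegree ≤ 1 := natDegree_X_le
            have h2 : (X + 1 : ℤ[X]).natDegree ≤ 1 := by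
              refine (natDegree_add_le _ _).trans (max_le natDegree_X_le ?_)
              simp
            omega
          omega
        have hbase : hom (d + 1) (X * (X + 1) * g : ℤ[X]) a b = a * (a + b) * hom (d - 1) g a b := by
          have h2 : (X + 1 : ℤ[X]).natDegree ≤ 1 := by
            refine (natDegree_add_le _ _).trans (max_le natDegree_X_le ?_)
            simp
          have ed : d + 1 = (1 + 1) + (d - 1) := by omega
          rw [ed, hom_mul (1 + 1) (d - 1) _ _ _ (by omega) _ _ hb0,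
            hom_mul 1 1 _ _ natDegree_X_le h2 _ _ hb0, hX, hX1]
          exact natDegree_mul_le.trans (by have := natDegree_X_le (R := ℤ); omega)
        induction k with
        | zero =>
          unfold hom; simp
        | succ k ih =>
          rw [pow_succ, add_mul, one_mul, hom_mul (k * (d + 1)) (d + 1) _ _ _ hdX _ _ hb0, ih, hbase,
            pow_succ]
          exact natDegree_pow_le.trans (Nat.mul_le_mul_left _ hdX)
      have e3 : hom (d + d + d + E) (C M * (X * (X + 1) * g) ^ k) a b =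
          M * b ^ (d + d + d + e) * (a * (a + b) * hom (d - 1) g a b) ^ k := by
        have eq1 : d + d + d + E = (d + d + d + e) + k * (d + 1) := by omega
        have hC : hom (d + d + d + e) (C M) a b = M * b ^ (d + d + d + e) := by
          unfold hom
          rw [sum_range_succ', sum_eq_zero]
          · simp
          · intro i _
            rw [coeff_C_of_ne_zero (by omega)]
            ring
        rw [eq1, hom_mul _ _ _ _ (by rw [natDegree_C]; omega) _ _ _ hb0, hC, e2]
        have hdX : (X * (X + 1) * g : ℤ[X]).natDegree ≤ d + 1 := by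
          refine natDegree_mul_le.trans ?_
          have : (X * (X + 1) : ℤ[X]).natDegree ≤ 2 := by
            refine natDegree_mul_le.trans ?_
            have h1 : (X : ℤ[X]).natDegree ≤ 1 := natDegree_X_le
            have h2 : (X + 1 : ℤ[X]).natDegree ≤ 1 := by
              refine (natDegree_add_le _ _).trans (max_le natDegree_X_le ?_)
              simp
            omega
          omega
        exact natDegree_pow_le.trans (Nat.mul_le_mul_left _ hdX)
      have h2 : (r : ℤ) ∣ M * b ^ (d + d + d + e) * (a * (a + b) * hom (d - 1) g a b) ^ k := by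
        rw [← e3, hh, e1]
        exact h1.mul_right _
      have hrp : Prime (r : ℤ) := Nat.prime_iff_prime_int.1 hr
      have h3 : (r : ℤ) ∣ M * (a * b * c) * hom (d - 1) g a b := by
        have hcc : (c : ℤ) = a + b := by exact_mod_cast habc.symm
        rcases hrp.dvd_mul.1 h2 with h | h
        · rcases hrp.dvd_mul.1 h with h | h
          · exact (h.mul_right _).mul_right _
          · have := hrp.dvd_of_dvd_pow h
            refine Dvd.dvd.mul_right (Dvd.dvd.mul_left ?_ _) _
            exact (this.mul_left _).mul_right _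
        · have := hrp.dvd_of_dvd_pow h
          rcases hrp.dvd_mul.1 this with h | h
          · refine Dvd.dvd.mul_right (Dvd.dvd.mul_left ?_ _) _
            rcases hrp.dvd_mul.1 h with h | h
            · exact (h.mul_right _).mul_right _
            · rw [hcc]; exact h.mul_left _
          · exact h.mul_left _
      rw [← Int.natAbs_dvd_natAbs, Int.natAbs_natCast] at h3
      simpa [Int.natAbs_mul] using h3
    have hne : M.natAbs * (a * b * c) * (hom (d - 1) g a b).natAbs ≠ 0 := by
      have h1 := Int.natAbs_pos.2 n4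
      have : 0 < c := by omega
      positivity
    have habc0 : a * b * c ≠ 0 := by
      have : 0 < c := by omega
      positivity
    have h1 : R (a' * b' * c') ≤ M.natAbs * R (a * b * c) * (K₁ * c ^ (d - 1)) := by
      calc R (a' * b' * c') ≤ R (M.natAbs * (a * b * c) * (hom (d - 1) g a b).natAbs) :=
            R_le_of_primes hne hprime
        _ ≤ R (M.natAbs * (a * b * c)) * R (hom (d - 1) g a b).natAbs :=
            R_mul_le _ _ (mul_ne_zero (by omega) habc0) (by have := Int.natAbs_pos.2 n4; omega)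
        _ ≤ (R M.natAbs * R (a * b * c)) * R (hom (d - 1) g a b).natAbs :=
            Nat.mul_le_mul_right _ (R_mul_le _ _ (by omega) habc0)
        _ ≤ (M.natAbs * R (a * b * c)) * (hom (d - 1) g a b).natAbs :=
            Nat.mul_le_mul (Nat.mul_le_mul_right _ (R_le (by omega))) (R_le (Int.natAbs_pos.2 n4))
        _ ≤ M.natAbs * R (a * b * c) * (K₁ * c ^ (d - 1)) := by
            refine Nat.mul_le_mul_left _ ?_
            rw [← habc]
            exact hK₁' a b
    have h2 : (R (a' * b' * c') : ℝ) ≤ (M.natAbs * K₁ : ℝ) * R (a * b * c) * (c : ℝ) ^ (d - 1) := by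
      calc (R (a' * b' * c') : ℝ) ≤ ((M.natAbs * R (a * b * c) * (K₁ * c ^ (d - 1)) : ℕ) : ℝ) := by
            exact_mod_cast h1
        _ = _ := by push_cast; ring
    refine h2.trans ?_
    apply mul_le_mul_of_nonneg_right _ (by positivity)
    apply mul_le_mul_of_nonneg_right _ (by positivity)
    exact le_max_right _ _

end Pool.Agent.N746.Self
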