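import Mathlib
import Pool.Agent.N746.Self.General

/-!
# Self-similarity of the abc conjecture: two cubes and a square; the octahedral equation
-/

namespace Pool.Agent.N746.Self

open Finset Polynomial

/-- up to the order two of the numbers are cubes and one is a square -/
def TwoCubesOneSquare (a b c : ℕ) : Prop :=
  ∃ x y z : ℕ, ({a, b, c} : Multiset ℕ) = {x ^ 3, y ^ 3, z ^ 2}

/-- `108 v ^ 4 + e ^ 2 = f ^ 3` -/
def Octahedral (a b c : ℕ) : Prop := ∃ v e f : ℕ, a = 108 * v ^ 4 ∧ b = e ^ 2 ∧ c = f ^ 3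

theorem to_univ {T : ℕ → ℕ → ℕ → Prop} (h : ABC fun _ _ _ => True) : ABC T := fun ε hε => by
  obtain ⟨κ, hκ⟩ := h ε hε
  exact ⟨κ, fun a b c ha hb hab habc _ => hκ a b c ha hb hab habc trivial⟩

/-- a suitable choice of two of the three numbers -/
theorem choose_two (a b c : ℕ) (ha : 0 < a) (hb : 0 < b) (hab : Nat.Coprime a b) (habc : a + b = c) :
    ∃ s t u : ℕ, 0 < s ∧ 0 < t ∧ 0 < u ∧ Nat.Coprime s t ∧ (s + u = t ∨ t + u = s) ∧ Odd s ∧ ¬ 3 ∣ u ∧
      s * t * u = a * b * c ∧ s ≤ c ∧ t ≤ c ∧ c ≤ s + t := by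
  have hac : Nat.Coprime a c := by rw [← habc]; simpa using hab
  have hbc : Nat.Coprime b c := by rw [← habc]; simpa using hab.symm
  have h2 : ∀ x y : ℕ, Nat.Coprime x y → Odd x ∨ Odd y := by
    intro x y hxy
    by_contra h
    push Not at h
    obtain ⟨h1, h2⟩ := h
    rw [Nat.not_odd_iff_even] at h1 h2
    have := Nat.dvd_gcd h1.two_dvd h2.two_dvd
    rw [hxy] at this
    omega
  by_cases h3 : 3 ∣ a
  · -- third number `b`
    have h3b : ¬ 3 ∣ b := by
      intro h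
      have := Nat.dvd_gcd h3 h
      rw [hab] at this
      omega
    rcases h2 a c hac with h | h
    · exact ⟨a, c, b, ha, by omega, hb, hac, Or.inl habc, h, h3b, by ring, by omega, le_rfl, by omega⟩
    · exact ⟨c, a, b, by omega, ha, hb, hac.symm, Or.inr habc, h, h3b, by ring, le_rfl, by omega,
        by omega⟩
  · rcases h2 b c hbc with h | h
    · exact ⟨b, c, a, hb, by omega, ha, hbc, Or.inl (by omega), h, h3, by ring, by omega, le_rfl,
        by omega⟩
    · exact ⟨c, b, a, by omega, hb, ha, hbc.symm, Or.inr (by omega), h, h3, by ring, le_rfl,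
        by omega, by omega⟩

theorem two_cubes : ABC TwoCubesOneSquare ↔ ABC fun _ _ _ => True := by
  refine ⟨fun hT => ?_, to_univ⟩
  -- lower bound for the maximum of the two forms
  obtain ⟨κ, hκ, hκ'⟩ := max_ge 4 (X ^ 4 + C 8 * X) (C 4 - C 4 * X ^ 3)
    (by compute_degree!) (by compute_degree!)
    (Or.inl (by simp [coeff_X]))
    ⟨C (1 / 9) * X ^ 2, C (1 / 4) + C (1 / 36) * X ^ 3, by
      have m : ∀ b : ℤ, (C b).map (Int.castRingHom ℚ) = C (b : ℚ) := fun b => by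
        rw [map_C]; rfl
      rw [Polynomial.map_add, Polynomial.map_sub, Polynomial.map_mul, Polynomial.map_mul,
        Polynomial.map_pow, Polynomial.map_pow, map_X, m, m]
      have e1 : (C (1 / 9) : ℚ[X]) * C ((8 : ℤ) : ℚ) = C (8 / 9) := by
        rw [← C_mul]; norm_num
      have e2 : (C (1 / 4) : ℚ[X]) * C ((4 : ℤ) : ℚ) = 1 := by
        rw [← C_mul, ← C_1]; norm_num
      have e3 : (C (1 / 36) : ℚ[X]) * C ((4 : ℤ) : ℚ) = C (1 / 9) := by
        rw [← C_mul]; norm_num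
      have e4 : (C (8 / 9) : ℚ[X]) + C (1 / 9) = 1 := by
        rw [← C_add, ← C_1]; norm_num
      linear_combination X ^ 3 * e1 + (1 - X ^ 3) * e2 + (X ^ 3 - X ^ 6) * e3 + X ^ 3 * e4⟩
  refine transfer TwoCubesOneSquare 12 (max (max 1 (1 / κ) ^ 3) (2 * (3 * 7 * 3 * 29))) 3
    (le_trans (one_le_pow₀ (le_max_left _ _)) (le_max_left _ _)) ?_ hT
  intro a b c ha hb hab habc hc
  obtain ⟨s, t, u, hs, ht, hu, hst, hstu, hso, hu3, hprod, hsc, htc, hcst⟩ :=
    choose_two a b c ha hb hab habc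
  set x : ℤ := s * (s ^ 3 + 8 * t ^ 3) with hx
  set y : ℤ := 4 * t * (t ^ 3 - s ^ 3) with hy
  set z : ℤ := s ^ 6 - 20 * s ^ 3 * t ^ 3 - 8 * t ^ 6 with hz
  have hxyz : x ^ 3 + y ^ 3 = z ^ 2 := by rw [hx, hy, hz]; ring
  have hsZ : (0 : ℤ) < s := by exact_mod_cast hs
  have htZ : (0 : ℤ) < t := by exact_mod_cast ht
  have hne : (t : ℤ) - s ≠ 0 := by omega
  have hu' : (u : ℤ) = |(t : ℤ) - s| := by
    rcases hstu with h | h
    · rw [abs_of_nonneg (by omega)]; omega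
    · rw [abs_of_nonpos (by omega)]; omega
  have hx0 : x ≠ 0 := by rw [hx]; positivity
  have hcube : (t : ℤ) ^ 3 - s ^ 3 = (t - s) * (t ^ 2 + t * s + s ^ 2) := by ring
  have hy0 : y ≠ 0 := by
    rw [hy, hcube]
    exact mul_ne_zero (by positivity) (mul_ne_zero hne (by positivity))
  have hsoZ : Odd (s : ℤ) := by exact_mod_cast hso
  have hzo : Odd z := by
    rw [hz]
    have h1 : Odd ((s : ℤ) ^ 6) := hsoZ.pow
    have h2 : Even (20 * (s : ℤ) ^ 3 * t ^ 3) := ⟨10 * (s : ℤ) ^ 3 * t ^ 3, by ring⟩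
    have h3 : Even (8 * (t : ℤ) ^ 6) := ⟨4 * (t : ℤ) ^ 6, by ring⟩
    exact (h1.sub_even h2).sub_even h3
  have hz0 : z ≠ 0 := by
    intro h; rw [h] at hzo; exact absurd hzo (by decide)
  have hxo : Odd x := by
    rw [hx]
    have h2 : Even (8 * (t : ℤ) ^ 3) := ⟨4 * (t : ℤ) ^ 3, by ring⟩
    exact hsoZ.mul (hsoZ.pow.add_even h2)
  -- coprimality
  have hcop : ∀ p : ℕ, p.Prime → (p : ℤ) ∣ x → (p : ℤ) ∣ y → False := by
    intro p hp h1 h2
    have hpZ : Prime (p : ℤ) := Nat.prime_iff_prime_int.1 hp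
    have hp2 : p ≠ 2 := by
      rintro rfl
      rw [← Int.not_even_iff_odd, even_iff_two_dvd] at hxo
      exact hxo (by exact_mod_cast h1)
    have hst' : ¬ ((p : ℤ) ∣ s ∧ (p : ℤ) ∣ t) := by
      rintro ⟨g1, g2⟩
      have := Nat.dvd_gcd (Int.natCast_dvd_natCast.1 g1) (Int.natCast_dvd_natCast.1 g2)
      rw [hst] at this
      exact hp.one_lt.ne' (Nat.dvd_one.1 this)
    have hp4 : ¬ (p : ℤ) ∣ 4 := by
      intro h
      have : (p : ℤ) ∣ 2 ^ 2 := by norm_num; exact h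
      have := hpZ.dvd_of_dvd_pow this
      have := Int.natCast_dvd_natCast.1 (show (p : ℤ) ∣ ((2 : ℕ) : ℤ) by exact_mod_cast this)
      exact hp2 ((Nat.prime_dvd_prime_iff_eq hp Nat.prime_two).1 this)
    rw [hy] at h2
    rcases hpZ.dvd_mul.1 h2 with h | h
    · have h : (p : ℤ) ∣ t := (hpZ.dvd_mul.1 h).resolve_left hp4
      rw [hx] at h1
      rcases hpZ.dvd_mul.1 h1 with g | g
      · exact hst' ⟨g, h⟩
      · have : (p : ℤ) ∣ s ^ 3 := by
          have e : (s : ℤ) ^ 3 = (s ^ 3 + 8 * t ^ 3) - 8 * t ^ 2 * t := by ring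
          rw [e]; exact dvd_sub g (h.mul_left _)
        exact hst' ⟨hpZ.dvd_of_dvd_pow this, h⟩
    · rw [hx] at h1
      rcases hpZ.dvd_mul.1 h1 with g | g
      · have : (p : ℤ) ∣ t ^ 3 := by
          have e : (t : ℤ) ^ 3 = (t ^ 3 - s ^ 3) + s ^ 2 * s := by ring
          rw [e]; exact dvd_add h (g.mul_left _)
        exact hst' ⟨g, hpZ.dvd_of_dvd_pow this⟩
      · have h9 : (p : ℤ) ∣ 9 * t ^ 3 := by
          have e : 9 * (t : ℤ) ^ 3 = (s ^ 3 + 8 * t ^ 3) + (t ^ 3 - s ^ 3) := by ring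
          rw [e]; exact dvd_add g h
        rcases hpZ.dvd_mul.1 h9 with k | k
        · have k3 : (p : ℤ) ∣ 3 ^ 2 := by norm_num; exact k
          have k3' := hpZ.dvd_of_dvd_pow k3
          have hp3 : p = 3 := by
            have := Int.natCast_dvd_natCast.1 (show (p : ℤ) ∣ ((3 : ℕ) : ℤ) by exact_mod_cast k3')
            exact (Nat.prime_dvd_prime_iff_eq hp Nat.prime_three).1 this
          subst hp3
          -- `3 ∣ t ^ 3 - s ^ 3` implies `3 ∣ t - s`
          apply hu3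
          have h3 : (3 : ℤ) ∣ t - s := by
            have e : (t : ℤ) - s = (t ^ 3 - s ^ 3) - ((t ^ 3 - t) - (s ^ 3 - s)) := by ring
            have f : ∀ w : ℤ, (3 : ℤ) ∣ w ^ 3 - w := by
              intro w
              have : w % 3 = 0 ∨ w % 3 = 1 ∨ w % 3 = 2 := by omega
              rcases this with h | h | h <;>
              · apply Int.dvd_of_emod_eq_zero
                simp [Int.sub_emod, pow_succ, Int.mul_emod, h]
            rw [e]
            exact dvd_sub (by exact_mod_cast h) (dvd_sub (f _) (f _))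
          have : (3 : ℤ) ∣ u := by rw [hu']; exact (dvd_abs _ _).2 h3
          exact_mod_cast this
        · have k' := hpZ.dvd_of_dvd_pow k
          have : (p : ℤ) ∣ s ^ 3 := by
            have e : (s : ℤ) ^ 3 = t ^ 2 * t - (t ^ 3 - s ^ 3) := by ring
            rw [e]; exact dvd_sub (k'.mul_left _) h
          exact hst' ⟨hpZ.dvd_of_dvd_pow this, k'⟩
  obtain ⟨m, a', b', c', hm, ha', hb', hab', habc', hms, hmα, hmβ, hα, hβ, hpr⟩ :=
    arrange (x ^ 3) (y ^ 3) (pow_ne_zero _ hx0) (pow_ne_zero _ hy0)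
      (by rw [hxyz]; exact pow_ne_zero _ hz0)
  have hm1 : m = 1 := by
    by_contra hne1
    obtain ⟨p, hp, hpm⟩ := Nat.exists_prime_and_dvd hne1
    have hpZ : Prime (p : ℤ) := Nat.prime_iff_prime_int.1 hp
    have hpm' : (p : ℤ) ∣ m := by exact_mod_cast hpm
    exact hcop p hp (hpZ.dvd_of_dvd_pow (hpm'.trans hmα)) (hpZ.dvd_of_dvd_pow (hpm'.trans hmβ))
  subst hm1
  have hc0 : (0 : ℝ) < c := by exact_mod_cast (by omega : 0 < c)
  refine ⟨12, a', b', c', by norm_num, le_rfl, ha', hb', hab', habc', ?_, ?_, ?_⟩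
  · refine ⟨x.natAbs, y.natAbs, z.natAbs, ?_⟩
    have := hms
    rw [hxyz] at this
    simpa [Int.natAbs_pow] using this
  · -- height
    have h1 := hκ' s t hs ht
    have ex : (hom 4 (X ^ 4 + C 8 * X) s t : ℤ) = x := by
      rw [hx]; unfold hom
      simp only [sum_range_succ, range_zero, sum_empty, coeff_add, coeff_C_mul, coeff_X,
        coeff_X_pow]
      norm_num
      ring
    have ey : (hom 4 (C 4 - C 4 * X ^ 3) s t : ℤ) = y := by
      rw [hy]; unfold hom
      simp only [sum_range_succ, range_zero, sum_empty, coeff_sub, coeff_C_mul, coeff_C,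
        coeff_X_pow]
      norm_num
      ring
    rw [ex, ey] at h1
    have h2 : max |(x : ℝ)| |(y : ℝ)| ^ 3 ≤ c' := by
      rcases le_total |(x : ℝ)| |(y : ℝ)| with h | h
      · rw [max_eq_right h]
        have : ((y ^ 3).natAbs : ℝ) ≤ ((1 * c' : ℕ) : ℝ) := by exact_mod_cast hβ
        rw [Nat.cast_natAbs] at this
        push_cast at this
        rw [abs_pow] at this
        linarith
      · rw [max_eq_left h]
        have : ((x ^ 3).natAbs : ℝ) ≤ ((1 * c' : ℕ) : ℝ) := by exact_mod_cast hα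
        rw [Nat.cast_natAbs] at this
        push_cast at this
        rw [abs_pow] at this
        linarith
    have h3 : (c : ℝ) ^ 4 ≤ (1 / κ) * max |(x : ℝ)| |(y : ℝ)| := by
      rw [one_div, ← div_eq_inv_mul, le_div_iff₀ hκ]
      have : (c : ℝ) ^ 4 ≤ ((s + t : ℕ) : ℝ) ^ 4 :=
        pow_le_pow_left₀ hc0.le (by exact_mod_cast hcst) 4
      nlinarith
    have h4 : (c : ℝ) ^ 12 ≤ (1 / κ) ^ 3 * c' := by
      calc (c : ℝ) ^ 12 = ((c : ℝ) ^ 4) ^ 3 := by ring
        _ ≤ ((1 / κ) * max |(x : ℝ)| |(y : ℝ)|) ^ 3 := pow_le_pow_left₀ (by positivity) h3 3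
        _ = (1 / κ) ^ 3 * max |(x : ℝ)| |(y : ℝ)| ^ 3 := by ring
        _ ≤ _ := mul_le_mul_of_nonneg_left h2 (by positivity)
    refine h4.trans (mul_le_mul_of_nonneg_right ?_ (Nat.cast_nonneg _))
    refine le_trans ?_ (le_max_left _ _)
    exact pow_le_pow_left₀ (by positivity) (le_max_right _ _) 3
  · -- radical
    set w : ℕ := (s + 2 * t) * ((s : ℤ) ^ 2 - 2 * s * t + 4 * t ^ 2).natAbs *
      (t ^ 2 + t * s + s ^ 2) * z.natAbs with hw
    have hq0 : ((s : ℤ) ^ 2 - 2 * s * t + 4 * t ^ 2) ≠ 0 := by nlinarith [sq_nonneg ((s : ℤ) - t)]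
    have hw0 : w ≠ 0 := by
      rw [hw]
      have h1 : 0 < ((s : ℤ) ^ 2 - 2 * s * t + 4 * t ^ 2).natAbs := Int.natAbs_pos.2 hq0
      have h2 : 0 < z.natAbs := Int.natAbs_pos.2 hz0
      positivity
    have habc0 : a * b * c ≠ 0 := by
      have : 0 < c := by omega
      positivity
    have hprime : ∀ p : ℕ, p.Prime → p ∣ a' * b' * c' → p ∣ 2 * (a * b * c) * w := by
      intro p hp hpd
      have hpZ : Prime (p : ℤ) := Nat.prime_iff_prime_int.1 hp
      have h1 := hpr p hp hpd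
      rw [hxyz] at h1
      have h2 : (p : ℤ) ∣ x * y * z := by
        rcases hpZ.dvd_mul.1 h1 with h | h
        · rcases hpZ.dvd_mul.1 h with h | h
          · exact ((hpZ.dvd_of_dvd_pow h).mul_right _).mul_right _
          · exact ((hpZ.dvd_of_dvd_pow h).mul_left _).mul_right _
        · exact (hpZ.dvd_of_dvd_pow h).mul_left _
      have e1 : x * y * z = 4 * (s * t * (t - s)) * ((s + 2 * t) *
          ((s : ℤ) ^ 2 - 2 * s * t + 4 * t ^ 2) * (t ^ 2 + t * s + s ^ 2) * z) := by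
        rw [hx, hy]; ring
      rw [e1, ← Int.natAbs_dvd_natAbs] at h2
      simp only [Int.natAbs_mul, Int.natAbs_natCast] at h2
      have e2 : ((t : ℤ) - s).natAbs = u := by
        have := congrArg Int.natAbs hu'
        rw [Int.natAbs_abs, Int.natAbs_natCast] at this
        exact this.symm
      have e3 : ((s : ℤ) + 2 * t).natAbs = s + 2 * t := by
        have : ((s : ℤ) + 2 * t) = ((s + 2 * t : ℕ) : ℤ) := by push_cast; ring
        rw [this, Int.natAbs_natCast]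
      have e4 : ((t : ℤ) ^ 2 + t * s + s ^ 2).natAbs = t ^ 2 + t * s + s ^ 2 := by
        have : ((t : ℤ) ^ 2 + t * s + s ^ 2) = ((t ^ 2 + t * s + s ^ 2 : ℕ) : ℤ) := by push_cast; ring
        rw [this, Int.natAbs_natCast]
      rw [e2, e3, e4] at h2
      have h3 : p ∣ (2 * 2) * ((a * b * c) * w) := by
        rw [← hprod, hw]
        have e5 : 2 * 2 * (s * t * u * ((s + 2 * t) * ((s : ℤ) ^ 2 - 2 * s * t + 4 * t ^ 2).natAbs *
          (t ^ 2 + t * s + s ^ 2) * z.natAbs)) = (4 : ℤ).natAbs * (s * t * u) * ((s + 2 * t) *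
          ((s : ℤ) ^ 2 - 2 * s * t + 4 * t ^ 2).natAbs * (t ^ 2 + t * s + s ^ 2) * z.natAbs) := by
          rw [show (4 : ℤ).natAbs = 4 from rfl]; ring
        rw [e5]; exact h2
      rcases (hp.dvd_mul).1 h3 with h | h
      · have := (hp.dvd_mul).1 h
        have h : p ∣ 2 := by tauto
        exact (h.mul_right _).mul_right _
      · rw [mul_assoc]; exact h.mul_left _
    have hR : R (a' * b' * c') ≤ 2 * R (a * b * c) * w := by
      calc R (a' * b' * c') ≤ R (2 * (a * b * c) * w) :=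
            R_le_of_primes (mul_ne_zero (mul_ne_zero two_ne_zero habc0) hw0) hprime
        _ ≤ R (2 * (a * b * c)) * R w := R_mul_le _ _ (mul_ne_zero two_ne_zero habc0) hw0
        _ ≤ (R 2 * R (a * b * c)) * R w := Nat.mul_le_mul_right _ (R_mul_le _ _ two_ne_zero habc0)
        _ ≤ _ := Nat.mul_le_mul (Nat.mul_le_mul_right _ (R_le (by norm_num)))
            (R_le (Nat.pos_of_ne_zero hw0))
    have hwle : (w : ℝ) ≤ (3 * 7 * 3 * 29) * (c : ℝ) ^ 11 := by
      have sc : (s : ℝ) ≤ c := by exact_mod_cast hsc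
      have tc : (t : ℝ) ≤ c := by exact_mod_cast htc
      have s0 : (0 : ℝ) ≤ s := by positivity
      have t0 : (0 : ℝ) ≤ t := by positivity
      have w1 : ((s + 2 * t : ℕ) : ℝ) ≤ 3 * c := by push_cast; linarith
      have s2 : (s : ℝ) ^ 2 ≤ (c : ℝ) ^ 2 := pow_le_pow_left₀ s0 sc 2
      have t2 : (t : ℝ) ^ 2 ≤ (c : ℝ) ^ 2 := pow_le_pow_left₀ t0 tc 2
      have st : (s : ℝ) * t ≤ (c : ℝ) ^ 2 := by
        rw [pow_two]; exact mul_le_mul sc tc t0 hc0.le
      have st0 : 0 ≤ (s : ℝ) * t := by positivity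
      have w2 : ((((s : ℤ) ^ 2 - 2 * s * t + 4 * t ^ 2).natAbs : ℕ) : ℝ) ≤ 7 * (c : ℝ) ^ 2 := by
        rw [Nat.cast_natAbs]
        push_cast
        rw [abs_le]
        constructor <;> nlinarith
      have w3 : ((t ^ 2 + t * s + s ^ 2 : ℕ) : ℝ) ≤ 3 * (c : ℝ) ^ 2 := by
        push_cast; nlinarith
      have w4 : ((z.natAbs : ℕ) : ℝ) ≤ 29 * (c : ℝ) ^ 6 := by
        rw [Nat.cast_natAbs, hz]
        push_cast
        have s6 : (s : ℝ) ^ 6 ≤ (c : ℝ) ^ 6 := pow_le_pow_left₀ s0 sc 6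
        have t6 : (t : ℝ) ^ 6 ≤ (c : ℝ) ^ 6 := pow_le_pow_left₀ t0 tc 6
        have st3 : (s : ℝ) ^ 3 * t ^ 3 ≤ (c : ℝ) ^ 6 := by
          calc (s : ℝ) ^ 3 * t ^ 3 ≤ (c : ℝ) ^ 3 * (c : ℝ) ^ 3 :=
                mul_le_mul (pow_le_pow_left₀ s0 sc 3) (pow_le_pow_left₀ t0 tc 3) (by positivity)
                  (by positivity)
            _ = (c : ℝ) ^ 6 := by ring
        have g1 : 0 ≤ (s : ℝ) ^ 6 := by positivity
        have g2 : 0 ≤ (t : ℝ) ^ 6 := by positivity
        have g3 : 0 ≤ (s : ℝ) ^ 3 * t ^ 3 := by positivity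
        rw [abs_le]
        constructor <;> nlinarith
      rw [hw]
      push_cast at w1 w3 ⊢
      have p2 : (0 : ℝ) ≤ (((s : ℤ) ^ 2 - 2 * s * t + 4 * t ^ 2).natAbs : ℕ) := Nat.cast_nonneg _
      calc ((s : ℝ) + 2 * t) * (((s : ℤ) ^ 2 - 2 * s * t + 4 * t ^ 2).natAbs : ℕ) *
            ((t : ℝ) ^ 2 + t * s + s ^ 2) * (z.natAbs : ℕ)
          ≤ (3 * c) * (7 * (c : ℝ) ^ 2) * (3 * (c : ℝ) ^ 2) * (29 * (c : ℝ) ^ 6) := by
            gcongr
        _ = _ := by ring
    have h5 : (R (a' * b' * c') : ℝ) ≤ (2 * (3 * 7 * 3 * 29)) * R (a * b * c) * (c : ℝ) ^ 11 := by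
      calc (R (a' * b' * c') : ℝ) ≤ ((2 * R (a * b * c) * w : ℕ) : ℝ) := by exact_mod_cast hR
        _ = 2 * R (a * b * c) * w := by push_cast; ring
        _ ≤ 2 * R (a * b * c) * ((3 * 7 * 3 * 29) * (c : ℝ) ^ 11) :=
            mul_le_mul_of_nonneg_left hwle (by positivity)
        _ = _ := by ring
    refine h5.trans ?_
    apply mul_le_mul_of_nonneg_right _ (by positivity)
    apply mul_le_mul_of_nonneg_right _ (by positivity)
    exact le_max_right _ _

end Pool.Agent.N746.Self
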