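import Mathlib
import Pool.Agent.N746.Self.Shapes

/-!
# Self-similarity of the abc conjecture: tools for sparse sets of triples
-/

namespace Pool.Agent.N746.Self

open Finset Filter

/-- an idempotent power -/
theorem exists_idem {M : Type*} [Monoid M] [Finite M] (x : M) :
    ∃ k : ℕ, k ≠ 0 ∧ IsIdempotentElem (x ^ k) := by
  obtain ⟨i, j, hij, he⟩ := Finite.exists_ne_map_eq_of_infinite (fun i : ℕ => x ^ (i + 1))
  wlog h : i < j generalizing i j
  · exact this j i (Ne.symm hij) he.symm (by omega)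
  obtain ⟨s, rfl⟩ := Nat.exists_eq_add_of_lt h
  -- `x ^ (i + 1 + t (s + 1) + l) = x ^ (i + 1 + l)`
  have key : ∀ t l : ℕ, x ^ (i + 1 + t * (s + 1) + l) = x ^ (i + 1 + l) := by
    intro t
    induction t with
    | zero => intro l; simp
    | succ t ih =>
      intro l
      have : i + 1 + (t + 1) * (s + 1) + l = (i + s + 1 + 1) + (t * (s + 1) + l) := by ring
      rw [this, pow_add, ← he, ← pow_add, ← ih l]
      congr 1
      ring
  refine ⟨(i + 1) * (s + 1), by positivity, ?_⟩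
  unfold IsIdempotentElem
  rw [← pow_add]
  have e1 : (i + 1) * (s + 1) + (i + 1) * (s + 1) = i + 1 + (i + 1) * (s + 1) + (i + 1) * s := by ring
  have e2 : (i + 1) * (s + 1) = i + 1 + (i + 1) * s := by ring
  rw [e1, key, ← e2]

/-- a power that is idempotent for all elements of `ZMod M` -/
theorem exists_pow_idem (M : ℕ) [NeZero M] : ∃ k : ℕ, k ≠ 0 ∧ ∀ x : ZMod M, IsIdempotentElem (x ^ k) := by
  choose k hk hk' using fun x : ZMod M => exists_idem x
  refine ⟨∏ x, k x, Finset.prod_ne_zero_iff.2 fun x _ => hk x, fun x => ?_⟩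
  obtain ⟨l, hl⟩ := Finset.dvd_prod_of_mem k (Finset.mem_univ x)
  rw [hl, pow_mul]
  exact (hk' x).pow _

theorem dvd_of_idem (M k : ℕ) [NeZero M] (hk : ∀ x : ZMod M, IsIdempotentElem (x ^ k)) (j a c : ℕ)
    (hac : a ≤ c) : M ∣ a ^ (k * j) * (c ^ (k * j) - a ^ (k * j)) * c ^ (k * j) := by
  rw [← ZMod.natCast_eq_zero_iff]
  have h1 : a ^ (k * j) ≤ c ^ (k * j) := Nat.pow_le_pow_left hac _
  push_cast [Nat.cast_sub h1]
  have e := (hk a).pow j
  have f := (hk c).pow j
  rw [← pow_mul] at e f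
  unfold IsIdempotentElem at e f
  set u := (a : ZMod M) ^ (k * j)
  set v := (c : ZMod M) ^ (k * j)
  linear_combination u * f - v * e

/-- the window lemma -/
theorem window (r A : ℕ) (δ : ℝ) (hδ : 0 < δ) (hA : 2 ≤ A * δ) (Y : ℕ → ℝ) (hY : ∀ i, 1 < Y i)
    (hYt : Tendsto Y atTop atTop) (hYr : ∀ i, Y (i + 1) ≤ (Y i) ^ r) (K t : ℝ) (hK : 1 ≤ K)
    (hKt : K ≤ t) (ht1 : 1 < t) (hYt0 : Y 0 < t) :
    ∃ j i : ℕ, A ≤ j ∧ j ≤ r * A + 1 ∧ Y i * K ≤ t ^ j ∧ t ^ j ≤ (Y i) ^ (1 + δ) := by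
  classical
  have hA0 : 1 ≤ A := by
    rcases Nat.eq_zero_or_pos A with h | h
    · rw [h] at hA; norm_num at hA
    · exact h
  have hex : ∃ i, t ^ A ≤ Y i := (hYt.eventually_ge_atTop (t ^ A)).exists
  set i := Nat.find hex with hi
  have hi1 : t ^ A ≤ Y i := Nat.find_spec hex
  have hi2 : Y i ≤ t ^ (r * A) := by
    rcases Nat.eq_zero_or_pos i with h | h
    · exfalso
      rw [h] at hi1
      have : t ≤ t ^ A := by
        calc t = t ^ 1 := (pow_one t).symm
          _ ≤ t ^ A := pow_le_pow_right₀ ht1.le hA0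
      linarith
    · obtain ⟨i', hi'⟩ := Nat.exists_eq_add_of_lt h
      have hlt : i' < Nat.find hex := by omega
      have h1 := Nat.find_min hex hlt
      push Not at h1
      have h2 : i = i' + 1 := by omega
      rw [h2]
      calc Y (i' + 1) ≤ (Y i') ^ r := hYr i'
        _ ≤ (t ^ A) ^ r := pow_le_pow_left₀ (by linarith [hY i']) h1.le r
        _ = t ^ (r * A) := by rw [← pow_mul, mul_comm]
  have hex2 : ∃ j : ℕ, Y i * K ≤ t ^ j := by
    obtain ⟨j, hj⟩ := pow_unbounded_of_one_lt (Y i * K) ht1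
    exact ⟨j, hj.le⟩
  set j := Nat.find hex2 with hj
  have hj1 : Y i * K ≤ t ^ j := Nat.find_spec hex2
  have hYi := hY i
  have hjA : A ≤ j := by
    have : t ^ A ≤ t ^ j := by
      calc t ^ A ≤ Y i := hi1
        _ = Y i * 1 := (mul_one _).symm
        _ ≤ Y i * K := mul_le_mul_of_nonneg_left hK (by linarith)
        _ ≤ _ := hj1
    exact (pow_le_pow_iff_right₀ ht1).1 this
  obtain ⟨j', hj'⟩ : ∃ j', j = j' + 1 := ⟨j - 1, by omega⟩
  have hj2 : t ^ j' < Y i * K := by
    have := Nat.find_min hex2 (show j' < Nat.find hex2 by omega)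
    push Not at this
    exact this
  refine ⟨j, i, hjA, ?_, hj1, ?_⟩
  · have h1 : t ^ j' < t ^ (r * A + 1) := by
      calc t ^ j' < Y i * K := hj2
        _ ≤ t ^ (r * A) * t := mul_le_mul hi2 hKt (by linarith) (by positivity)
        _ = _ := by rw [pow_succ]
    have := (pow_lt_pow_iff_right₀ ht1).1 h1
    omega
  · have h1 : t ^ 2 ≤ (Y i) ^ δ := by
      calc t ^ 2 = t ^ (2 : ℝ) := by norm_cast
        _ ≤ t ^ (A * δ) := Real.rpow_le_rpow_of_exponent_le ht1.le hA
        _ = (t ^ A) ^ δ := by rw [Real.rpow_mul (by linarith), Real.rpow_natCast]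
        _ ≤ _ := Real.rpow_le_rpow (by positivity) hi1 hδ.le
    calc t ^ j = t ^ j' * t := by rw [hj', pow_succ]
      _ ≤ (Y i * K) * t := mul_le_mul_of_nonneg_right hj2.le (by linarith)
      _ ≤ (Y i * t) * t := by
          apply mul_le_mul_of_nonneg_right _ (by linarith)
          exact mul_le_mul_of_nonneg_left hKt (by linarith)
      _ = Y i * t ^ 2 := by ring
      _ ≤ Y i * (Y i) ^ δ := mul_le_mul_of_nonneg_left h1 (by linarith)
      _ = (Y i) ^ (1 + δ) := by
          rw [Real.rpow_add (by linarith), Real.rpow_one]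

/-- the odd terms of a triple -/
theorem odd_terms (a b c : ℕ) (ha : 0 < a) (hb : 0 < b) (hab : Nat.Coprime a b) (habc : a + b = c)
    (hne : a ≠ b) (η : ℝ) (hη : 0 ≤ η) (hclose : (min a b : ℝ) ≤ η * c) :
    ∃ x y z : ℕ, Odd x ∧ Odd y ∧ Nat.Coprime x y ∧ 0 < y ∧ y < x ∧ (z = x + y ∨ z + y = x) ∧ x * y * z = a * b * c ∧
      x ≤ c ∧ c ≤ 2 * x ∧ ((y : ℝ) ≤ 2 * η * x ∨ (1 - η) * x ≤ y) := by
  have hac : Nat.Coprime a c := by rw [← habc]; simpa using hab
  have hbc : Nat.Coprime b c := by rw [← habc]; simpa using hab.symm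
  rcases Nat.even_or_odd a with hae | hao
  · have hbo : Odd b := by
      by_contra h
      rw [Nat.not_odd_iff_even] at h
      have := Nat.dvd_gcd hae.two_dvd h.two_dvd
      rw [hab] at this; omega
    refine ⟨c, b, a, ?_, hbo, hbc.symm, hb, by omega, Or.inr habc, by ring, le_rfl, by omega, ?_⟩
    · rw [← habc]; exact hae.add_odd hbo
    · rcases min_le_iff.1 hclose with h | h
      · right
        have : (b : ℝ) = c - a := by rw [← habc]; push_cast; ring
        rw [this]; linarith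
      · left
        have : 0 ≤ η * c := by positivity
        linarith
  · rcases Nat.even_or_odd b with hbe | hbo
    · refine ⟨c, a, b, ?_, hao, hac.symm, ha, by omega, Or.inr (by omega), by ring, le_rfl, by omega, ?_⟩
      · rw [← habc]; exact hao.add_even hbe
      · rcases min_le_iff.1 hclose with h | h
        · left
          have : 0 ≤ η * c := by positivity
          linarith
        · right
          have : (a : ℝ) = c - b := by rw [← habc]; push_cast; ring
          rw [this]; linarith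
    · rcases Nat.lt_or_gt_of_ne hne with h | h
      · refine ⟨b, a, c, hbo, hao, hab.symm, ha, h, Or.inl (by omega), by ring, by omega, by omega, ?_⟩
        left
        have hab' : (a : ℝ) ≤ b := by exact_mod_cast h.le
        rw [min_eq_left hab'] at hclose
        have : (c : ℝ) ≤ 2 * b := by rw [← habc]; push_cast; linarith
        nlinarith
      · refine ⟨a, b, c, hao, hbo, hab, hb, h, Or.inl (by omega), by ring, by omega, by omega, ?_⟩
        left
        have hab' : (b : ℝ) ≤ a := by exact_mod_cast h.le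
        rw [min_eq_right hab'] at hclose
        have : (c : ℝ) ≤ 2 * a := by rw [← habc]; push_cast; linarith
        nlinarith

/-- the power map -/
theorem power_map (m : ℕ) (hm : 1 ≤ m) (a b c : ℕ) (ha : 0 < a) (hb : 0 < b) (habc : a + b = c) :
    R (a ^ m * (c ^ m - a ^ m) * c ^ m) ≤ R (a * b * c) * (m * c ^ (m - 1)) := by
  have hc : 0 < c := by omega
  have hlt : a ^ m < c ^ m := Nat.pow_lt_pow_left (by omega) (by omega)
  set S : ℕ := ∑ i ∈ range m, c ^ i * a ^ (m - 1 - i) with hS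
  have hgeom : b * S = c ^ m - a ^ m := by
    have h1 := Commute.mul_geom_sum₂ (Commute.all (c : ℤ) (a : ℤ)) m
    have h2 : (c : ℤ) - a = b := by rw [← habc]; push_cast; ring
    rw [h2] at h1
    have h3 : ((b * S + a ^ m : ℕ) : ℤ) = ((c ^ m : ℕ) : ℤ) := by
      rw [hS]
      push_cast
      rw [h1]; ring
    have h4 : b * S + a ^ m = c ^ m := by exact_mod_cast h3
    omega
  have hSle : S ≤ m * c ^ (m - 1) := by
    rw [hS]
    calc ∑ i ∈ range m, c ^ i * a ^ (m - 1 - i) ≤ ∑ i ∈ range m, c ^ (m - 1) := by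
          apply Finset.sum_le_sum
          intro i hi
          rw [Finset.mem_range] at hi
          calc c ^ i * a ^ (m - 1 - i) ≤ c ^ i * c ^ (m - 1 - i) :=
                Nat.mul_le_mul_left _ (Nat.pow_le_pow_left (by omega) _)
            _ = c ^ (m - 1) := by rw [← pow_add]; congr 1; omega
      _ = m * c ^ (m - 1) := by simp
  have hS0 : S ≠ 0 := by
    intro h
    rw [h] at hgeom
    omega
  have habc0 : a * b * c ≠ 0 := by positivity
  have hprime : ∀ p : ℕ, p.Prime → p ∣ a ^ m * (c ^ m - a ^ m) * c ^ m → p ∣ a * b * c * S := by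
    intro p hp hd
    rcases (hp.dvd_mul).1 hd with h | h
    · rcases (hp.dvd_mul).1 h with h | h
      · have := hp.dvd_of_dvd_pow h
        exact ((this.mul_right b).mul_right c).mul_right S
      · rw [← hgeom] at h
        have e : a * b * c * S = a * c * (b * S) := by ring
        rw [e]; exact h.mul_left _
    · have := hp.dvd_of_dvd_pow h
      exact (this.mul_left (a * b)).mul_right S
  calc R (a ^ m * (c ^ m - a ^ m) * c ^ m) ≤ R (a * b * c * S) :=
        R_le_of_primes (mul_ne_zero habc0 hS0) hprime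
    _ ≤ R (a * b * c) * R S := R_mul_le _ _ habc0 hS0
    _ ≤ R (a * b * c) * S := Nat.mul_le_mul_left _ (R_le (Nat.pos_of_ne_zero hS0))
    _ ≤ _ := Nat.mul_le_mul_left _ hSle

/-- the dihedral map -/
theorem dih (n : ℕ) (hn : 1 ≤ n) (x y z c : ℕ) (hx : Odd x) (hy : Odd y)
    (hxy : Nat.Coprime x y) (hy0 : 0 < y) (hyx : y < x) (hz : z = x + y ∨ z + y = x) (hz0 : 0 < z)
    (hxc : x ≤ c) (hcx : c ≤ 2 * x) :
    ∃ P Q : ℕ, x ^ n = P + Q ∧ y ^ n + Q = P ∧ 0 < Q ∧ (x * y) ^ n + Q ^ 2 = P ^ 2 ∧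
      Nat.Coprime ((x * y) ^ n) (Q ^ 2) ∧
      c ^ (2 * n) ≤ 4 ^ (n + 1) * P ^ 2 ∧ P ^ 2 ≤ c ^ (2 * n) ∧
      R ((x * y) ^ n * Q ^ 2 * P ^ 2) ≤ R (x * y * z) * (2 * n * c ^ (2 * n - 1)) := by
  have hxn : Odd (x ^ n) := hx.pow
  have hyn : Odd (y ^ n) := hy.pow
  have hlt : y ^ n < x ^ n := Nat.pow_lt_pow_left hyx (by omega)
  obtain ⟨Q, hQ⟩ : ∃ Q, x ^ n = 2 * Q + y ^ n := by
    obtain ⟨k, hk⟩ := hxn
    obtain ⟨l, hl⟩ := hyn
    exact ⟨k - l, by omega⟩
  obtain ⟨P, hP⟩ : ∃ P, P = Q + y ^ n := ⟨_, rfl⟩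
  have hPQ : x ^ n = P + Q := by omega
  have hQ0 : 0 < Q := by omega
  have hP0 : 0 < P := by omega
  have hyn0 : 0 < y ^ n := by positivity
  have heq : (x * y) ^ n + Q ^ 2 = P ^ 2 := by
    rw [mul_pow, hQ, hP]; ring
  have hPQc : Nat.Coprime P Q := by
    rw [hP]
    apply Nat.Coprime.symm
    rw [Nat.coprime_self_add_right]
    -- `Q` coprime to `y ^ n`
    have h1 : Nat.Coprime (x ^ n) (y ^ n) := hxy.pow n n
    rw [hQ] at h1
    have h2 : Nat.Coprime (2 * Q) (y ^ n) := by simpa using h1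
    exact Nat.Coprime.coprime_mul_left h2
  have hcop : Nat.Coprime ((x * y) ^ n) (Q ^ 2) := by
    have h1 : Nat.Coprime (P ^ 2) (Q ^ 2) := hPQc.pow 2 2
    rw [← heq] at h1
    exact Nat.coprime_add_self_left.1 h1
  have hc0 : 0 < c := by omega
  -- the factorisation of `4 P Q`
  have h4 : 4 * (P * Q) + y ^ (2 * n) = x ^ (2 * n) := by
    rw [mul_comm 2 n, pow_mul, pow_mul, hQ, hP]; ring
  obtain ⟨o, ho, hoz⟩ : ∃ o, o ≤ 2 * c ∧ z * o + y ^ 2 = x ^ 2 := by
    rcases hz with h | h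
    · refine ⟨x - y, by omega, ?_⟩
      obtain ⟨k, hk⟩ := Nat.exists_eq_add_of_lt hyx
      have : x - y = k + 1 := by omega
      rw [this, h, hk]; ring
    · refine ⟨x + y, by omega, ?_⟩
      rw [← h]; ring
  set S : ℕ := ∑ i ∈ range n, (x ^ 2) ^ i * (y ^ 2) ^ (n - 1 - i) with hS
  have hgeom : z * o * S + y ^ (2 * n) = x ^ (2 * n) := by
    have h1 := Commute.mul_geom_sum₂ (Commute.all ((x : ℤ) ^ 2) ((y : ℤ) ^ 2)) n
    have h2 : ((x : ℤ) ^ 2 - (y : ℤ) ^ 2) = z * o := by
      have : ((z * o + y ^ 2 : ℕ) : ℤ) = ((x ^ 2 : ℕ) : ℤ) := by rw [hoz]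
      push_cast at this
      linarith
    rw [h2] at h1
    have h3 : ((z * o * S + y ^ (2 * n) : ℕ) : ℤ) = ((x ^ (2 * n) : ℕ) : ℤ) := by
      rw [hS]
      push_cast
      rw [h1, pow_mul, pow_mul]; ring
    exact_mod_cast h3
  have h4' : 4 * (P * Q) = z * o * S := by omega
  have hSle : S ≤ n * c ^ (2 * n - 2) := by
    rw [hS]
    calc ∑ i ∈ range n, (x ^ 2) ^ i * (y ^ 2) ^ (n - 1 - i)
        ≤ ∑ i ∈ range n, c ^ (2 * n - 2) := by
          apply Finset.sum_le_sum
          intro i hi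
          rw [Finset.mem_range] at hi
          calc (x ^ 2) ^ i * (y ^ 2) ^ (n - 1 - i) ≤ (c ^ 2) ^ i * (c ^ 2) ^ (n - 1 - i) := by
                apply Nat.mul_le_mul
                · exact Nat.pow_le_pow_left (Nat.pow_le_pow_left hxc 2) _
                · exact Nat.pow_le_pow_left (Nat.pow_le_pow_left (by omega) 2) _
            _ = c ^ (2 * n - 2) := by
                rw [← pow_add, ← pow_mul]; congr 1; omega
      _ = n * c ^ (2 * n - 2) := by simp
  have hS0 : S ≠ 0 := by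
    intro h
    rw [h] at h4'
    have : 0 < 4 * (P * Q) := by positivity
    omega
  have ho0 : o ≠ 0 := by
    intro h
    rw [h] at h4'
    have : 0 < 4 * (P * Q) := by positivity
    simp at h4'
    omega
  refine ⟨P, Q, hPQ, by omega, hQ0, heq, hcop, ?_, ?_, ?_⟩
  · calc c ^ (2 * n) ≤ (2 * x) ^ (2 * n) := Nat.pow_le_pow_left hcx _
      _ = 4 ^ n * (x ^ n) ^ 2 := by rw [mul_pow, pow_mul 2 2 n, mul_comm 2 n, pow_mul]; norm_num
      _ ≤ 4 ^ n * (2 * P) ^ 2 := Nat.mul_le_mul_left _ (Nat.pow_le_pow_left (by omega) 2)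
      _ = _ := by ring
  · calc P ^ 2 ≤ (x ^ n) ^ 2 := Nat.pow_le_pow_left (by omega) 2
      _ = x ^ (2 * n) := by rw [← pow_mul, mul_comm]
      _ ≤ _ := Nat.pow_le_pow_left hxc _
  · -- radical
    have hxyz0 : x * y * z ≠ 0 := by
      have : 0 < x := by omega
      positivity
    have hprime : ∀ p : ℕ, p.Prime → p ∣ (x * y) ^ n * Q ^ 2 * P ^ 2 → p ∣ x * y * z * (o * S) := by
      intro p hp hd
      rcases (hp.dvd_mul).1 hd with h | h
      · rcases (hp.dvd_mul).1 h with h | h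
        · have := hp.dvd_of_dvd_pow h
          exact (this.mul_right z).mul_right _
        · have h1 := hp.dvd_of_dvd_pow h
          have h2 : p ∣ z * o * S := by rw [← h4']; exact (h1.mul_left P).mul_left 4
          have e : x * y * z * (o * S) = x * y * (z * o * S) := by ring
          rw [e]; exact h2.mul_left _
      · have h1 := hp.dvd_of_dvd_pow h
        have h2 : p ∣ z * o * S := by rw [← h4']; exact (h1.mul_right Q).mul_left 4
        have e : x * y * z * (o * S) = x * y * (z * o * S) := by ring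
        rw [e]; exact h2.mul_left _
    calc R ((x * y) ^ n * Q ^ 2 * P ^ 2) ≤ R (x * y * z * (o * S)) :=
          R_le_of_primes (mul_ne_zero hxyz0 (mul_ne_zero ho0 hS0)) hprime
      _ ≤ R (x * y * z) * R (o * S) := R_mul_le _ _ hxyz0 (mul_ne_zero ho0 hS0)
      _ ≤ R (x * y * z) * (o * S) := Nat.mul_le_mul_left _ (R_le (Nat.pos_of_ne_zero (mul_ne_zero ho0 hS0)))
      _ ≤ R (x * y * z) * ((2 * c) * (n * c ^ (2 * n - 2))) :=
          Nat.mul_le_mul_left _ (Nat.mul_le_mul ho hSle)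
      _ = _ := by
          have : 2 * n - 1 = (2 * n - 2) + 1 := by omega
          rw [this, pow_succ]; ring

/-- closeness to the cusp `b = 0` -/
theorem dih_close (n : ℕ) (x y P Q : ℕ) (hP : x ^ n = P + Q) (hQ : y ^ n + Q = P) (η : ℝ) (hη0 : 0 ≤ η)
    (hη1 : η ≤ 1) (h : (1 - η) * x ≤ y) : (Q : ℝ) ≤ n * η * P := by
  have hb : 1 - n * η ≤ (1 - η) ^ n := by
    have := one_add_mul_le_pow (show (-2 : ℝ) ≤ -η by linarith) n
    calc 1 - n * η = 1 + n * -η := by ring
      _ ≤ (1 + -η) ^ n := this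
      _ = _ := by ring
  have h1 : (1 - n * η) * (x : ℝ) ^ n ≤ (y : ℝ) ^ n := by
    calc (1 - n * η) * (x : ℝ) ^ n ≤ (1 - η) ^ n * (x : ℝ) ^ n :=
          mul_le_mul_of_nonneg_right hb (by positivity)
      _ = ((1 - η) * x) ^ n := by rw [mul_pow]
      _ ≤ _ := pow_le_pow_left₀ (mul_nonneg (by linarith) (Nat.cast_nonneg _)) h n
  have e1 : (x : ℝ) ^ n = P + Q := by exact_mod_cast hP
  have e2 : (y : ℝ) ^ n + Q = P := by exact_mod_cast hQ
  have hxP : (x : ℝ) ^ n ≤ 2 * P := by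
    rw [e1]
    have : (0 : ℝ) ≤ (y : ℝ) ^ n := by positivity
    linarith
  have h6 : n * η * (x : ℝ) ^ n ≤ n * η * (2 * P) := mul_le_mul_of_nonneg_left hxP (by positivity)
  linarith

end Pool.Agent.N746.Self
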