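import Mathlib
import Pool.Agent.N746.Self.Tools

/-!
# Self-similarity of the abc conjecture: a sparse family
-/

namespace Pool.Agent.N746.Self

open Finset Filter

/-- a map of degree 8 which moves all neighbourhoods of the cusps to the cusp `z = 0` -/
theorem to_cusp (N : ℕ) (x y z c : ℕ) (hx : Odd x) (hy : Odd y)
    (hxy : Nat.Coprime x y) (hy0 : 0 < y) (hyx : y < x) (hz : z = x + y ∨ z + y = x) (hz0 : 0 < z)
    (hxc : x ≤ c) (hcx : c ≤ 2 * x) (hN : 2 * N ∣ x * y * z) (η : ℝ) (hη0 : 0 < η) (hη1 : η ≤ 1)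
    (hcl : (y : ℝ) ≤ 2 * η * x ∨ (1 - η) * x ≤ y) :
    ∃ x₃ y₃ z₃ : ℕ, Odd x₃ ∧ Odd y₃ ∧ Nat.Coprime x₃ y₃ ∧ 0 < y₃ ∧ y₃ < x₃ ∧ z₃ + y₃ = x₃ ∧ 0 < z₃ ∧
      2 * N ∣ z₃ ∧ (1 - 64 * η ^ 2) * (x₃ : ℝ) ≤ y₃ ∧ c ^ 8 ≤ 4 ^ 6 * x₃ ∧ x₃ ≤ c ^ 8 ∧
      R (x₃ * y₃ * z₃) ≤ R (x * y * z) * (4 * c ^ 7) := by
  obtain ⟨P, Q, hPQ, hQP, hQ0, heq, hcop, hc1, hc2, hR⟩ := dih 2 (by norm_num) x y z c hx hy hxy hy0 hyx hz
    hz0 hxc hcx
  have hc0 : 0 < c := by omega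
  have hx0 : 0 < x := by omega
  have hy20 : 0 < y ^ 2 := by positivity
  -- parities
  obtain ⟨u, hu⟩ : ∃ u, x ^ 2 = 4 * u + 1 := by
    obtain ⟨k, hk⟩ := hx
    exact ⟨k ^ 2 + k, by rw [hk]; ring⟩
  obtain ⟨v, hv⟩ : ∃ v, y ^ 2 = 4 * v + 1 := by
    obtain ⟨k, hk⟩ := hy
    exact ⟨k ^ 2 + k, by rw [hk]; ring⟩
  have hPodd : Odd P := ⟨u + v, by omega⟩
  have hQeven : Even Q := ⟨u - v, by omega⟩
  have hxyodd : Odd (x * y) := hx.mul hy
  set A : ℕ := (x * y) ^ 2 with hA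
  set B : ℕ := Q ^ 2 with hB
  set C : ℕ := P ^ 2 with hC
  have hAodd : Odd A := hxyodd.pow
  have hBeven : Even B := hQeven.pow_of_ne_zero two_ne_zero
  have hCodd : Odd C := hPodd.pow
  have hA0 : 0 < A := by positivity
  have hB0 : 0 < B := by positivity
  have hC0 : 0 < C := by omega
  set W : ℕ := ((A : ℤ) - B).natAbs with hW
  have hWsq : 4 * A * B + W ^ 2 = C ^ 2 := by
    have : ((4 * A * B + W ^ 2 : ℕ) : ℤ) = ((C ^ 2 : ℕ) : ℤ) := by
      push_cast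
      rw [hW, Int.natCast_natAbs, sq_abs, ← heq]
      push_cast
      ring
    exact_mod_cast this
  have hWodd : Odd W := by
    rw [hW, Int.natAbs_odd]
    have h1 : Odd (A : ℤ) := by exact_mod_cast hAodd
    have h2 : Even (B : ℤ) := by exact_mod_cast hBeven
    exact h1.sub_even h2
  have hW0 : 0 < W := hWodd.pos
  have hWC : W ≤ C := by
    have : W ^ 2 ≤ C ^ 2 := by omega
    exact (Nat.pow_le_pow_iff_left two_ne_zero).1 this
  have hAC : Nat.Coprime A C := by rw [← heq]; simpa using hcop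
  have hBC : Nat.Coprime B C := by rw [← heq]; simpa using hcop.symm
  have h4C : Nat.Coprime 4 C := by
    rw [show 4 = 2 ^ 2 by norm_num]
    exact Nat.Coprime.pow_left 2 (Nat.coprime_two_left.2 hCodd)
  have hcop4 : Nat.Coprime (4 * A * B) (W ^ 2) := by
    have h1 : Nat.Coprime (4 * A * B) (C ^ 2) :=
      Nat.Coprime.pow_right 2 ((h4C.mul_left hAC).mul_left hBC)
    rw [← hWsq, Nat.coprime_self_add_right] at h1
    exact h1
  have hcop3 : Nat.Coprime (C ^ 2) (W ^ 2) := by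
    rw [← hWsq]
    exact Nat.coprime_add_self_left.2 hcop4
  have hAB0 : 0 < 4 * A * B := by positivity
  -- divisibility
  have hzQ : z ∣ 2 * Q := by
    have h1 : z ∣ x ^ 2 - y ^ 2 := by
      rcases hz with h | h
      · rw [Nat.sq_sub_sq, h]; exact Dvd.intro _ rfl
      · rw [Nat.sq_sub_sq]
        have : z = x - y := by omega
        rw [this]; exact Dvd.intro_left _ rfl
    have h2 : x ^ 2 - y ^ 2 = 2 * Q := by omega
    rwa [h2] at h1
  have hNAB : N ∣ A * B := by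
    have h1 : 2 * N ∣ 2 * (x * y * Q) := by
      have h2 : x * y * z ∣ x * y * (2 * Q) := mul_dvd_mul_left _ hzQ
      have e : 2 * (x * y * Q) = x * y * (2 * Q) := by ring
      rw [e]; exact hN.trans h2
    have h3 : N ∣ x * y * Q := Nat.dvd_of_mul_dvd_mul_left (by norm_num) h1
    have e : A * B = (x * y * Q) * (x * y * Q) := by rw [hA, hB]; ring
    rw [e]; exact h3.mul_left _
  refine ⟨C ^ 2, W ^ 2, 4 * A * B, hCodd.pow, hWodd.pow, hcop3, by positivity, by omega, hWsq, hAB0,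
    ?_, ?_, ?_, ?_, ?_⟩
  · obtain ⟨k, hk⟩ := hNAB
    exact ⟨2 * k, by rw [mul_assoc, hk]; ring⟩
  · -- closeness
    have e0 : ((4 * A * B : ℕ) : ℝ) + ((W ^ 2 : ℕ) : ℝ) = ((C ^ 2 : ℕ) : ℝ) := by
      exact_mod_cast hWsq
    have hAC' : (A : ℝ) ≤ C := by exact_mod_cast (show A ≤ C by omega)
    have hBC' : (B : ℝ) ≤ C := by exact_mod_cast (show B ≤ C by omega)
    have hA' : (0 : ℝ) ≤ A := Nat.cast_nonneg _
    have hB' : (0 : ℝ) ≤ B := Nat.cast_nonneg _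
    have hC' : (0 : ℝ) ≤ C := Nat.cast_nonneg _
    have key : (A : ℝ) * B ≤ 16 * η ^ 2 * (C : ℝ) ^ 2 := by
      rcases hcl with h | h
      · have h1 : (A : ℝ) ≤ 16 * η ^ 2 * C := by
          have hx4 : ((x : ℝ) ^ 2) ^ 2 ≤ 4 * C := by
            have : (x ^ 2) ^ 2 ≤ 4 * C := by
              calc (x ^ 2) ^ 2 ≤ (2 * P) ^ 2 := Nat.pow_le_pow_left (by omega) 2
                _ = 4 * C := by rw [hC]; ring
            exact_mod_cast this
          have h2 : (A : ℝ) ≤ 4 * η ^ 2 * ((x : ℝ) ^ 2) ^ 2 := by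
            rw [hA]
            push_cast
            calc ((x : ℝ) * y) ^ 2 ≤ (x * (2 * η * x)) ^ 2 :=
                  pow_le_pow_left₀ (by positivity) (mul_le_mul_of_nonneg_left h (Nat.cast_nonneg _)) 2
              _ = _ := by ring
          have h3 : 4 * η ^ 2 * ((x : ℝ) ^ 2) ^ 2 ≤ 4 * η ^ 2 * (4 * C) :=
            mul_le_mul_of_nonneg_left hx4 (by positivity)
          linarith
        calc (A : ℝ) * B ≤ (16 * η ^ 2 * C) * C := mul_le_mul h1 hBC' hB' (by positivity)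
          _ = _ := by ring
      · have h1 := dih_close 2 x y P Q hPQ hQP η hη0.le hη1 h
        have h2 : (B : ℝ) ≤ 16 * η ^ 2 * C := by
          rw [hB, hC]
          push_cast
          calc (Q : ℝ) ^ 2 ≤ ((2 : ℕ) * η * P) ^ 2 := pow_le_pow_left₀ (Nat.cast_nonneg _) h1 2
            _ = 4 * η ^ 2 * P ^ 2 := by push_cast; ring
            _ ≤ 16 * η ^ 2 * P ^ 2 := by
                have : 0 ≤ η ^ 2 * (P : ℝ) ^ 2 := by positivity
                linarith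
        calc (A : ℝ) * B ≤ C * (16 * η ^ 2 * C) := mul_le_mul hAC' h2 hB' hC'
          _ = _ := by ring
    have e1 : ((4 * A * B : ℕ) : ℝ) = 4 * (A * B) := by push_cast; ring
    have e2 : ((C ^ 2 : ℕ) : ℝ) = (C : ℝ) ^ 2 := by push_cast; ring
    rw [e1, e2] at e0
    rw [e2]
    linarith
  · calc c ^ 8 = (c ^ (2 * 2)) ^ 2 := by ring
      _ ≤ (4 ^ (2 + 1) * C) ^ 2 := Nat.pow_le_pow_left hc1 2
      _ = 4 ^ 6 * C ^ 2 := by ring
  · calc C ^ 2 ≤ (c ^ (2 * 2)) ^ 2 := Nat.pow_le_pow_left hc2 2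
      _ = c ^ 8 := by ring
  · -- radical
    have hABC0 : A * B * C ≠ 0 := by positivity
    have hprime : ∀ p : ℕ, p.Prime → p ∣ C ^ 2 * W ^ 2 * (4 * A * B) → p ∣ A * B * C * W := by
      intro p hp hd
      have h2B : 2 ∣ B := hBeven.two_dvd
      rcases (hp.dvd_mul).1 hd with h | h
      · rcases (hp.dvd_mul).1 h with h | h
        · exact ((hp.dvd_of_dvd_pow h).mul_left (A * B)).mul_right W
        · exact (hp.dvd_of_dvd_pow h).mul_left _
      · have h : p ∣ 2 * 2 * A * B := h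
        rcases (hp.dvd_mul).1 h with h | h
        · rcases (hp.dvd_mul).1 h with h | h
          · have h' : p ∣ 2 := by
              rcases (hp.dvd_mul).1 h with h | h <;> exact h
            exact (((h'.trans h2B).mul_left A).mul_right C).mul_right W
          · exact ((h.mul_right B).mul_right C).mul_right W
        · exact ((h.mul_left A).mul_right C).mul_right W
    calc R (C ^ 2 * W ^ 2 * (4 * A * B)) ≤ R (A * B * C * W) :=
          R_le_of_primes (mul_ne_zero hABC0 hW0.ne') hprime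
      _ ≤ R (A * B * C) * R W := R_mul_le _ _ hABC0 hW0.ne'
      _ ≤ R (A * B * C) * W := Nat.mul_le_mul_left _ (R_le hW0)
      _ ≤ (R (x * y * z) * (2 * 2 * c ^ (2 * 2 - 1))) * c ^ (2 * 2) :=
          Nat.mul_le_mul hR (hWC.trans hc2)
      _ = _ := by norm_num; ring

/-- the triples of the family up to `X` -/
theorem count (n N : ℕ) (hn : 1 ≤ n) (δ : ℝ) (Y : ℕ → ℝ) (X : ℝ) (hX : 1 ≤ X) :
    {t : ℕ × ℕ × ℕ | 0 < t.1 ∧ (t.2.2 : ℝ) ≤ X ∧ Dihedral n N δ Y t.1 t.2.1 t.2.2}.Finite ∧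
    ({t : ℕ × ℕ × ℕ | 0 < t.1 ∧ (t.2.2 : ℝ) ≤ X ∧ Dihedral n N δ Y t.1 t.2.1 t.2.2}.ncard : ℝ) ≤
      (4 * X) ^ (1 / (n : ℝ)) := by
  set Z : ℝ := (4 * X) ^ (1 / (2 * n : ℝ)) with hZ
  have hZ0 : 0 ≤ Z := by positivity
  set m : ℕ := ⌊Z⌋₊ with hm
  set f : ℕ × ℕ → ℕ × ℕ × ℕ := fun p => ((p.1 * p.2) ^ n, ((p.1 ^ n - p.2 ^ n) / 2) ^ 2,
    ((p.1 ^ n + p.2 ^ n) / 2) ^ 2) with hf
  have hsub : {t : ℕ × ℕ × ℕ | 0 < t.1 ∧ (t.2.2 : ℝ) ≤ X ∧ Dihedral n N δ Y t.1 t.2.1 t.2.2} ⊆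
      ((Finset.Icc 1 m ×ˢ Finset.Icc 1 m).image f : Finset (ℕ × ℕ × ℕ)) := by
    rintro ⟨a, b, c⟩ ⟨ha, hc, x, y, P, Q, h1, h2, h3, h4, h5, -⟩
    simp only at ha hc h3 h4 h5
    have hP : (x : ℝ) ^ n ≤ 2 * P := by
      have : x ^ n ≤ 2 * P := by omega
      exact_mod_cast this
    have hxy0 : 0 < x * y := by
      rcases Nat.eq_zero_or_pos (x * y) with h | h
      · rw [h, zero_pow (by omega)] at h3; omega
      · exact h
    have hx0 : 0 < x := Nat.pos_of_mul_pos_right hxy0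
    have hy0 : 0 < y := Nat.pos_of_mul_pos_left hxy0
    have hyx : y ≤ x := by
      have : y ^ n ≤ x ^ n := by omega
      exact (Nat.pow_le_pow_iff_left (by omega)).1 this
    have hxm : x ≤ m := by
      apply Nat.le_floor
      have h6 : (x : ℝ) ^ (2 * n) ≤ 4 * X := by
        calc (x : ℝ) ^ (2 * n) = ((x : ℝ) ^ n) ^ 2 := by rw [← pow_mul, mul_comm]
          _ ≤ (2 * P) ^ 2 := pow_le_pow_left₀ (by positivity) hP 2
          _ = 4 * ((P ^ 2 : ℕ) : ℝ) := by push_cast; ring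
          _ ≤ 4 * X := by rw [← h5]; linarith
      have hn0 : (0 : ℝ) < 2 * n := by
        have : (1 : ℝ) ≤ n := by exact_mod_cast hn
        linarith
      calc (x : ℝ) = ((x : ℝ) ^ (2 * n)) ^ (1 / (2 * n : ℝ)) := by
            rw [← Real.rpow_natCast, ← Real.rpow_mul (Nat.cast_nonneg _)]
            push_cast
            rw [mul_one_div, div_self hn0.ne', Real.rpow_one]
        _ ≤ Z := Real.rpow_le_rpow (by positivity) h6 (by positivity)
    rw [Finset.coe_image]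
    refine ⟨(x, y), ?_, ?_⟩
    · simp only [Finset.coe_product, Set.mem_prod, Finset.coe_Icc, Set.mem_Icc]
      omega
    · rw [hf]
      simp only
      have e1 : (x ^ n - y ^ n) / 2 = Q := by omega
      have e2 : (x ^ n + y ^ n) / 2 = P := by omega
      rw [e1, e2, h3, h4, h5]
  refine ⟨(Finset.finite_toSet _).subset hsub, ?_⟩
  have h1 := Set.ncard_le_ncard hsub (Finset.finite_toSet _)
  rw [Set.ncard_coe_finset] at h1
  have h2 : ((Finset.Icc 1 m ×ˢ Finset.Icc 1 m).image f).card ≤ m * m := by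
    refine Finset.card_image_le.trans ?_
    rw [Finset.card_product]; simp
  have h3 : (m : ℝ) ≤ Z := Nat.floor_le hZ0
  calc _ ≤ ((m * m : ℕ) : ℝ) := by exact_mod_cast h1.trans h2
    _ = (m : ℝ) * m := by push_cast; ring
    _ ≤ Z * Z := mul_le_mul h3 h3 (Nat.cast_nonneg _) hZ0
    _ = (4 * X) ^ (1 / (n : ℝ)) := by
        rw [hZ, ← Real.rpow_add (by linarith)]
        congr 1
        have : (n : ℝ) ≠ 0 := by positivity
        field_simp
        ring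

/-- the abc conjecture for a sparse set of triples is the abc conjecture -/
theorem family (n N r : ℕ) (hn : 1 ≤ n) (hN : 1 ≤ N) (δ : ℝ) (hδ : 0 < δ) (Y : ℕ → ℝ)
    (hY : ∀ i, 1 < Y i) (hYt : Tendsto Y atTop atTop) (hYr : ∀ i, Y (i + 1) ≤ (Y i) ^ r) :
    ABC (Dihedral n N δ Y) ↔ ABC fun _ _ _ => True := by
  refine ⟨fun hT => ?_, to_univ⟩
  have hn1 : (1 : ℝ) ≤ n := by exact_mod_cast hn
  set δ₁ : ℝ := min δ 1 with hδ₁
  have hδ0 : 0 < δ₁ := lt_min hδ one_pos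
  have hδ1 : δ₁ ≤ 1 := min_le_right _ _
  have hδδ : δ₁ ≤ δ := min_le_left _ _
  set η : ℝ := δ₁ / (64 * n) with hη
  have hη0 : 0 < η := by positivity
  have hηe : 64 * n * η = δ₁ := by rw [hη]; field_simp
  have hη1 : η < 1 / 8 := by nlinarith
  have hη2 : 64 * η ^ 2 ≤ 1 := by nlinarith
  have hη3 : n * (64 * η ^ 2) ≤ δ₁ := by
    have : n * (64 * η ^ 2) = (64 * n * η) * η := by ring
    rw [this, hηe]
    nlinarith
  obtain ⟨L, hL⟩ := exists_pow_lt_of_lt_one hη0 (show 1 - η < 1 by linarith)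
  have : NeZero (2 * N) := ⟨by omega⟩
  obtain ⟨m₀, hm₀, hidem⟩ := exists_pow_idem (2 * N)
  obtain ⟨A, hA⟩ : ∃ A : ℕ, 2 ≤ A * δ₁ := by
    obtain ⟨A, hA⟩ := exists_nat_ge (2 / δ₁)
    exact ⟨A, by rwa [div_le_iff₀ hδ0] at hA⟩
  have hA1 : 1 ≤ A := by
    rcases Nat.eq_zero_or_pos A with h | h
    · rw [h] at hA; norm_num at hA
    · exact h
  set B : ℕ := L * (r * A + 1) + A with hB
  have hBA : A ≤ B := by omega
  have hB' : 2 ≤ B * δ₁ := hA.trans (mul_le_mul_of_nonneg_right (by exact_mod_cast hBA) hδ0.le)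
  set J : ℕ := r * B + 1 with hJ
  set E : ℕ := 16 * n * (m₀ * J) with hE
  obtain ⟨C, hC⟩ := exists_nat_gt (Y 0)
  refine transfer (Dihedral n N δ Y) E (max (4 ^ (13 * n + 1)) E) (4 ^ (13 * n + 1) + C + 3)
    (le_trans (one_le_pow₀ (by norm_num)) (le_max_left _ _)) ?_ hT
  intro a b c ha hb hab habc hc
  have hc0 : 0 < c := by omega
  have hc3 : 3 ≤ c := le_trans (Nat.le_add_left _ _) hc
  have hcR : (0 : ℝ) < c := by exact_mod_cast hc0
  have haR : (0 : ℝ) < a := by exact_mod_cast ha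
  have hac : (a : ℝ) < c := by exact_mod_cast (show a < c by omega)
  have hcK : (4 : ℝ) ^ (13 * n + 1) + C + 3 ≤ c := by exact_mod_cast hc
  have h4pos : (1 : ℝ) ≤ 4 ^ (13 * n + 1) := one_le_pow₀ (by norm_num)
  have hCpos : (0 : ℝ) ≤ C := Nat.cast_nonneg _
  have hc1 : (1 : ℝ) ≤ c := by linarith
  set t : ℝ := (c : ℝ) ^ (16 * n * m₀) with ht
  have hct : (c : ℝ) ≤ t := by
    calc (c : ℝ) = (c : ℝ) ^ 1 := (pow_one _).symm
      _ ≤ t := pow_le_pow_right₀ hc1 (Nat.mul_pos (by omega) (Nat.pos_of_ne_zero hm₀))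
  have ht1 : 1 < t := by linarith
  -- the ratio
  set ρ : ℝ := (a : ℝ) / c with hρ
  have hρ0 : 0 < ρ := by positivity
  have hρ1 : ρ < 1 := by rw [hρ, div_lt_one hcR]; exact hac
  -- choice of the exponent
  obtain ⟨j, i, hj1, hjJ, hji1, hji2, hjρ⟩ : ∃ j i : ℕ, 1 ≤ j ∧ j ≤ J ∧
      Y i * 4 ^ (13 * n + 1) ≤ t ^ j ∧
      t ^ j ≤ (Y i) ^ (1 + δ₁) ∧ (ρ ^ (m₀ * j) ≤ η ∨ 1 - η ≤ ρ ^ (m₀ * j)) := by
    obtain ⟨j₁, i₁, h1, h2, h3, h4⟩ := window r A δ₁ hδ0 hA Y hY hYt hYr (4 ^ (13 * n + 1)) t h4pos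
      (by linarith) ht1 (by linarith)
    obtain ⟨j₂, i₂, g1, g2, g3, g4⟩ := window r B δ₁ hδ0 hB' Y hY hYt hYr (4 ^ (13 * n + 1)) t h4pos
      (by linarith) ht1 (by linarith)
    rcases le_or_gt (1 - η) (ρ ^ (m₀ * j₁)) with h | h
    · refine ⟨j₁, i₁, by omega, ?_, h3, h4, Or.inr h⟩
      have : r * A ≤ r * B := Nat.mul_le_mul_left _ hBA
      omega
    · refine ⟨j₂, i₂, by omega, g2, g3, g4, Or.inl ?_⟩
      have hle : (m₀ * j₁) * L ≤ m₀ * j₂ := by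
        have : j₁ * L ≤ j₂ := by
          calc j₁ * L ≤ (r * A + 1) * L := Nat.mul_le_mul_right _ h2
            _ = L * (r * A + 1) := by ring
            _ ≤ B := by omega
            _ ≤ j₂ := g1
        calc m₀ * j₁ * L = m₀ * (j₁ * L) := by ring
          _ ≤ _ := Nat.mul_le_mul_left _ this
      calc ρ ^ (m₀ * j₂) ≤ ρ ^ ((m₀ * j₁) * L) := pow_le_pow_of_le_one hρ0.le hρ1.le hle
        _ = (ρ ^ (m₀ * j₁)) ^ L := pow_mul _ _ _
        _ ≤ (1 - η) ^ L := pow_le_pow_left₀ (by positivity) h.le L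
        _ ≤ η := hL.le
  set m : ℕ := m₀ * j with hm
  have hm1 : 1 ≤ m := Nat.mul_pos (Nat.pos_of_ne_zero hm₀) hj1
  have hmJ : m ≤ m₀ * J := Nat.mul_le_mul_left _ hjJ
  have hlt : a ^ m < c ^ m := Nat.pow_lt_pow_left (by omega) (by omega)
  have ha1 : 0 < a ^ m := by positivity
  have hac' : Nat.Coprime a c := by rw [← habc]; simpa using hab
  have hcop : Nat.Coprime (a ^ m) (c ^ m - a ^ m) := by
    rw [Nat.coprime_sub_self_right hlt.le]
    exact hac'.pow m m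
  have hsum : a ^ m + (c ^ m - a ^ m) = c ^ m := by omega
  have hne : a ^ m ≠ c ^ m - a ^ m := by
    intro h
    rw [← h] at hcop
    rw [Nat.coprime_self] at hcop
    have h2 : c ^ m = 2 := by omega
    have h3 : c ^ 1 ≤ c ^ m := Nat.pow_le_pow_right hc0 hm1
    rw [pow_one] at h3
    omega
  have hclose : (min ((a ^ m : ℕ) : ℝ) ((c ^ m - a ^ m : ℕ) : ℝ)) ≤ η * ((c ^ m : ℕ) : ℝ) := by
    have e : ((c ^ m - a ^ m : ℕ) : ℝ) = (c : ℝ) ^ m - (a : ℝ) ^ m := by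
      rw [Nat.cast_sub hlt.le]; push_cast; ring
    have e2 : (a : ℝ) ^ m = ρ ^ m * (c : ℝ) ^ m := by rw [hρ, div_pow]; field_simp
    rw [e]
    push_cast
    rcases hjρ with h | h
    · refine (min_le_left _ _).trans ?_
      rw [e2]
      exact mul_le_mul_of_nonneg_right h (by positivity)
    · refine (min_le_right _ _).trans ?_
      rw [e2]
      have : 0 ≤ (c : ℝ) ^ m := by positivity
      nlinarith
  have hdvd : 2 * N ∣ a ^ m * (c ^ m - a ^ m) * c ^ m := dvd_of_idem (2 * N) m₀ hidem j a c (by omega)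
  obtain ⟨x, y, z, hx, hy, hxy, hy0, hyx, hz, hxyz, hxc, hcx, hcl⟩ :=
    odd_terms _ _ _ ha1 (by omega) hcop hsum hne η hη0.le hclose
  have hz0 : 0 < z := by omega
  obtain ⟨x₃, y₃, z₃, hx3, hy3, hxy3, hy30, hyx3, hz3, hz30, hN3, hcl3, hcx3, hxc3, hR3⟩ :=
    to_cusp N x y z (c ^ m) hx hy hxy hy0 hyx hz hz0 hxc hcx (by rw [hxyz]; exact hdvd) η hη0
      (by linarith) hcl
  obtain ⟨P, Q, hPQ, hQP, hQ, heq, hPQc, hP1, hP2, hPR⟩ := dih n hn x₃ y₃ z₃ x₃ hx3 hy3 hxy3 hy30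
    hyx3 (Or.inr hz3) hz30 le_rfl (by omega)
  have hP0 : 0 < P := by
    have : 0 < y₃ ^ n := by positivity
    omega
  have hxy0 : 0 < (x₃ * y₃) ^ n := by
    have : 0 < x₃ := by omega
    positivity
  -- sizes
  have hs1 : (c ^ m) ^ (16 * n) ≤ 4 ^ (13 * n + 1) * P ^ 2 := by
    calc (c ^ m) ^ (16 * n) = ((c ^ m) ^ 8) ^ (2 * n) := by
          rw [← pow_mul (c ^ m) 8, show 8 * (2 * n) = 16 * n by ring]
      _ ≤ (4 ^ 6 * x₃) ^ (2 * n) := Nat.pow_le_pow_left hcx3 _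
      _ = 4 ^ (12 * n) * x₃ ^ (2 * n) := by
          rw [mul_pow, ← pow_mul 4 6, show 6 * (2 * n) = 12 * n by ring]
      _ ≤ 4 ^ (12 * n) * (4 ^ (n + 1) * P ^ 2) := Nat.mul_le_mul_left _ hP1
      _ = 4 ^ (12 * n + (n + 1)) * P ^ 2 := by rw [pow_add 4 (12 * n) (n + 1)]; ring
      _ = _ := by rw [show 12 * n + (n + 1) = 13 * n + 1 by ring]
  have hs2 : P ^ 2 ≤ (c ^ m) ^ (16 * n) := by
    calc P ^ 2 ≤ x₃ ^ (2 * n) := hP2
      _ ≤ ((c ^ m) ^ 8) ^ (2 * n) := Nat.pow_le_pow_left hxc3 _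
      _ = _ := by rw [← pow_mul (c ^ m) 8, show 8 * (2 * n) = 16 * n by ring]
  have htj : t ^ j = (((c ^ m) ^ (16 * n) : ℕ) : ℝ) := by
    rw [ht, ← pow_mul]
    push_cast
    rw [← pow_mul]
    congr 1
    rw [hm]; ring
  have hNQ : N ∣ Q := by
    have h1 : z₃ ∣ x₃ ^ n - y₃ ^ n := by
      have : z₃ = x₃ - y₃ := by omega
      rw [this]; exact Nat.sub_dvd_pow_sub_pow _ _ _
    have h2 : x₃ ^ n - y₃ ^ n = 2 * Q := by omega
    rw [h2] at h1
    exact Nat.dvd_of_mul_dvd_mul_left (by norm_num) (hN3.trans h1)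
  have hcl4 := dih_close n x₃ y₃ P Q hPQ hQP (64 * η ^ 2) (by positivity) hη2 hcl3
  refine ⟨16 * n * m, (x₃ * y₃) ^ n, Q ^ 2, P ^ 2, ?_, ?_, hxy0, by positivity, hPQc, heq, ?_, ?_, ?_⟩
  · exact Nat.mul_pos (by omega) hm1
  · exact Nat.mul_le_mul_left _ hmJ
  · refine ⟨x₃, y₃, P, Q, hPQ.symm, hQP.symm, rfl, rfl, rfl, hNQ, ?_, i, ?_, ?_⟩
    · refine hcl4.trans (mul_le_mul_of_nonneg_right (hη3.trans hδδ) (Nat.cast_nonneg _))
    · have h1 : Y i * 4 ^ (13 * n + 1) ≤ ((P ^ 2 : ℕ) : ℝ) * 4 ^ (13 * n + 1) := by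
        calc Y i * 4 ^ (13 * n + 1) ≤ t ^ j := hji1
          _ = (((c ^ m) ^ (16 * n) : ℕ) : ℝ) := htj
          _ ≤ ((4 ^ (13 * n + 1) * P ^ 2 : ℕ) : ℝ) := by exact_mod_cast hs1
          _ = _ := by push_cast; ring
      exact le_of_mul_le_mul_right h1 (by positivity)
    · calc ((P ^ 2 : ℕ) : ℝ) ≤ (((c ^ m) ^ (16 * n) : ℕ) : ℝ) := by exact_mod_cast hs2
        _ = t ^ j := htj.symm
        _ ≤ (Y i) ^ (1 + δ₁) := hji2
        _ ≤ (Y i) ^ (1 + δ) := Real.rpow_le_rpow_of_exponent_le (hY i).le (by linarith)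
  · calc (c : ℝ) ^ (16 * n * m) = (((c ^ m) ^ (16 * n) : ℕ) : ℝ) := by
          push_cast; rw [← pow_mul]; congr 1; ring
      _ ≤ ((4 ^ (13 * n + 1) * P ^ 2 : ℕ) : ℝ) := by exact_mod_cast hs1
      _ = (4 : ℝ) ^ (13 * n + 1) * ((P ^ 2 : ℕ) : ℝ) := by push_cast; ring
      _ ≤ _ := mul_le_mul_of_nonneg_right (le_max_left _ _) (Nat.cast_nonneg _)
  · have hpm := power_map m hm1 a b c ha hb habc
    have h1 : R ((x₃ * y₃) ^ n * Q ^ 2 * P ^ 2) ≤
        R (a * b * c) * (8 * n * m * c ^ (16 * n * m - 1)) := by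
      calc R ((x₃ * y₃) ^ n * Q ^ 2 * P ^ 2) ≤ R (x₃ * y₃ * z₃) * (2 * n * x₃ ^ (2 * n - 1)) := hPR
        _ ≤ (R (x * y * z) * (4 * (c ^ m) ^ 7)) * (2 * n * ((c ^ m) ^ 8) ^ (2 * n - 1)) :=
            Nat.mul_le_mul hR3 (Nat.mul_le_mul_left _ (Nat.pow_le_pow_left hxc3 _))
        _ = (R (a ^ m * (c ^ m - a ^ m) * c ^ m) * (4 * (c ^ m) ^ 7)) *
            (2 * n * ((c ^ m) ^ 8) ^ (2 * n - 1)) := by rw [hxyz]
        _ ≤ ((R (a * b * c) * (m * c ^ (m - 1))) * (4 * (c ^ m) ^ 7)) *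
            (2 * n * ((c ^ m) ^ 8) ^ (2 * n - 1)) :=
            Nat.mul_le_mul_right _ (Nat.mul_le_mul_right _ hpm)
        _ = R (a * b * c) * (8 * n * m * (c ^ (m - 1) * (c ^ m) ^ 7 * ((c ^ m) ^ 8) ^ (2 * n - 1))) := by
            ring
        _ = _ := by
            rw [← pow_mul, ← pow_mul, ← pow_mul, ← pow_add, ← pow_add]
            congr 3
            obtain ⟨k, hk⟩ : ∃ k, 2 * n = k + 1 := ⟨2 * n - 1, by omega⟩
            have e1 : 2 * n - 1 = k := by omega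
            have e2 : 16 * n * m = m * 8 * k + 8 * m := by
              calc 16 * n * m = 8 * (2 * n) * m := by ring
                _ = _ := by rw [hk]; ring
            have e3 : m * (8 * k) = m * 8 * k := by ring
            rw [e1, e2]
            omega
    calc (R ((x₃ * y₃) ^ n * Q ^ 2 * P ^ 2) : ℝ)
        ≤ ((R (a * b * c) * (8 * n * m * c ^ (16 * n * m - 1)) : ℕ) : ℝ) := by exact_mod_cast h1
      _ = ((8 * n * m : ℕ) : ℝ) * R (a * b * c) * (c : ℝ) ^ (16 * n * m - 1) := by push_cast; ring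
      _ ≤ _ := by
          apply mul_le_mul_of_nonneg_right _ (by positivity)
          apply mul_le_mul_of_nonneg_right _ (Nat.cast_nonneg _)
          refine le_trans ?_ (le_max_right _ _)
          have : 8 * n * m ≤ E := by
            rw [hE]
            exact Nat.mul_le_mul (by omega) hmJ
          exact_mod_cast this

end Pool.Agent.N746.Self
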