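import Mathlib
import Pool.Agent.N746.Self.Tools

/-!
# Amplification of failures of the abc inequality: words in `x ↦ 1 - x ^ m`
-/

namespace Pool.Agent.N746.Self

open Finset Polynomial

/-- the polynomial of a word: the composition of the maps `x ↦ 1 - x ^ m`, the head first -/
noncomputable def wp : List ℕ → ℚ[X]
  | [] => X
  | m :: w => (wp w).comp (1 - X ^ m)

theorem one_sub_natDegree (m : ℕ) (hm : 1 ≤ m) : (1 - X ^ m : ℚ[X]).natDegree = m := by
  rw [natDegree_sub_eq_right_of_natDegree_lt]
  · simp
  · simp; omega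

theorem wp_natDegree (w : List ℕ) (hw : ∀ m ∈ w, 1 ≤ m) : (wp w).natDegree = w.prod := by
  induction w with
  | nil => simp [wp]
  | cons m w ih =>
    have hm : 1 ≤ m := hw m (by simp)
    rw [wp, natDegree_comp, ih (fun k hk => hw k (by simp [hk])), List.prod_cons,
      one_sub_natDegree m hm]
    ring

theorem wp_expand (m : ℕ) (w : List ℕ) :
    wp (m :: w) = expand ℚ m ((wp w).comp (1 - X)) := by
  rw [expand_eq_comp_X_pow, comp_assoc, wp]
  simp

theorem coeff_comp_ne (F : ℚ[X]) (E : ℕ) (hE : 1 ≤ E) (hF : F.natDegree = E) (h : F.coeff (E - 1) = 0) :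
    (F.comp (1 - X)).coeff (E - 1) ≠ 0 := by
  have hlead : F.coeff E ≠ 0 := by
    rw [← hF]
    intro h0
    have : F = 0 := leadingCoeff_eq_zero.1 h0
    rw [this] at hF
    simp at hF
    omega
  rw [comp, eval₂_eq_sum_range, finsetSum_coeff, hF, Finset.sum_range_succ]
  have hpow : (1 - X : ℚ[X]) = -(X + C (-1)) := by rw [C_neg, C_1]; ring
  have h1 : ∑ i ∈ range E, (C (F.coeff i) * (1 - X) ^ i).coeff (E - 1) = 0 := by
    apply Finset.sum_eq_zero
    intro i hi
    rw [Finset.mem_range] at hi
    rw [coeff_C_mul]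
    rcases Nat.lt_or_ge i (E - 1) with hlt | hge
    · have : ((1 - X : ℚ[X]) ^ i).natDegree < E - 1 := by
        refine lt_of_le_of_lt natDegree_pow_le ?_
        have : (1 - X : ℚ[X]).natDegree = 1 := by
          have := one_sub_natDegree 1 le_rfl
          rwa [pow_one] at this
        rw [this]; omega
      rw [coeff_eq_zero_of_natDegree_lt this, mul_zero]
    · have : i = E - 1 := by omega
      rw [this, h, zero_mul]
  rw [h1, zero_add, coeff_C_mul]
  apply mul_ne_zero hlead
  rw [hpow, neg_pow]
  have e : ((-1 : ℚ[X]) ^ E) = C ((-1 : ℚ) ^ E) := by simp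
  rw [e, coeff_C_mul, coeff_X_add_C_pow]
  apply mul_ne_zero (pow_ne_zero _ (by norm_num))
  apply mul_ne_zero (pow_ne_zero _ (by norm_num))
  have : E.choose (E - 1) = E := by
    obtain ⟨k, rfl⟩ : ∃ k, E = k + 1 := ⟨E - 1, by omega⟩
    simp
  rw [this]
  exact_mod_cast (by omega : E ≠ 0)

theorem prod_pos' (w : List ℕ) (hw : ∀ m ∈ w, 2 ≤ m) : 1 ≤ w.prod := by
  apply Nat.pos_of_ne_zero
  intro h
  have := List.prod_eq_zero_iff.1 h
  have := hw 0 this
  omega

theorem second (w : List ℕ) (hw : ∀ m ∈ w, 2 ≤ m) : ((wp w).comp (1 - X)).coeff (w.prod - 1) ≠ 0 := by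
  cases w with
  | nil => simp [wp]
  | cons m w =>
    have hm : 2 ≤ m := hw m (by simp)
    have hw' : ∀ k ∈ w, 2 ≤ k := fun k hk => hw k (by simp [hk])
    apply coeff_comp_ne _ _ (prod_pos' _ hw)
    · exact wp_natDegree _ fun k hk => by have := hw k hk; omega
    · rw [wp_expand, coeff_expand (by omega), if_neg]
      intro hd
      have h1 : m ∣ (m :: w).prod := by rw [List.prod_cons]; exact Dvd.intro _ rfl
      have h2 := prod_pos' _ hw
      have h3 : m ∣ 1 := by
        have := Nat.dvd_sub h1 hd
        rwa [show (m :: w).prod - ((m :: w).prod - 1) = 1 by omega] at this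
      have := Nat.le_of_dvd one_pos h3
      omega

/-- different words have different polynomials -/
theorem wp_inj (w : List ℕ) : ∀ w' : List ℕ, (∀ m ∈ w, 2 ≤ m) → (∀ m ∈ w', 2 ≤ m) → wp w = wp w' → w = w' := by
  induction w with
  | nil =>
    intro w' _ hw' h
    cases w' with
    | nil => rfl
    | cons n w' =>
      exfalso
      have h1 := congrArg natDegree h
      rw [wp_natDegree _ (by simp), wp_natDegree _ (fun k hk => by have := hw' k hk; omega),
        List.prod_nil, List.prod_cons] at h1
      have hn : 2 ≤ n := hw' n (by simp)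
      have := prod_pos' w' fun k hk => hw' k (by simp [hk])
      nlinarith
  | cons m w ih =>
    intro w' hw hw' h
    have hm : 2 ≤ m := hw m (by simp)
    have hww : ∀ k ∈ w, 2 ≤ k := fun k hk => hw k (by simp [hk])
    cases w' with
    | nil =>
      exfalso
      have h1 := congrArg natDegree h
      rw [wp_natDegree _ (fun k hk => by have := hw k hk; omega), wp_natDegree [] (by simp),
        List.prod_nil, List.prod_cons] at h1
      have := prod_pos' w hww
      nlinarith
    | cons n w' =>
      have hn : 2 ≤ n := hw' n (by simp)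
      have hww' : ∀ k ∈ w', 2 ≤ k := fun k hk => hw' k (by simp [hk])
      -- a general statement
      have key : ∀ (m n : ℕ) (w w' : List ℕ), 2 ≤ m → 2 ≤ n → (∀ k ∈ w, 2 ≤ k) → (∀ k ∈ w', 2 ≤ k) →
          wp (m :: w) = wp (n :: w') → ¬ m < n := by
        intro m n w w' hm hn hw hw' h hlt
        have hd := congrArg natDegree h
        rw [wp_natDegree _ (fun k hk => by
            rcases List.mem_cons.1 hk with rfl | hk
            · omega
            · have := hw k hk; omega), wp_natDegree _ (fun k hk => by
            rcases List.mem_cons.1 hk with rfl | hk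
            · omega
            · have := hw' k hk; omega), List.prod_cons, List.prod_cons] at hd
        have h1 : (wp (m :: w)).coeff (m * (w.prod - 1)) = (wp (n :: w')).coeff (m * (w.prod - 1)) := by
          rw [h]
        rw [wp_expand, wp_expand, coeff_expand (by omega), coeff_expand (by omega),
          if_pos (Dvd.intro _ rfl), Nat.mul_div_cancel_left _ (by omega), if_neg] at h1
        · exact second w hw h1
        · intro hdvd
          have hp := prod_pos' w hw
          have e : m * w.prod - m * (w.prod - 1) = m := by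
            rw [← Nat.mul_sub]
            rw [show w.prod - (w.prod - 1) = 1 by omega, mul_one]
          have h2 : n ∣ m := by
            have := Nat.dvd_sub (show n ∣ m * w.prod by rw [hd]; exact Dvd.intro _ rfl) hdvd
            rwa [e] at this
          have := Nat.le_of_dvd (by omega) h2
          omega
      have hmn : m = n := by
        rcases Nat.lt_trichotomy m n with hlt | heq | hgt
        · exact absurd hlt (key m n w w' hm hn hww hww' h)
        · exact heq
        · exact absurd hgt (key n m w' w hn hm hww' hww h.symm)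
      subst hmn
      congr 1
      apply ih w' hww hww'
      rw [wp, wp] at h
      have h2 : (wp w - wp w').comp (1 - X ^ m) = 0 := by rw [sub_comp, h, sub_self]
      rw [comp_eq_zero_iff] at h2
      rcases h2 with h2 | ⟨-, h2⟩
      · exact sub_eq_zero.1 h2
      · exfalso
        have h3 := congrArg natDegree h2
        rw [one_sub_natDegree m (by omega), natDegree_C] at h3
        omega

/-- the action on pairs `(a, c)` -/
def run : List ℕ → ℕ × ℕ → ℕ × ℕ
  | [], p => p
  | m :: w, p => run w (p.2 ^ m - p.1 ^ m, p.2 ^ m)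

theorem run_spec (w : List ℕ) (hw : ∀ m ∈ w, 1 ≤ m) : ∀ a c : ℕ, 0 < a → a < c → Nat.Coprime a c →
    0 < (run w (a, c)).1 ∧ (run w (a, c)).1 < (run w (a, c)).2 ∧
    Nat.Coprime (run w (a, c)).1 (run w (a, c)).2 ∧ (run w (a, c)).2 = c ^ w.prod ∧
    R ((run w (a, c)).1 * ((run w (a, c)).2 - (run w (a, c)).1) * (run w (a, c)).2) ≤
      R (a * (c - a) * c) * (w.prod * c ^ (w.prod - 1)) ∧
    ((run w (a, c)).1 : ℚ) = (run w (a, c)).2 * (wp w).eval ((a : ℚ) / c) := by
  induction w with
  | nil =>
    intro a c ha hac hcop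
    have hc : (c : ℚ) ≠ 0 := by exact_mod_cast (by omega : c ≠ 0)
    refine ⟨ha, hac, hcop, by simp [run], by simp [run], ?_⟩
    simp only [run, wp, eval_X]
    field_simp
  | cons m w ih =>
    intro a c ha hac hcop
    have hm : 1 ≤ m := hw m (by simp)
    have hw' : ∀ k ∈ w, 1 ≤ k := fun k hk => hw k (by simp [hk])
    have hlt : a ^ m < c ^ m := Nat.pow_lt_pow_left hac (by omega)
    have ham : 0 < a ^ m := by positivity
    have hc0 : 0 < c := by omega
    have hcop' : Nat.Coprime (c ^ m - a ^ m) (c ^ m) := by
      have h1 : Nat.Coprime (a ^ m) (c ^ m - a ^ m) := by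
        rw [Nat.coprime_sub_self_right hlt.le]
        exact hcop.pow m m
      have h2 : Nat.Coprime (a ^ m + (c ^ m - a ^ m)) (c ^ m - a ^ m) := Nat.coprime_add_self_left.2 h1
      rw [Nat.add_sub_cancel' hlt.le] at h2
      exact h2.symm
    obtain ⟨h1, h2, h3, h4, h5, h6⟩ := ih hw' (c ^ m - a ^ m) (c ^ m) (by omega) (by omega) hcop'
    have hp : 1 ≤ w.prod := by
      apply Nat.pos_of_ne_zero
      intro h
      have := hw' 0 (List.prod_eq_zero_iff.1 h)
      omega
    refine ⟨h1, h2, h3, ?_, ?_, ?_⟩
    · rw [run]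
      simp only
      rw [h4, List.prod_cons, pow_mul]
    · rw [run]
      simp only
      refine h5.trans ?_
      have hpm := power_map m hm a (c - a) c ha (by omega) (by omega)
      have e1 : c ^ m - (c ^ m - a ^ m) = a ^ m := by omega
      have e2 : (c ^ m - a ^ m) * (c ^ m - (c ^ m - a ^ m)) * c ^ m = a ^ m * (c ^ m - a ^ m) * c ^ m := by
        rw [e1]; ring
      rw [e2]
      calc R (a ^ m * (c ^ m - a ^ m) * c ^ m) * (w.prod * (c ^ m) ^ (w.prod - 1))
          ≤ (R (a * (c - a) * c) * (m * c ^ (m - 1))) * (w.prod * (c ^ m) ^ (w.prod - 1)) :=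
            Nat.mul_le_mul_right _ hpm
        _ = R (a * (c - a) * c) * (m * w.prod * (c ^ (m - 1) * (c ^ m) ^ (w.prod - 1))) := by ring
        _ = _ := by
            rw [List.prod_cons, ← pow_mul, ← pow_add]
            congr 3
            obtain ⟨k, hk⟩ : ∃ k, w.prod = k + 1 := ⟨w.prod - 1, by omega⟩
            rw [hk, show k + 1 - 1 = k by omega, Nat.mul_succ]
            omega
    · rw [run]
      simp only
      rw [h6]
      congr 1
      rw [wp, eval_comp]
      congr 1
      have hcm : (c : ℚ) ^ m ≠ 0 := pow_ne_zero _ (by exact_mod_cast (by omega : c ≠ 0))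
      rw [Nat.cast_sub hlt.le]
      push_cast
      simp only [eval_sub, eval_one, eval_pow, eval_X]
      rw [div_pow]
      field_simp

end Pool.Agent.N746.Self
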