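import Mathlib
import Pool.Agent.N746.Self.Defs

/-!
# Exceptional representations `c = a + (c - a)`
-/

namespace Pool.Agent.N746.Self

/-- the `a` such that `(a, c - a, c)` is a coprime triple with `c > R (a (c - a) c) ^ (1 + ε)` -/
def bad (ε : ℝ) (c : ℕ) : Set ℕ :=
  {a | 0 < a ∧ a < c ∧ Nat.Coprime a c ∧ (R (a * (c - a) * c) : ℝ) ^ (1 + ε) < c}

end Pool.Agent.N746.Self
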