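import Mathlib
import Pool.Agent.N746.Self.Defs2
import Pool.Agent.N746.Self.Words

/-!
# Amplification of failures of the abc inequality
-/

namespace Pool.Agent.N746.Self

open Finset Polynomial Filter

theorem few_products (M k : ℕ) :
    ((Fintype.piFinset fun _ : Fin k => Icc 2 M).image fun f => ∏ i, f i).card ≤ (k + 1) ^ (M + 1) := by
  classical
  have hsub : ((Fintype.piFinset fun _ : Fin k => Icc 2 M).image fun f => ∏ i, f i) ⊆
      (Finset.univ : Finset (Fin (M + 1) → Fin (k + 1))).image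
        fun g => ∏ m : Fin (M + 1), (m : ℕ) ^ (g m : ℕ) := by
    intro D hD
    rw [Finset.mem_image] at hD ⊢
    obtain ⟨f, hf, rfl⟩ := hD
    rw [Fintype.mem_piFinset] at hf
    have hf' : ∀ i, f i < M + 1 := fun i => by
      have := Finset.mem_Icc.1 (hf i)
      omega
    refine ⟨fun m => ⟨(Finset.univ.filter fun i => f i = (m : ℕ)).card, ?_⟩, Finset.mem_univ _, ?_⟩
    · have := Finset.card_filter_le (Finset.univ : Finset (Fin k)) fun i => f i = (m : ℕ)
      rw [Finset.card_univ, Fintype.card_fin] at this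
      omega
    · simp only
      rw [← Finset.prod_fiberwise (Finset.univ : Finset (Fin k)) (fun i => (⟨f i, hf' i⟩ : Fin (M + 1)))
        (fun i => f i)]
      refine Finset.prod_congr rfl fun m _ => ?_
      rw [Finset.prod_congr rfl (g := fun _ => (m : ℕ)), Finset.prod_const]
      · congr 2
        ext i
        simp [Fin.ext_iff]
      · intro i hi
        rw [Finset.mem_filter] at hi
        rw [← hi.2]
  refine (Finset.card_le_card hsub).trans (Finset.card_image_le.trans ?_)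
  rw [Finset.card_univ]
  simp

/-- many words with the same length and the same product -/
theorem exists_words (s : ℝ) (M : ℕ) (hs : 1 < ∑ m ∈ Icc 2 M, (m : ℝ) ^ (-s)) :
    ∃ (k D : ℕ) (W : Finset (List ℕ)), (∀ w ∈ W, w.length = k ∧ (∀ m ∈ w, 2 ≤ m) ∧ w.prod = D) ∧
      2 ≤ D ∧ (D : ℝ) ^ s < W.card := by
  classical
  set S : ℝ := ∑ m ∈ Icc 2 M, (m : ℝ) ^ (-s) with hS
  -- choice of `k`
  obtain ⟨k, hk1, hk⟩ : ∃ k : ℕ, 1 ≤ k ∧ ((k : ℝ) + 1) ^ (M + 1) < S ^ k := by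
    have h1 := tendsto_pow_const_div_const_pow_of_one_lt (M + 1) hs
    have hS0 : 0 < 1 / S := by positivity
    have h2 := (h1.eventually (gt_mem_nhds hS0)).and (eventually_ge_atTop 2)
    obtain ⟨n, hn, hn2⟩ := h2.exists
    refine ⟨n - 1, by omega, ?_⟩
    obtain ⟨j, rfl⟩ : ∃ j, n = j + 1 := ⟨n - 1, by omega⟩
    have hSpos : 0 < S := by linarith
    rw [show j + 1 - 1 = j by omega]
    rw [div_lt_div_iff₀ (by positivity) hSpos, pow_succ S j] at hn
    push_cast at hn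
    have := lt_of_mul_lt_mul_right (a := S) (by linarith : ((j : ℝ) + 1) ^ (M + 1) * S < S ^ j * S) hSpos.le
    exact this
  by_contra hcon
  push Not at hcon
  set T : Finset (Fin k → ℕ) := Fintype.piFinset fun _ : Fin k => Icc 2 M with hT
  have hmem : ∀ f ∈ T, ∀ i, 2 ≤ f i := fun f hf i =>
    (Finset.mem_Icc.1 (Fintype.mem_piFinset.1 hf i)).1
  have h1 : S ^ k = ∑ f ∈ T, ((∏ i, f i : ℕ) : ℝ) ^ (-s) := by
    have h2 := Finset.prod_univ_sum (fun _ : Fin k => Icc 2 M) (fun _ m => (m : ℝ) ^ (-s))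
    rw [Finset.prod_const, Finset.card_univ, Fintype.card_fin] at h2
    rw [hS, h2]
    refine Finset.sum_congr rfl fun f _ => ?_
    push_cast
    rw [← Real.finsetProd_rpow _ _ (fun i _ => Nat.cast_nonneg _)]
  have h3 : ∑ f ∈ T, ((∏ i, f i : ℕ) : ℝ) ^ (-s) =
      ∑ D ∈ T.image (fun f => ∏ i, f i), ∑ f ∈ T with ∏ i, f i = D, ((∏ i, f i : ℕ) : ℝ) ^ (-s) :=
    (Finset.sum_fiberwise_of_maps_to (fun f hf => Finset.mem_image_of_mem _ hf) _).symm
  have h4 : ∀ D ∈ T.image (fun f => ∏ i, f i),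
      ∑ f ∈ T with ∏ i, f i = D, ((∏ i, f i : ℕ) : ℝ) ^ (-s) ≤ 1 := by
    intro D hD
    obtain ⟨f₀, hf₀, hf₀D⟩ := Finset.mem_image.1 hD
    have hD2 : 2 ≤ D := by
      rw [← hf₀D]
      have h0 : (0 : ℕ) < k := by omega
      have h5 : f₀ ⟨0, h0⟩ ∣ ∏ i, f₀ i := Finset.dvd_prod_of_mem _ (Finset.mem_univ _)
      have h6 : 0 < ∏ i, f₀ i := Finset.prod_pos fun i _ => by have := hmem f₀ hf₀ i; omega
      exact (hmem f₀ hf₀ _).trans (Nat.le_of_dvd h6 h5)
    have hD0 : (0 : ℝ) < D := by exact_mod_cast (by omega : 0 < D)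
    have h5 : ∑ f ∈ T with ∏ i, f i = D, ((∏ i, f i : ℕ) : ℝ) ^ (-s) =
        ((T.filter fun f => ∏ i, f i = D).card : ℝ) * (D : ℝ) ^ (-s) := by
      rw [Finset.sum_congr rfl (g := fun _ => (D : ℝ) ^ (-s)), Finset.sum_const, nsmul_eq_mul]
      intro f hf
      rw [(Finset.mem_filter.1 hf).2]
    rw [h5]
    have h6 := hcon k D ((T.filter fun f => ∏ i, f i = D).image List.ofFn) (by
      intro w hw
      obtain ⟨f, hf, rfl⟩ := Finset.mem_image.1 hw
      rw [Finset.mem_filter] at hf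
      refine ⟨List.length_ofFn, ?_, by rw [List.prod_ofFn]; exact hf.2⟩
      intro m hm
      rw [List.mem_ofFn] at hm
      obtain ⟨i, rfl⟩ := hm
      exact hmem f hf.1 i) hD2
    rw [Finset.card_image_of_injective _ List.ofFn_injective] at h6
    calc ((T.filter fun f => ∏ i, f i = D).card : ℝ) * (D : ℝ) ^ (-s)
        ≤ (D : ℝ) ^ s * (D : ℝ) ^ (-s) := mul_le_mul_of_nonneg_right h6 (by positivity)
      _ = 1 := by rw [← Real.rpow_add hD0]; simp
  have h7 : S ^ k ≤ ((k : ℝ) + 1) ^ (M + 1) := by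
    rw [h1, h3]
    calc _ ≤ ∑ D ∈ T.image (fun f => ∏ i, f i), (1 : ℝ) := Finset.sum_le_sum h4
      _ = ((T.image fun f => ∏ i, f i).card : ℝ) := by simp
      _ ≤ (((k + 1) ^ (M + 1) : ℕ) : ℝ) := by exact_mod_cast few_products M k
      _ = _ := by push_cast; ring
  linarith

theorem words_pow (k D : ℕ) (W : Finset (List ℕ))
    (hW : ∀ w ∈ W, w.length = k ∧ (∀ m ∈ w, 2 ≤ m) ∧ w.prod = D) (j : ℕ) :
    ∃ V : Finset (List ℕ), (∀ w ∈ V, (∀ m ∈ w, 2 ≤ m) ∧ w.prod = D ^ j) ∧ V.card = W.card ^ j := by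
  classical
  induction j with
  | zero => exact ⟨{[]}, by simp, by simp⟩
  | succ j ih =>
    obtain ⟨V, hV, hc⟩ := ih
    refine ⟨Finset.image₂ (fun u v => u ++ v) W V, ?_, ?_⟩
    · intro w hw
      obtain ⟨u, hu, v, hv, rfl⟩ := Finset.mem_image₂.1 hw
      refine ⟨?_, ?_⟩
      · intro m hm
        rcases List.mem_append.1 hm with h | h
        · exact (hW u hu).2.1 m h
        · exact (hV v hv).1 m h
      · rw [List.prod_append, (hW u hu).2.2, (hV v hv).2, pow_succ']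
    · rw [Finset.card_image₂_iff.2, hc, pow_succ']
      rintro ⟨u, v⟩ ⟨hu, hv⟩ ⟨u', v'⟩ ⟨hu', hv'⟩ h
      have hl : u.length = u'.length := by
        rw [(hW u hu).1, (hW u' hu').1]
      obtain ⟨h1, h2⟩ := List.append_inj h hl
      exact Prod.ext h1 h2

theorem bad_finite (ε : ℝ) (c : ℕ) : (bad ε c).Finite :=
  (Set.finite_lt_nat c).subset fun _ ha => ha.2.1

theorem eventually_empty (h : ABC fun _ _ _ => True) (ε : ℝ) (hε : 0 < ε) :
    ∃ B : ℕ, ∀ c : ℕ, B < c → bad ε c = ∅ := by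
  obtain ⟨κ, hκ⟩ := h (ε / 2) (by positivity)
  set K : ℝ := max κ 1 with hK
  have hK1 : 1 ≤ K := le_max_right _ _
  obtain ⟨B, hB⟩ := exists_nat_ge (K * (K ^ (2 / ε)) ^ (1 + ε / 2))
  refine ⟨B, fun c hc => ?_⟩
  rw [Set.eq_empty_iff_forall_notMem]
  rintro a ⟨ha, hac, hcop, hlt⟩
  have hcop' : Nat.Coprime a (c - a) := by
    rw [Nat.coprime_sub_self_right hac.le]
    exact hcop
  have h1 := hκ a (c - a) c ha (by omega) hcop' (by omega) trivial
  set ρ : ℝ := (R (a * (c - a) * c) : ℝ) with hρ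
  have hρ1 : 1 ≤ ρ := by rw [hρ]; exact_mod_cast R_pos _
  have hρ0 : 0 < ρ := by linarith
  have h2 : (c : ℝ) ≤ K * ρ ^ (1 + ε / 2) :=
    h1.trans (mul_le_mul_of_nonneg_right (le_max_left _ _) (by positivity))
  have h3 : ρ ^ (ε / 2) < K := by
    have h4 : ρ ^ (1 + ε / 2) * ρ ^ (ε / 2) < ρ ^ (1 + ε / 2) * K := by
      rw [← Real.rpow_add hρ0, show 1 + ε / 2 + ε / 2 = 1 + ε by ring]
      linarith
    exact lt_of_mul_lt_mul_left h4 (by positivity)
  have h5 : ρ ≤ K ^ (2 / ε) := by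
    calc ρ = (ρ ^ (ε / 2)) ^ (2 / ε) := by
          rw [← Real.rpow_mul hρ0.le, show ε / 2 * (2 / ε) = 1 by field_simp, Real.rpow_one]
      _ ≤ K ^ (2 / ε) := Real.rpow_le_rpow (by positivity) h3.le (by positivity)
  have h6 : (c : ℝ) ≤ B := by
    calc (c : ℝ) ≤ K * ρ ^ (1 + ε / 2) := h2
      _ ≤ K * (K ^ (2 / ε)) ^ (1 + ε / 2) :=
          mul_le_mul_of_nonneg_left (Real.rpow_le_rpow hρ0.le h5 (by positivity)) (by linarith)
      _ ≤ B := hB
  have : c ≤ B := by exact_mod_cast h6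
  omega

/-- one exception of large height produces many exceptions of the same height -/
theorem amplify (ε₀ : ℝ) (hε₀ : 0 < ε₀)
    (hbad : ∀ κ : ℝ, ∃ a b c : ℕ, 0 < a ∧ 0 < b ∧ Nat.Coprime a b ∧ a + b = c ∧
      κ * (R (a * b * c) : ℝ) ^ (1 + ε₀) < c)
    (D : ℕ) (hD : 1 ≤ D) (V : Finset (List ℕ)) (hV : ∀ w ∈ V, (∀ m ∈ w, 2 ≤ m) ∧ w.prod = D)
    (ε : ℝ) (hε : 0 < ε) (hεD : D * ε ≤ ε₀ / (1 + ε₀)) (B : ℕ) :
    ∃ c : ℕ, B < c ∧ V.card ≤ (bad ε c).ncard := by
  classical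
  -- the ratios to avoid
  set Z : Finset ℚ := (V ×ˢ V).biUnion fun p => (wp p.1 - wp p.2).roots.toFinset with hZ
  set Q₀ : ℕ := ∑ z ∈ Z, z.den with hQ₀
  have hQ : ∀ z ∈ Z, z.den ≤ Q₀ := fun z hz => Finset.single_le_sum (f := fun z : ℚ => z.den)
    (fun _ _ => Nat.zero_le _) hz
  set ε₁ : ℝ := ε₀ / (1 + ε₀) with hε₁
  have hε₁0 : 0 < ε₁ := by positivity
  have hε₁e : (1 + ε₀) * (1 - ε₁) = 1 := by rw [hε₁]; field_simp; ring
  have hDR : (1 : ℝ) ≤ D := by exact_mod_cast hD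
  obtain ⟨a, b, c, ha, hb, hab, habc, hlt⟩ := hbad ((D : ℝ) ^ (1 + ε₀) + B + Q₀)
  have hac : a < c := by omega
  have hcop : Nat.Coprime a c := by rw [← habc]; simpa using hab
  have hbc : b = c - a := by omega
  set ρ : ℝ := (R (a * b * c) : ℝ) with hρ
  have hρ1 : 1 ≤ ρ := by rw [hρ]; exact_mod_cast R_pos _
  have hρ0 : 0 < ρ := by linarith
  have hρp : 1 ≤ ρ ^ (1 + ε₀) := Real.one_le_rpow hρ1 (by linarith)
  have hDp : 1 ≤ (D : ℝ) ^ (1 + ε₀) := Real.one_le_rpow hDR (by linarith)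
  have hB0 : (0 : ℝ) ≤ B := Nat.cast_nonneg _
  have hQ0 : (0 : ℝ) ≤ Q₀ := Nat.cast_nonneg _
  have hcbig : (D : ℝ) ^ (1 + ε₀) + B + Q₀ < c := by
    refine lt_of_le_of_lt ?_ hlt
    exact le_mul_of_one_le_right (by linarith) hρp
  have hBc : B < c := by
    have : (B : ℝ) < c := by linarith
    exact_mod_cast this
  have hQc : Q₀ < c := by
    have : (Q₀ : ℝ) < c := by linarith
    exact_mod_cast this
  have hc1 : 1 < c := by
    have : (1 : ℝ) < c := by linarith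
    exact_mod_cast this
  have hcR : (1 : ℝ) < c := by exact_mod_cast hc1
  have hc0 : (0 : ℝ) < c := by linarith
  set ℓ : ℝ := Real.log c with hℓ
  have hℓ0 : 0 < ℓ := Real.log_pos hcR
  -- bound for the radical
  have hρD : Real.log D + Real.log ρ ≤ (1 - ε₁) * ℓ := by
    have h1 : ((D : ℝ) * ρ) ^ (1 + ε₀) ≤ c := by
      rw [Real.mul_rpow (by linarith) hρ0.le]
      refine le_trans ?_ hlt.le
      apply mul_le_mul_of_nonneg_right _ (by positivity)
      linarith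
    have h2 := Real.log_le_log (by positivity) h1
    rw [Real.log_rpow (by positivity), Real.log_mul (by positivity) hρ0.ne'] at h2
    have h3 := mul_le_mul_of_nonneg_left h2 (show 0 ≤ 1 - ε₁ by
      by_contra hneg
      push Not at hneg
      have : (1 + ε₀) * (1 - ε₁) < 0 := mul_neg_of_pos_of_neg (by linarith) hneg
      linarith)
    calc Real.log D + Real.log ρ = ((1 + ε₀) * (1 - ε₁)) * (Real.log D + Real.log ρ) := by
          rw [hε₁e, one_mul]
      _ = (1 - ε₁) * ((1 + ε₀) * (Real.log D + Real.log ρ)) := by ring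
      _ ≤ _ := h3
  refine ⟨c ^ D, lt_of_lt_of_le hBc (Nat.le_self_pow (by omega) c), ?_⟩
  have hmaps : ∀ w ∈ V, (run w (a, c)).1 ∈ bad ε (c ^ D) := by
    intro w hw
    obtain ⟨h1, h2, h3, h4, h5, -⟩ := run_spec w (fun m hm => by have := (hV w hw).1 m hm; omega)
      a c ha hac hcop
    rw [(hV w hw).2] at h4 h5
    rw [h4] at h2 h3 h5
    refine ⟨h1, h2, h3, ?_⟩
    set q := (run w (a, c)).1
    have hR0 : (0 : ℝ) < R (q * (c ^ D - q) * c ^ D) := by exact_mod_cast R_pos _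
    have h6 : (R (q * (c ^ D - q) * c ^ D) : ℝ) ≤ ρ * (D * (c : ℝ) ^ (D - 1)) := by
      rw [hρ, hbc]
      exact_mod_cast h5
    have h7 : Real.log (R (q * (c ^ D - q) * c ^ D)) ≤ (D - ε₁) * ℓ := by
      have h8 := Real.log_le_log hR0 h6
      rw [Real.log_mul hρ0.ne' (by positivity), Real.log_mul (by positivity) (by positivity),
        Real.log_pow, Nat.cast_sub hD, Nat.cast_one] at h8
      calc _ ≤ _ := h8
        _ = (Real.log D + Real.log ρ) + (D - 1) * ℓ := by ring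
        _ ≤ (1 - ε₁) * ℓ + (D - 1) * ℓ := by linarith
        _ = _ := by ring
    rw [Real.rpow_def_of_pos hR0]
    have h9 : ((c ^ D : ℕ) : ℝ) = Real.exp (D * ℓ) := by
      push_cast
      rw [← Real.rpow_natCast, Real.rpow_def_of_pos hc0, mul_comm]
    rw [h9]
    apply Real.exp_lt_exp.2
    calc Real.log (R (q * (c ^ D - q) * c ^ D)) * (1 + ε) ≤ ((D - ε₁) * ℓ) * (1 + ε) :=
          mul_le_mul_of_nonneg_right h7 (by linarith)
      _ = ((D - ε₁) * (1 + ε)) * ℓ := by ring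
      _ < D * ℓ := by
          apply mul_lt_mul_of_pos_right _ hℓ0
          nlinarith [mul_pos hε₁0 hε]
  have hinj : Set.InjOn (fun w => (run w (a, c)).1) V := by
    intro w hw w' hw' h
    simp only at h
    have hw := Finset.mem_coe.1 hw
    have hw' := Finset.mem_coe.1 hw'
    obtain ⟨-, -, -, h4, -, h6⟩ := run_spec w (fun m hm => by have := (hV w hw).1 m hm; omega)
      a c ha hac hcop
    obtain ⟨-, -, -, g4, -, g6⟩ := run_spec w' (fun m hm => by have := (hV w' hw').1 m hm; omega)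
      a c ha hac hcop
    rw [(hV w hw).2] at h4
    rw [(hV w' hw').2] at g4
    rw [h4] at h6
    rw [g4] at g6
    by_contra hne
    have hwp : wp w ≠ wp w' := fun he => hne (wp_inj w w' (hV w hw).1 (hV w' hw').1 he)
    have hcD : ((c ^ D : ℕ) : ℚ) ≠ 0 := by
      have : 0 < c ^ D := by positivity
      exact_mod_cast this.ne'
    have heval : (wp w).eval ((a : ℚ) / c) = (wp w').eval ((a : ℚ) / c) := by
      apply mul_left_cancel₀ hcD
      rw [← h6, ← g6, h]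
    have hroot : (a : ℚ) / c ∈ Z := by
      rw [hZ, Finset.mem_biUnion]
      refine ⟨(w, w'), Finset.mk_mem_product hw hw', ?_⟩
      rw [Multiset.mem_toFinset, mem_roots (sub_ne_zero.2 hwp)]
      simp [IsRoot, heval]
    have hden : ((a : ℚ) / c).den = c := by
      have := Rat.den_div_eq_of_coprime (a := (a : ℤ)) (b := (c : ℤ)) (by omega) (by simpa using hcop)
      push_cast at this
      exact_mod_cast this
    have := hQ _ hroot
    rw [hden] at this
    omega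
  calc V.card = (V.image fun w => (run w (a, c)).1).card := (Finset.card_image_of_injOn hinj).symm
    _ = ((V.image fun w => (run w (a, c)).1 : Finset ℕ) : Set ℕ).ncard := (Set.ncard_coe_finset _).symm
    _ ≤ _ := by
        apply Set.ncard_le_ncard _ (bad_finite _ _)
        intro q hq
        rw [Finset.mem_coe, Finset.mem_image] at hq
        obtain ⟨w, hw, rfl⟩ := hq
        exact hmaps w hw

theorem multiplicity (s : ℝ) (hs0 : 0 ≤ s) (M : ℕ) (hs : 1 < ∑ m ∈ Icc 2 M, (m : ℝ) ^ (-s)) :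
    (ABC fun _ _ _ => True) ↔
      ∀ δ : ℝ, 0 < δ → ∃ ε : ℝ, 0 < ε ∧ ε < δ ∧ ∃ B : ℕ, ∀ c : ℕ, B < c →
        ((bad ε c).ncard : ℝ) < ε ^ (-s) := by
  constructor
  · intro h δ hδ
    obtain ⟨B, hB⟩ := eventually_empty h (δ / 2) (by positivity)
    refine ⟨δ / 2, by positivity, by linarith, B, fun c hc => ?_⟩
    rw [hB c hc]
    simp only [Set.ncard_empty, Nat.cast_zero]
    positivity
  · intro h
    by_contra hnot
    have hbad : ∃ ε₀ : ℝ, 0 < ε₀ ∧ ∀ κ : ℝ, ∃ a b c : ℕ, 0 < a ∧ 0 < b ∧ Nat.Coprime a b ∧ a + b = c ∧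
        κ * (R (a * b * c) : ℝ) ^ (1 + ε₀) < c := by
      unfold ABC at hnot
      push Not at hnot
      obtain ⟨ε₀, hε₀, h1⟩ := hnot
      refine ⟨ε₀, hε₀, fun κ => ?_⟩
      obtain ⟨a, b, c, h2, h3, h4, h5, -, h6⟩ := h1 κ
      exact ⟨a, b, c, h2, h3, h4, h5, h6⟩
    obtain ⟨ε₀, hε₀, hbad⟩ := hbad
    obtain ⟨k, D, W, hW, hD2, hWD⟩ := exists_words s M hs
    set ε₁ : ℝ := ε₀ / (1 + ε₀) with hε₁
    have hε₁0 : 0 < ε₁ := by positivity
    have hD0 : (0 : ℝ) < D := by exact_mod_cast (by omega : 0 < D)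
    have hD1 : (1 : ℝ) < D := by exact_mod_cast (by omega : 1 < D)
    have hDs : 0 < (D : ℝ) ^ s := by positivity
    set θ : ℝ := W.card / (D : ℝ) ^ s with hθ
    have hθ1 : 1 < θ := by rw [hθ, one_lt_div hDs]; exact hWD
    have hWθ : (W.card : ℝ) = θ * (D : ℝ) ^ s := by rw [hθ]; field_simp
    obtain ⟨j₀, hj₀⟩ := pow_unbounded_of_one_lt ((D / ε₁) ^ s) hθ1
    obtain ⟨ε, hε, hεδ, B, hB⟩ := h (ε₁ / D ^ (j₀ + 1)) (by positivity)
    have hεD : (D : ℝ) ^ (j₀ + 1) < ε₁ / ε := by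
      rw [lt_div_iff₀ (by positivity)] at hεδ
      rw [lt_div_iff₀ hε]; linarith
    have hex : ∃ j : ℕ, ε₁ / ε < (D : ℝ) ^ (j + 1) := by
      obtain ⟨j, hj⟩ := pow_unbounded_of_one_lt (ε₁ / ε) hD1
      exact ⟨j, hj.trans (pow_lt_pow_right₀ hD1 (Nat.lt_succ_self j))⟩
    set j := Nat.find hex with hj
    have hj1 : ε₁ / ε < (D : ℝ) ^ (j + 1) := Nat.find_spec hex
    have hjj : j₀ < j := by
      have := (pow_lt_pow_iff_right₀ hD1).1 (hεD.trans hj1)
      omega
    have hj2 : (D : ℝ) ^ j ≤ ε₁ / ε := by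
      have := Nat.find_min hex (show j - 1 < Nat.find hex by omega)
      push Not at this
      rwa [show j - 1 + 1 = j by omega] at this
    obtain ⟨V, hV, hVc⟩ := words_pow k D W hW j
    obtain ⟨c, hc, hcard⟩ := amplify ε₀ hε₀ hbad (D ^ j) (Nat.one_le_pow _ _ (by omega)) V hV ε hε
      (by
        push_cast
        rw [le_div_iff₀ hε] at hj2
        exact hj2) B
    have h1 := hB c hc
    have h2 : (W.card : ℝ) ^ j ≤ ((bad ε c).ncard : ℝ) := by
      have : ((V.card : ℕ) : ℝ) ≤ ((bad ε c).ncard : ℝ) := by exact_mod_cast hcard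
      rwa [hVc, Nat.cast_pow] at this
    have h3 : ε ^ (-s) ≤ (W.card : ℝ) ^ j := by
      rw [hWθ, mul_pow]
      have h4 : ε ^ (-s) * (ε₁ / D) ^ s ≤ ((D : ℝ) ^ s) ^ j := by
        have e1 : ((D : ℝ) ^ s) ^ j = ((D : ℝ) ^ j) ^ s := by
          rw [← Real.rpow_natCast, ← Real.rpow_mul hD0.le, mul_comm, Real.rpow_mul hD0.le,
            Real.rpow_natCast]
        have e2 : ε ^ (-s) * (ε₁ / D) ^ s = (ε₁ / ε / D) ^ s := by
          rw [Real.rpow_neg hε.le, ← Real.inv_rpow hε.le, ← Real.mul_rpow (by positivity) (by positivity)]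
          congr 1
          field_simp
        rw [e1, e2]
        apply Real.rpow_le_rpow (by positivity) _ hs0
        rw [div_le_iff₀ hD0, ← pow_succ]
        exact hj1.le
      have h5 : (D / ε₁) ^ s ≤ θ ^ j := hj₀.le.trans (pow_le_pow_right₀ hθ1.le hjj.le)
      have h6 : (D / ε₁) ^ s * (ε₁ / D) ^ s = 1 := by
        rw [← Real.mul_rpow (by positivity) (by positivity)]
        rw [show D / ε₁ * (ε₁ / D) = 1 by field_simp, Real.one_rpow]
      calc ε ^ (-s) = (D / ε₁) ^ s * (ε ^ (-s) * (ε₁ / D) ^ s) := by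
            calc ε ^ (-s) = ε ^ (-s) * ((D / ε₁) ^ s * (ε₁ / D) ^ s) := by rw [h6, mul_one]
              _ = _ := by ring
        _ ≤ θ ^ j * ((D : ℝ) ^ s) ^ j := mul_le_mul h5 h4 (by positivity) (pow_nonneg (by linarith) _)
    linarith

end Pool.Agent.N746.Self
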