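import Mathlib
import Pool.Agent.N746.Self.Defs

/-!
# Signatures
-/

namespace Pool.Agent.N746.Self

/-- the numbers `a, b, c` are, in some order, of the form `A x ^ p, B y ^ q, C z ^ r` -/
def Sig (p q r A B C a b c : ℕ) : Prop :=
  ∃ x y z : ℕ, ({a, b, c} : Multiset ℕ) = {A * x ^ p, B * y ^ q, C * z ^ r}

end Pool.Agent.N746.Self
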