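import Mathlib
import Pool.Agent.N746.Self.Family

/-!
# Self-similarity of the abc conjecture: the lifting principle near a cusp
-/

namespace Pool.Agent.N746.Self

open Finset Filter

/-- the window lemma with a constant on both sides -/
theorem window2 (r A : ℕ) (δ : ℝ) (hδ : 0 < δ) (hA : 3 ≤ A * δ) (Y : ℕ → ℝ) (hY : ∀ i, 1 < Y i)
    (hYt : Tendsto Y atTop atTop) (hYr : ∀ i, Y (i + 1) ≤ (Y i) ^ r) (K t : ℝ) (hK : 1 ≤ K)
    (hKt : K ≤ t) (ht1 : 1 < t) (hYt0 : Y 0 < t) :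
    ∃ j i : ℕ, A ≤ j ∧ j ≤ r * A + 1 ∧ Y i * K ≤ t ^ j ∧ K * t ^ j ≤ (Y i) ^ (1 + δ) := by
  classical
  have hA0 : 1 ≤ A := by
    rcases Nat.eq_zero_or_pos A with h | h
    · rw [h] at hA; norm_num at hA
    · exact h
  have hex : ∃ i, t ^ A ≤ Y i := (hYt.eventually_ge_atTop (t ^ A)).exists
  set i := Nat.find hex with hi
  have hi1 : t ^ A ≤ Y i := Nat.find_spec hex
  have hi2 : Y i ≤ t ^ (r * A) := by
    rcases Nat.eq_zero_or_pos i with h | h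
    · exfalso
      rw [h] at hi1
      have : t ≤ t ^ A := by
        calc t = t ^ 1 := (pow_one t).symm
          _ ≤ t ^ A := pow_le_pow_right₀ ht1.le hA0
      linarith
    · obtain ⟨i', hi'⟩ := Nat.exists_eq_add_of_lt h
      have hlt : i' < Nat.find hex := by omega
      have h1 := Nat.find_min hex hlt
      push Not at h1
      have h2 : i = i' + 1 := by omega
      rw [h2]
      calc Y (i' + 1) ≤ (Y i') ^ r := hYr i'
        _ ≤ (t ^ A) ^ r := pow_le_pow_left₀ (by linarith [hY i']) h1.le r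
        _ = t ^ (r * A) := by rw [← pow_mul, mul_comm]
  have hex2 : ∃ j : ℕ, Y i * K ≤ t ^ j := by
    obtain ⟨j, hj⟩ := pow_unbounded_of_one_lt (Y i * K) ht1
    exact ⟨j, hj.le⟩
  set j := Nat.find hex2 with hj
  have hj1 : Y i * K ≤ t ^ j := Nat.find_spec hex2
  have hYi := hY i
  have hjA : A ≤ j := by
    have : t ^ A ≤ t ^ j := by
      calc t ^ A ≤ Y i := hi1
        _ = Y i * 1 := (mul_one _).symm
        _ ≤ Y i * K := mul_le_mul_of_nonneg_left hK (by linarith)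
        _ ≤ _ := hj1
    exact (pow_le_pow_iff_right₀ ht1).1 this
  obtain ⟨j', hj'⟩ : ∃ j', j = j' + 1 := ⟨j - 1, by omega⟩
  have hj2 : t ^ j' < Y i * K := by
    have := Nat.find_min hex2 (show j' < Nat.find hex2 by omega)
    push Not at this
    exact this
  refine ⟨j, i, hjA, ?_, hj1, ?_⟩
  · have h1 : t ^ j' < t ^ (r * A + 1) := by
      calc t ^ j' < Y i * K := hj2
        _ ≤ t ^ (r * A) * t := mul_le_mul hi2 hKt (by linarith) (by positivity)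
        _ = _ := by rw [pow_succ]
    have := (pow_lt_pow_iff_right₀ ht1).1 h1
    omega
  · have h1 : t ^ 3 ≤ (Y i) ^ δ := by
      calc t ^ 3 = t ^ (3 : ℝ) := by norm_cast
        _ ≤ t ^ (A * δ) := Real.rpow_le_rpow_of_exponent_le ht1.le hA
        _ = (t ^ A) ^ δ := by rw [Real.rpow_mul (by linarith), Real.rpow_natCast]
        _ ≤ _ := Real.rpow_le_rpow (by positivity) hi1 hδ.le
    have ht0 : 0 < t := by linarith
    have hjpos : 0 < t ^ j := by positivity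
    calc K * t ^ j ≤ t * t ^ j := mul_le_mul_of_nonneg_right hKt hjpos.le
      _ = t * (t ^ j' * t) := by rw [hj', pow_succ]
      _ ≤ t * ((Y i * K) * t) := by
          apply mul_le_mul_of_nonneg_left _ ht0.le
          exact mul_le_mul_of_nonneg_right hj2.le ht0.le
      _ ≤ t * ((Y i * t) * t) := by
          apply mul_le_mul_of_nonneg_left _ ht0.le
          apply mul_le_mul_of_nonneg_right _ ht0.le
          exact mul_le_mul_of_nonneg_left hKt (by linarith)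
      _ = Y i * t ^ 3 := by ring
      _ ≤ Y i * (Y i) ^ δ := mul_le_mul_of_nonneg_left h1 (by linarith)
      _ = (Y i) ^ (1 + δ) := by
          rw [Real.rpow_add (by linarith), Real.rpow_one]

/-- the lifting principle: a family of maps defined near a cusp -/
theorem lift (S : ℕ → ℕ → ℕ → Prop) (d N₀ : ℕ) (hd : 1 ≤ d) (hN₀ : 1 ≤ N₀) (δ₀ K : ℝ) (hδ₀ : 0 < δ₀)
    (hK : 1 ≤ K)
    (h : ∀ X Y Z : ℕ, Z + Y = X → 0 < Y → 0 < Z → Nat.Coprime X Y → N₀ ∣ Z → (Z : ℝ) ≤ δ₀ * X →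
      ∃ a b c : ℕ, 0 < a ∧ 0 < b ∧ a + b = c ∧ Nat.Coprime a b ∧ S a b c ∧ Z ∣ N₀ * a ∧
        (a : ℝ) * X ≤ K * Z * c ∧ (X : ℝ) ^ d ≤ K * c ∧ (c : ℝ) ≤ K * (X : ℝ) ^ d ∧
        (R (a * b * c) : ℝ) ≤ K * R (X * Y * Z) * (X : ℝ) ^ (d - 1))
    (N r : ℕ) (hN : 1 ≤ N) (δ : ℝ) (hδ : 0 < δ) (Y : ℕ → ℝ)
    (hY : ∀ i, 1 < Y i) (hYt : Tendsto Y atTop atTop) (hYr : ∀ i, Y (i + 1) ≤ (Y i) ^ r) :
    (ABC fun a b c => S a b c ∧ N ∣ a ∧ (a : ℝ) ≤ δ * c ∧ ∃ i, Y i ≤ c ∧ (c : ℝ) ≤ (Y i) ^ (1 + δ)) ↔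
      ABC fun _ _ _ => True := by
  refine ⟨fun hT => ?_, to_univ⟩
  obtain ⟨η, hη0, hη1, hη2, hη3⟩ : ∃ η : ℝ, 0 < η ∧ η < 1 ∧ 64 * η ^ 2 ≤ δ₀ ∧ K * (64 * η ^ 2) ≤ δ := by
    set u : ℝ := min (1 / 2) (min (δ₀ / 64) (δ / (64 * K))) with hu
    have h1 : u ≤ 1 / 2 := min_le_left _ _
    have h2 : u ≤ δ₀ / 64 := (min_le_right _ _).trans (min_le_left _ _)
    have h3 : u ≤ δ / (64 * K) := (min_le_right _ _).trans (min_le_right _ _)
    have h0 : 0 < u := lt_min (by norm_num) (lt_min (by positivity) (by positivity))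
    have h4 : u ^ 2 ≤ u := by nlinarith
    refine ⟨u, h0, by linarith, by linarith, ?_⟩
    have h5 : K * (64 * u ^ 2) ≤ K * (64 * u) := mul_le_mul_of_nonneg_left (by linarith) (by linarith)
    have h6 : K * (64 * u) ≤ K * (64 * (δ / (64 * K))) :=
      mul_le_mul_of_nonneg_left (by linarith) (by linarith)
    have h7 : K * (64 * (δ / (64 * K))) = δ := by field_simp
    linarith
  obtain ⟨L, hL⟩ := exists_pow_lt_of_lt_one hη0 (show 1 - η < 1 by linarith)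
  have hNN : 1 ≤ N * N₀ := Nat.mul_pos hN hN₀
  have : NeZero (2 * (N * N₀)) := ⟨by omega⟩
  obtain ⟨m₀, hm₀, hidem⟩ := exists_pow_idem (2 * (N * N₀))
  obtain ⟨A, hA⟩ : ∃ A : ℕ, 3 ≤ A * δ := by
    obtain ⟨A, hA⟩ := exists_nat_ge (3 / δ)
    exact ⟨A, by rwa [div_le_iff₀ hδ] at hA⟩
  have hA1 : 1 ≤ A := by
    rcases Nat.eq_zero_or_pos A with h | h
    · rw [h] at hA; norm_num at hA
    · exact h
  set B : ℕ := L * (r * A + 1) + A with hB
  have hBA : A ≤ B := by omega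
  have hB' : 3 ≤ B * δ := hA.trans (mul_le_mul_of_nonneg_right (by exact_mod_cast hBA) hδ.le)
  set J : ℕ := r * B + 1 with hJ
  set E : ℕ := 8 * d * (m₀ * J) with hE
  set K₁ : ℝ := 4 ^ (6 * d) * K with hK₁
  have h4d : (1 : ℝ) ≤ 4 ^ (6 * d) := one_le_pow₀ (by norm_num)
  have hK₁1 : 1 ≤ K₁ := by rw [hK₁]; nlinarith
  have hKK₁ : K ≤ K₁ := by rw [hK₁]; nlinarith
  obtain ⟨C, hC⟩ := exists_nat_gt (max (Y 0) K₁)
  have hCY : Y 0 < C := (le_max_left _ _).trans_lt hC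
  have hCK : K₁ < C := (le_max_right _ _).trans_lt hC
  refine transfer _ E (max K₁ (4 * K * (m₀ * J : ℕ))) (C + 3)
    (le_trans hK₁1 (le_max_left _ _)) ?_ hT
  intro a b c ha hb hab habc hc
  have hc0 : 0 < c := by omega
  have hcR : (0 : ℝ) < c := by exact_mod_cast hc0
  have haR : (0 : ℝ) < a := by exact_mod_cast ha
  have hac : (a : ℝ) < c := by exact_mod_cast (show a < c by omega)
  have hcK : (C : ℝ) + 3 ≤ c := by exact_mod_cast hc
  have hCpos : (0 : ℝ) ≤ C := Nat.cast_nonneg _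
  have hc1 : (1 : ℝ) ≤ c := by linarith
  set t : ℝ := (c : ℝ) ^ (8 * d * m₀) with ht
  have hct : (c : ℝ) ≤ t := by
    calc (c : ℝ) = (c : ℝ) ^ 1 := (pow_one _).symm
      _ ≤ t := pow_le_pow_right₀ hc1 (Nat.mul_pos (by omega) (Nat.pos_of_ne_zero hm₀))
  have ht1 : 1 < t := by linarith
  -- the ratio
  set ρ : ℝ := (a : ℝ) / c with hρ
  have hρ0 : 0 < ρ := by positivity
  have hρ1 : ρ < 1 := by rw [hρ, div_lt_one hcR]; exact hac
  -- choice of the exponent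
  obtain ⟨j, i, hj1, hjJ, hji1, hji2, hjρ⟩ : ∃ j i : ℕ, 1 ≤ j ∧ j ≤ J ∧
      Y i * K₁ ≤ t ^ j ∧
      K₁ * t ^ j ≤ (Y i) ^ (1 + δ) ∧ (ρ ^ (m₀ * j) ≤ η ∨ 1 - η ≤ ρ ^ (m₀ * j)) := by
    obtain ⟨j₁, i₁, h1, h2, h3, h4⟩ := window2 r A δ hδ hA Y hY hYt hYr K₁ t hK₁1
      (by linarith) ht1 (by linarith)
    obtain ⟨j₂, i₂, g1, g2, g3, g4⟩ := window2 r B δ hδ hB' Y hY hYt hYr K₁ t hK₁1
      (by linarith) ht1 (by linarith)
    rcases le_or_gt (1 - η) (ρ ^ (m₀ * j₁)) with h | h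
    · refine ⟨j₁, i₁, by omega, ?_, h3, h4, Or.inr h⟩
      have : r * A ≤ r * B := Nat.mul_le_mul_left _ hBA
      omega
    · refine ⟨j₂, i₂, by omega, g2, g3, g4, Or.inl ?_⟩
      have hle : (m₀ * j₁) * L ≤ m₀ * j₂ := by
        have : j₁ * L ≤ j₂ := by
          calc j₁ * L ≤ (r * A + 1) * L := Nat.mul_le_mul_right _ h2
            _ = L * (r * A + 1) := by ring
            _ ≤ B := by omega
            _ ≤ j₂ := g1
        calc m₀ * j₁ * L = m₀ * (j₁ * L) := by ring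
          _ ≤ _ := Nat.mul_le_mul_left _ this
      calc ρ ^ (m₀ * j₂) ≤ ρ ^ ((m₀ * j₁) * L) := pow_le_pow_of_le_one hρ0.le hρ1.le hle
        _ = (ρ ^ (m₀ * j₁)) ^ L := pow_mul _ _ _
        _ ≤ (1 - η) ^ L := pow_le_pow_left₀ (by positivity) h.le L
        _ ≤ η := hL.le
  set m : ℕ := m₀ * j with hm
  have hm1 : 1 ≤ m := Nat.mul_pos (Nat.pos_of_ne_zero hm₀) hj1
  have hmJ : m ≤ m₀ * J := Nat.mul_le_mul_left _ hjJ
  have hlt : a ^ m < c ^ m := Nat.pow_lt_pow_left (by omega) (by omega)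
  have ha1 : 0 < a ^ m := by positivity
  have hac' : Nat.Coprime a c := by rw [← habc]; simpa using hab
  have hcop : Nat.Coprime (a ^ m) (c ^ m - a ^ m) := by
    rw [Nat.coprime_sub_self_right hlt.le]
    exact hac'.pow m m
  have hsum : a ^ m + (c ^ m - a ^ m) = c ^ m := by omega
  have hne : a ^ m ≠ c ^ m - a ^ m := by
    intro h
    rw [← h] at hcop
    rw [Nat.coprime_self] at hcop
    have h2 : c ^ m = 2 := by omega
    have h3 : c ^ 1 ≤ c ^ m := Nat.pow_le_pow_right hc0 hm1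
    rw [pow_one] at h3
    omega
  have hclose : (min ((a ^ m : ℕ) : ℝ) ((c ^ m - a ^ m : ℕ) : ℝ)) ≤ η * ((c ^ m : ℕ) : ℝ) := by
    have e : ((c ^ m - a ^ m : ℕ) : ℝ) = (c : ℝ) ^ m - (a : ℝ) ^ m := by
      rw [Nat.cast_sub hlt.le]; push_cast; ring
    have e2 : (a : ℝ) ^ m = ρ ^ m * (c : ℝ) ^ m := by rw [hρ, div_pow]; field_simp
    rw [e]
    push_cast
    rcases hjρ with h | h
    · refine (min_le_left _ _).trans ?_
      rw [e2]
      exact mul_le_mul_of_nonneg_right h (by positivity)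
    · refine (min_le_right _ _).trans ?_
      rw [e2]
      have : 0 ≤ (c : ℝ) ^ m := by positivity
      nlinarith
  have hdvd : 2 * (N * N₀) ∣ a ^ m * (c ^ m - a ^ m) * c ^ m :=
    dvd_of_idem (2 * (N * N₀)) m₀ hidem j a c (by omega)
  obtain ⟨x, y, z, hx, hy, hxy, hy0, hyx, hz, hxyz, hxc, hcx, hcl⟩ :=
    odd_terms _ _ _ ha1 (by omega) hcop hsum hne η hη0.le hclose
  have hz0 : 0 < z := by omega
  obtain ⟨x₃, y₃, z₃, hx3, hy3, hxy3, hy30, hyx3, hz3, hz30, hN3, hcl3, hcx3, hxc3, hR3⟩ :=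
    to_cusp (N * N₀) x y z (c ^ m) hx hy hxy hy0 hyx hz hz0 hxc hcx (by rw [hxyz]; exact hdvd) η hη0
      (by linarith) hcl
  have hx30 : 0 < x₃ := by omega
  have hx3R : (0 : ℝ) < x₃ := by exact_mod_cast hx30
  have hz3R : (z₃ : ℝ) = x₃ - y₃ := by rw [← hz3]; push_cast; ring
  have hzx : (z₃ : ℝ) ≤ 64 * η ^ 2 * x₃ := by rw [hz3R]; linarith
  have hN0z : N₀ ∣ z₃ := by
    refine Dvd.dvd.trans ?_ hN3
    exact ⟨2 * N, by ring⟩
  obtain ⟨a', b', c', ha', hb', habc', hab', hS, hZa, haX, hXc, hcX, hRR⟩ :=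
    h x₃ y₃ z₃ hz3 hy30 hz30 hxy3 hN0z
      (hzx.trans (mul_le_mul_of_nonneg_right hη2 hx3R.le))
  have hc'0 : 0 < c' := by omega
  have hc'R : (0 : ℝ) < c' := by exact_mod_cast hc'0
  -- sizes
  have htj : t ^ j = ((c : ℝ) ^ m) ^ (8 * d) := by
    rw [ht, ← pow_mul, ← pow_mul]
    congr 1
    rw [hm]; ring
  have hs1 : ((c : ℝ) ^ m) ^ (8 * d) ≤ K₁ * c' := by
    have h1 : ((c : ℝ) ^ m) ^ 8 ≤ 4 ^ 6 * x₃ := by exact_mod_cast hcx3
    calc ((c : ℝ) ^ m) ^ (8 * d) = (((c : ℝ) ^ m) ^ 8) ^ d := by rw [← pow_mul ((c : ℝ) ^ m) 8 d]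
      _ ≤ (4 ^ 6 * x₃) ^ d := pow_le_pow_left₀ (by positivity) h1 d
      _ = 4 ^ (6 * d) * (x₃ : ℝ) ^ d := by rw [mul_pow, ← pow_mul 4 6 d]
      _ ≤ 4 ^ (6 * d) * (K * c') := mul_le_mul_of_nonneg_left hXc (by positivity)
      _ = K₁ * c' := by rw [hK₁]; ring
  have hx3le : (x₃ : ℝ) ≤ ((c : ℝ) ^ m) ^ 8 := by exact_mod_cast hxc3
  have hs2 : (c' : ℝ) ≤ K * ((c : ℝ) ^ m) ^ (8 * d) := by
    calc (c' : ℝ) ≤ K * (x₃ : ℝ) ^ d := hcX
      _ ≤ K * (((c : ℝ) ^ m) ^ 8) ^ d :=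
          mul_le_mul_of_nonneg_left (pow_le_pow_left₀ hx3R.le hx3le d) (by linarith)
      _ = _ := by rw [← pow_mul ((c : ℝ) ^ m) 8 d]
  refine ⟨8 * d * m, a', b', c', ?_, ?_, ha', hb', hab', habc', ⟨hS, ?_, ?_, i, ?_, ?_⟩, ?_, ?_⟩
  · exact Nat.mul_pos (by omega) hm1
  · exact Nat.mul_le_mul_left _ hmJ
  · have h1 : N₀ * N ∣ N₀ * a' := by
      refine Dvd.dvd.trans ?_ (hN3.trans hZa)
      exact ⟨2, by ring⟩
    exact Nat.dvd_of_mul_dvd_mul_left (by omega) h1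
  · have h1 : (a' : ℝ) * x₃ ≤ (δ * c') * x₃ := by
      calc (a' : ℝ) * x₃ ≤ K * z₃ * c' := haX
        _ = K * c' * z₃ := by ring
        _ ≤ K * c' * (64 * η ^ 2 * x₃) := mul_le_mul_of_nonneg_left hzx (by positivity)
        _ = (K * (64 * η ^ 2)) * c' * x₃ := by ring
        _ ≤ δ * c' * x₃ := by
            apply mul_le_mul_of_nonneg_right _ hx3R.le
            exact mul_le_mul_of_nonneg_right hη3 hc'R.le
    exact le_of_mul_le_mul_right h1 hx3R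
  · have h1 : Y i * K₁ ≤ (c' : ℝ) * K₁ := by
      calc Y i * K₁ ≤ t ^ j := hji1
        _ = ((c : ℝ) ^ m) ^ (8 * d) := htj
        _ ≤ K₁ * c' := hs1
        _ = _ := by ring
    exact le_of_mul_le_mul_right h1 (by linarith)
  · calc (c' : ℝ) ≤ K * ((c : ℝ) ^ m) ^ (8 * d) := hs2
      _ ≤ K₁ * ((c : ℝ) ^ m) ^ (8 * d) := mul_le_mul_of_nonneg_right hKK₁ (by positivity)
      _ = K₁ * t ^ j := by rw [htj]
      _ ≤ _ := hji2
  · calc (c : ℝ) ^ (8 * d * m) = ((c : ℝ) ^ m) ^ (8 * d) := by rw [← pow_mul]; congr 1; ring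
      _ ≤ K₁ * c' := hs1
      _ ≤ _ := mul_le_mul_of_nonneg_right (le_max_left _ _) hc'R.le
  · have hpm := power_map m hm1 a b c ha hb habc
    have h2 : (R (x₃ * y₃ * z₃) : ℝ) ≤ (R (a * b * c) * (m * (c : ℝ) ^ (m - 1))) * (4 * ((c : ℝ) ^ m) ^ 7) := by
      calc (R (x₃ * y₃ * z₃) : ℝ) ≤ ((R (x * y * z) * (4 * (c ^ m) ^ 7) : ℕ) : ℝ) := by
            exact_mod_cast hR3
        _ = ((R (a ^ m * (c ^ m - a ^ m) * c ^ m) * (4 * (c ^ m) ^ 7) : ℕ) : ℝ) := by rw [hxyz]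
        _ ≤ (((R (a * b * c) * (m * c ^ (m - 1))) * (4 * (c ^ m) ^ 7) : ℕ) : ℝ) := by
            exact_mod_cast Nat.mul_le_mul_right _ hpm
        _ = _ := by push_cast; ring
    have h3 : (x₃ : ℝ) ^ (d - 1) ≤ (((c : ℝ) ^ m) ^ 8) ^ (d - 1) :=
      pow_le_pow_left₀ hx3R.le hx3le _
    calc (R (a' * b' * c') : ℝ) ≤ K * R (x₃ * y₃ * z₃) * (x₃ : ℝ) ^ (d - 1) := hRR
      _ ≤ K * ((R (a * b * c) * (m * (c : ℝ) ^ (m - 1))) * (4 * ((c : ℝ) ^ m) ^ 7)) *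
          (((c : ℝ) ^ m) ^ 8) ^ (d - 1) := by
          apply mul_le_mul _ h3 (by positivity) (by positivity)
          exact mul_le_mul_of_nonneg_left h2 (by linarith)
      _ = (4 * K * m) * R (a * b * c) *
          ((c : ℝ) ^ (m - 1) * ((c : ℝ) ^ m) ^ 7 * (((c : ℝ) ^ m) ^ 8) ^ (d - 1)) := by ring
      _ = (4 * K * m) * R (a * b * c) * (c : ℝ) ^ (8 * d * m - 1) := by
          congr 1
          rw [← pow_mul, ← pow_mul, ← pow_mul, ← pow_add, ← pow_add]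
          congr 1
          obtain ⟨k, hk⟩ : ∃ k, d = k + 1 := ⟨d - 1, by omega⟩
          rw [hk, show k + 1 - 1 = k by omega]
          have e2 : 8 * (k + 1) * m = m * 8 * k + 8 * m := by ring
          have e3 : m * (8 * k) = m * 8 * k := by ring
          rw [e2]
          omega
      _ ≤ _ := by
          apply mul_le_mul_of_nonneg_right _ (by positivity)
          apply mul_le_mul_of_nonneg_right _ (Nat.cast_nonneg _)
          refine le_trans ?_ (le_max_right _ _)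
          apply mul_le_mul_of_nonneg_left _ (by linarith)
          exact_mod_cast hmJ

end Pool.Agent.N746.Self
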