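import Mathlib
import Pool.Agent.N746.Self.Defs3
import Pool.Agent.N746.Self.Lift

/-!
# The maps for the spherical signatures
-/

namespace Pool.Agent.N746.Self

open Finset

/-- what `lift` needs -/
def Good (S : ℕ → ℕ → ℕ → Prop) (d N₀ : ℕ) (δ₀ K : ℝ) : Prop :=
  ∀ X Y Z : ℕ, Z + Y = X → 0 < Y → 0 < Z → Nat.Coprime X Y → N₀ ∣ Z → (Z : ℝ) ≤ δ₀ * X →
    ∃ a b c : ℕ, 0 < a ∧ 0 < b ∧ a + b = c ∧ Nat.Coprime a b ∧ S a b c ∧ Z ∣ N₀ * a ∧
      (a : ℝ) * X ≤ K * Z * c ∧ (X : ℝ) ^ d ≤ K * c ∧ (c : ℝ) ≤ K * (X : ℝ) ^ d ∧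
      (R (a * b * c) : ℝ) ≤ K * R (X * Y * Z) * (X : ℝ) ^ (d - 1)

theorem pow_le_add (d X Y Z : ℕ) (h : Z + Y = X) : X ^ d ≤ Y ^ d + Z * (d * X ^ (d - 1)) := by
  induction d with
  | zero => simp
  | succ d ih =>
    have hYX : Y ≤ X := by omega
    have h1 : X ^ d * X ≤ (Y ^ d + Z * (d * X ^ (d - 1))) * Y + X ^ d * Z := by
      calc X ^ d * X = X ^ d * Y + X ^ d * Z := by rw [← h]; ring
        _ ≤ _ := Nat.add_le_add_right (Nat.mul_le_mul_right _ ih) _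
    have h2 : Z * (d * X ^ (d - 1)) * Y ≤ Z * (d * X ^ d) := by
      rcases Nat.eq_zero_or_pos d with h0 | h0
      · rw [h0]; simp
      · calc Z * (d * X ^ (d - 1)) * Y ≤ Z * (d * X ^ (d - 1)) * X := Nat.mul_le_mul_left _ hYX
          _ = Z * (d * (X ^ (d - 1) * X)) := by ring
          _ = Z * (d * X ^ d) := by rw [← pow_succ, Nat.sub_add_cancel h0]
    rw [pow_succ, pow_succ]
    calc X ^ d * X ≤ (Y ^ d + Z * (d * X ^ (d - 1))) * Y + X ^ d * Z := h1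
      _ = Y ^ d * Y + Z * (d * X ^ (d - 1)) * Y + X ^ d * Z := by ring
      _ ≤ Y ^ d * Y + Z * (d * X ^ d) + X ^ d * Z :=
          Nat.add_le_add_right (Nat.add_le_add_left h2 _) _
      _ = _ := by simp only [Nat.add_sub_cancel]; ring

theorem good1 (q r : ℕ) (hq : 1 ≤ q) (hr : 1 ≤ r) :
    Good (Sig 1 q r 1 1 1) (q * r) 1 1 (q * r : ℕ) := by
  intro X Y Z h hY hZ hXY _ _
  set d : ℕ := q * r with hd
  have hd1 : 1 ≤ d := Nat.mul_pos hq hr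
  have hdR : (1 : ℝ) ≤ (d : ℕ) := by exact_mod_cast hd1
  have hlt : Y ^ d < X ^ d := Nat.pow_lt_pow_left (by omega) (by omega)
  have hX0 : 0 < X := by omega
  have hle := pow_le_add d X Y Z h
  refine ⟨X ^ d - Y ^ d, Y ^ d, X ^ d, by omega, by positivity, by omega, ?_, ?_, ?_, ?_, ?_, ?_, ?_⟩
  · have h1 : Nat.Coprime (X ^ d) (Y ^ d) := hXY.pow d d
    exact (Nat.coprime_sub_self_left hlt.le).2 h1
  · refine ⟨X ^ d - Y ^ d, Y ^ r, X ^ q, ?_⟩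
    rw [one_mul, one_mul, one_mul, pow_one, ← pow_mul, ← pow_mul, mul_comm r q]
  · rw [one_mul]
    have : Z = X - Y := by omega
    rw [this]; exact Nat.sub_dvd_pow_sub_pow _ _ _
  · have h1 : X ^ d - Y ^ d ≤ Z * (d * X ^ (d - 1)) := by omega
    have h2 : ((X ^ d - Y ^ d : ℕ) : ℝ) ≤ Z * (d * (X : ℝ) ^ (d - 1)) := by exact_mod_cast h1
    calc ((X ^ d - Y ^ d : ℕ) : ℝ) * X ≤ Z * (d * (X : ℝ) ^ (d - 1)) * X :=
          mul_le_mul_of_nonneg_right h2 (Nat.cast_nonneg _)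
      _ = d * Z * ((X : ℝ) ^ (d - 1) * X) := by ring
      _ = d * Z * (X : ℝ) ^ d := by rw [← pow_succ, Nat.sub_add_cancel hd1]
      _ = d * Z * ((X ^ d : ℕ) : ℝ) := by push_cast; ring
  · push_cast
    exact le_mul_of_one_le_left (by positivity) hdR
  · push_cast
    exact le_mul_of_one_le_left (by positivity) hdR
  · have hpm := power_map d hd1 Y Z X hY hZ (by omega)
    have e1 : (X ^ d - Y ^ d) * Y ^ d * X ^ d = Y ^ d * (X ^ d - Y ^ d) * X ^ d := by ring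
    have e2 : X * Y * Z = Y * Z * X := by ring
    rw [e1, e2]
    calc (R (Y ^ d * (X ^ d - Y ^ d) * X ^ d) : ℝ) ≤ ((R (Y * Z * X) * (d * X ^ (d - 1)) : ℕ) : ℝ) := by
          exact_mod_cast hpm
      _ = _ := by push_cast; ring

theorem both_odd (X Y Z : ℕ) (h : Z + Y = X) (hXY : Nat.Coprime X Y) (hZ : 2 ∣ Z) : Odd X ∧ Odd Y := by
  have : Odd X := by
    by_contra hn
    rw [Nat.not_odd_iff_even] at hn
    have h1 : 2 ∣ Y := by
      have := Nat.dvd_sub hn.two_dvd hZ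
      rwa [show X - Z = Y by omega] at this
    have := Nat.dvd_gcd hn.two_dvd h1
    rw [hXY] at this
    omega
  refine ⟨this, ?_⟩
  obtain ⟨k, hk⟩ := this
  obtain ⟨l, hl⟩ := hZ
  exact ⟨k - l, by omega⟩

theorem good2 (n : ℕ) (hn : 1 ≤ n) :
    Good (Sig 2 2 n 1 1 1) (2 * n) 2 1 (4 ^ (n + 1)) := by
  intro X Y Z h hY hZ hXY h2Z _
  obtain ⟨hXo, hYo⟩ := both_odd X Y Z h hXY h2Z
  obtain ⟨P, Q, hPQ, hQP, hQ0, heq, hcop, hc1, hc2, hR⟩ := dih n hn X Y Z X hXo hYo hXY hY (by omega)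
    (Or.inr h) hZ le_rfl (by omega)
  have hK1 : (1 : ℝ) ≤ 4 ^ (n + 1) := one_le_pow₀ (by norm_num)
  have hnK : (2 * n : ℝ) ≤ 4 ^ (n + 1) := by
    have h1 : n + 1 < 4 ^ (n + 1) := Nat.lt_pow_self (by norm_num)
    have h2 : 2 * n ≤ 4 ^ (n + 1) := by
      have h3 : n < 4 ^ n := Nat.lt_pow_self (by norm_num)
      rw [pow_succ]; omega
    exact_mod_cast h2
  have hYn : 0 < Y ^ n := by positivity
  have hP0 : 0 < P := by omega
  have hX0 : 0 < X := by omega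
  have hXY0 : 0 < (X * Y) ^ n := by positivity
  refine ⟨Q ^ 2, (X * Y) ^ n, P ^ 2, by positivity, hXY0, by omega, hcop.symm, ?_, ?_, ?_, ?_, ?_, ?_⟩
  · refine ⟨Q, P, X * Y, ?_⟩
    rw [one_mul, one_mul, one_mul]
    exact congrArg (Q ^ 2 ::ₘ ·) (Multiset.pair_comm _ _)
  · have h1 : Z ∣ X ^ n - Y ^ n := by
      have : Z = X - Y := by omega
      rw [this]; exact Nat.sub_dvd_pow_sub_pow _ _ _
    have h2 : X ^ n - Y ^ n = 2 * Q := by omega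
    rw [h2] at h1
    exact h1.trans ⟨Q, by ring⟩
  · have h1 := pow_le_add n X Y Z h
    have h2 : 2 * Q ≤ Z * (n * X ^ (n - 1)) := by omega
    have h3 : 2 * Q * X ≤ Z * n * X ^ n := by
      calc 2 * Q * X ≤ Z * (n * X ^ (n - 1)) * X := Nat.mul_le_mul_right _ h2
        _ = Z * n * (X ^ (n - 1) * X) := by ring
        _ = _ := by rw [← pow_succ, Nat.sub_add_cancel hn]
    have h4 : X ^ n ≤ 2 * P := by omega
    have h5 : Q * X ≤ Z * n * P := by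
      have : 2 * (Q * X) ≤ 2 * (Z * n * P) := by
        calc 2 * (Q * X) = 2 * Q * X := by ring
          _ ≤ Z * n * X ^ n := h3
          _ ≤ Z * n * (2 * P) := Nat.mul_le_mul_left _ h4
          _ = _ := by ring
      omega
    have h6 : Q ^ 2 * X ≤ n * Z * P ^ 2 := by
      calc Q ^ 2 * X = Q * (Q * X) := by ring
        _ ≤ P * (Z * n * P) := Nat.mul_le_mul (by omega) h5
        _ = _ := by ring
    have h7 : ((Q ^ 2 : ℕ) : ℝ) * X ≤ n * Z * ((P ^ 2 : ℕ) : ℝ) := by exact_mod_cast h6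
    refine h7.trans ?_
    apply mul_le_mul_of_nonneg_right _ (Nat.cast_nonneg _)
    apply mul_le_mul_of_nonneg_right _ (Nat.cast_nonneg _)
    have : (0 : ℝ) ≤ n := Nat.cast_nonneg _
    linarith
  · exact_mod_cast hc1
  · have : ((P ^ 2 : ℕ) : ℝ) ≤ (X : ℝ) ^ (2 * n) := by exact_mod_cast hc2
    exact this.trans (le_mul_of_one_le_left (by positivity) hK1)
  · have e1 : Q ^ 2 * (X * Y) ^ n * P ^ 2 = (X * Y) ^ n * Q ^ 2 * P ^ 2 := by ring
    rw [e1]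
    calc (R ((X * Y) ^ n * Q ^ 2 * P ^ 2) : ℝ)
        ≤ ((R (X * Y * Z) * (2 * n * X ^ (2 * n - 1)) : ℕ) : ℝ) := by exact_mod_cast hR
      _ = (2 * n) * R (X * Y * Z) * (X : ℝ) ^ (2 * n - 1) := by push_cast; ring
      _ ≤ _ := by
          apply mul_le_mul_of_nonneg_right _ (by positivity)
          exact mul_le_mul_of_nonneg_right hnK (Nat.cast_nonneg _)

/-- coprimality from a prime criterion -/
theorem coprime_of {a b : ℕ} (h : ∀ p : ℕ, p.Prime → p ∣ a → p ∣ b → False) : Nat.Coprime a b := by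
  by_contra hn
  obtain ⟨p, hp, h1, h2⟩ := Nat.Prime.not_coprime_iff_dvd.1 hn
  exact h p hp h1 h2

/-- a radical bound from a prime criterion -/
theorem R_bound {m n w : ℕ} (hn : n ≠ 0) (hw : w ≠ 0) (h : ∀ p : ℕ, p.Prime → p ∣ m → p ∣ n * w) :
    R m ≤ R n * w :=
  calc R m ≤ R (n * w) := R_le_of_primes (mul_ne_zero hn hw) h
    _ ≤ R n * R w := R_mul_le _ _ hn hw
    _ ≤ R n * w := Nat.mul_le_mul_left _ (R_le (Nat.pos_of_ne_zero hw))

theorem good3 : Good (Sig 2 3 3 1 1 1) 12 6 1 2000 := by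
  intro X Y Z h hY hZ hXY h6Z _
  obtain ⟨hXo, hYo⟩ := both_odd X Y Z h hXY (Dvd.dvd.trans (by norm_num) h6Z)
  have hX0 : 0 < X := by omega
  have hXZ : Nat.Coprime X Z := by
    have : Nat.Coprime (Z + Y) Y := by rw [h]; exact hXY
    rw [Nat.coprime_add_self_left] at this
    rw [← h]
    exact Nat.coprime_self_add_left.2 this.symm
  set u : ℕ := 4 * Z * (Y * (X ^ 2 + X * Z + Z ^ 2)) with hu
  set v : ℕ := X * (X ^ 3 + 8 * Z ^ 3) with hv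
  set zI : ℤ := (X : ℤ) ^ 6 - 20 * X ^ 3 * Z ^ 3 - 8 * Z ^ 6 with hzI
  set w : ℕ := zI.natAbs with hw
  have hXZY : (X : ℤ) = Z + Y := by rw [← h]; push_cast; ring
  have hid : u ^ 3 + w ^ 2 = v ^ 3 := by
    have : ((u ^ 3 + w ^ 2 : ℕ) : ℤ) = ((v ^ 3 : ℕ) : ℤ) := by
      rw [hu, hv]
      push_cast
      rw [hw, Int.natAbs_sq, hzI, hXZY]
      ring
    exact_mod_cast this
  have hzo : Odd zI := by
    have h1 : Odd (X : ℤ) := by exact_mod_cast hXo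
    have h2 : Even (20 * (X : ℤ) ^ 3 * Z ^ 3) := ⟨10 * (X : ℤ) ^ 3 * Z ^ 3, by ring⟩
    have h3 : Even (8 * (Z : ℤ) ^ 6) := ⟨4 * (Z : ℤ) ^ 6, by ring⟩
    exact (h1.pow.sub_even h2).sub_even h3
  have hw0 : w ≠ 0 := by
    rw [hw, Int.natAbs_ne_zero]
    intro h0
    rw [h0] at hzo
    exact absurd hzo (by decide)
  have hu0 : 0 < u := by positivity
  have hv0 : 0 < v := by positivity
  have hvodd : Odd v := by
    rw [hv]
    apply hXo.mul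
    apply hXo.pow.add_even
    exact ⟨4 * Z ^ 3, by ring⟩
  have huv : ∀ p : ℕ, p.Prime → p ∣ u → p ∣ v → False := by
    intro p hp h1 h2
    have hpZ : ¬ p ∣ Z := by
      intro h3
      have h4 : p ∣ X ^ 4 := by
        have e : v = X ^ 4 + 8 * X * Z ^ 2 * Z := by rw [hv]; ring
        rw [e] at h2
        exact (Nat.dvd_add_left (h3.mul_left _)).1 h2
      have h5 := Nat.dvd_gcd (hp.dvd_of_dvd_pow h4) h3
      rw [hXZ] at h5
      exact hp.one_lt.ne' (Nat.dvd_one.1 h5)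
    have hp2 : p ≠ 2 := by
      rintro rfl
      have := hvodd.not_two_dvd_nat
      exact this h2
    have hp3 : p ≠ 3 := by
      rintro rfl
      exact hpZ (Dvd.dvd.trans (by norm_num) h6Z)
    -- `p ∣ X ^ 3 - Z ^ 3`
    have h3 : (p : ℤ) ∣ (X : ℤ) ^ 3 - Z ^ 3 := by
      rw [hu] at h1
      rcases hp.dvd_mul.1 h1 with h1 | h1
      · exfalso
        rcases hp.dvd_mul.1 h1 with h1 | h1
        · have : p ∣ 2 ^ 2 := by norm_num; exact h1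
          exact hp2 ((Nat.prime_dvd_prime_iff_eq hp Nat.prime_two).1 (hp.dvd_of_dvd_pow this))
        · exact hpZ h1
      · have e : (X : ℤ) ^ 3 - Z ^ 3 = ((Y * (X ^ 2 + X * Z + Z ^ 2) : ℕ) : ℤ) := by
          push_cast
          have : (Y : ℤ) = X - Z := by rw [hXZY]; ring
          rw [this]; ring
        rw [e]
        exact_mod_cast h1
    have hpP : Prime (p : ℤ) := Nat.prime_iff_prime_int.1 hp
    rw [hv] at h2
    rcases hp.dvd_mul.1 h2 with h2 | h2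
    · have h4 : (p : ℤ) ∣ (Z : ℤ) ^ 3 := by
        have h5 : (p : ℤ) ∣ (X : ℤ) ^ 3 := dvd_pow (by exact_mod_cast h2) (by norm_num)
        have := dvd_sub h5 h3
        rwa [sub_sub_cancel] at this
      exact hpZ (by exact_mod_cast hpP.dvd_of_dvd_pow h4)
    · have h2' : (p : ℤ) ∣ (X : ℤ) ^ 3 + 8 * Z ^ 3 := by exact_mod_cast h2
      have h4 : (p : ℤ) ∣ 9 * (Z : ℤ) ^ 3 := by
        have := dvd_sub h2' h3
        have e : (X : ℤ) ^ 3 + 8 * Z ^ 3 - ((X : ℤ) ^ 3 - Z ^ 3) = 9 * Z ^ 3 := by ring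
        rwa [e] at this
      rcases hpP.dvd_mul.1 h4 with h5 | h5
      · have h6 : p ∣ 3 ^ 2 := by
          have : (p : ℤ) ∣ ((3 ^ 2 : ℕ) : ℤ) := by norm_num; exact h5
          exact_mod_cast this
        exact hp3 ((Nat.prime_dvd_prime_iff_eq hp Nat.prime_three).1 (hp.dvd_of_dvd_pow h6))
      · exact hpZ (by exact_mod_cast hpP.dvd_of_dvd_pow h5)
  have hXR : (0 : ℝ) < X := by exact_mod_cast hX0
  have hZR : (0 : ℝ) < Z := by exact_mod_cast hZ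
  have hYR : (0 : ℝ) < Y := by exact_mod_cast hY
  have hZX : (Z : ℝ) ≤ X := by exact_mod_cast (show Z ≤ X by omega)
  have hYX : (Y : ℝ) ≤ X := by exact_mod_cast (show Y ≤ X by omega)
  have hZX2 : (Z : ℝ) ^ 2 ≤ X ^ 2 := pow_le_pow_left₀ hZR.le hZX 2
  have hZX3 : (Z : ℝ) ^ 3 ≤ X ^ 3 := pow_le_pow_left₀ hZR.le hZX 3
  have hZX6 : (Z : ℝ) ^ 6 ≤ X ^ 6 := pow_le_pow_left₀ hZR.le hZX 6
  have hvle : (v : ℝ) ≤ 9 * (X : ℝ) ^ 4 := by
    rw [hv]; push_cast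
    calc (X : ℝ) * (X ^ 3 + 8 * Z ^ 3) ≤ X * (X ^ 3 + 8 * X ^ 3) := by gcongr
      _ = _ := by ring
  have hvge : (X : ℝ) ^ 4 ≤ v := by
    rw [hv]; push_cast
    have : (0 : ℝ) ≤ X * (8 * Z ^ 3) := by positivity
    nlinarith
  have hXq : (X : ℝ) ^ 2 + X * Z + Z ^ 2 ≤ 3 * X ^ 2 := by nlinarith
  have hwle : (w : ℝ) ≤ 29 * (X : ℝ) ^ 6 := by
    rw [hw, Nat.cast_natAbs, hzI]
    push_cast
    have g3 : (X : ℝ) ^ 3 * Z ^ 3 ≤ X ^ 6 := by
      calc (X : ℝ) ^ 3 * Z ^ 3 ≤ X ^ 3 * X ^ 3 := by gcongr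
        _ = _ := by ring
    have g4 : (0 : ℝ) ≤ (X : ℝ) ^ 3 * Z ^ 3 := by positivity
    have g5 : (0 : ℝ) ≤ (Z : ℝ) ^ 6 := by positivity
    have g6 : (0 : ℝ) ≤ (X : ℝ) ^ 6 := by positivity
    rw [abs_le]
    constructor <;> nlinarith
  have hu3 : 0 < u ^ 3 := by positivity
  have hw2 : 0 < w ^ 2 := by have := Nat.pos_of_ne_zero hw0; positivity
  have hcop : Nat.Coprime (u ^ 3) (w ^ 2) := by
    have h1 : Nat.Coprime (u ^ 3) (v ^ 3) := (coprime_of huv).pow 3 3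
    rw [← hid] at h1
    simpa using h1
  refine ⟨u ^ 3, w ^ 2, v ^ 3, hu3, hw2, hid, hcop, ?_, ?_, ?_, ?_, ?_, ?_⟩
  · refine ⟨w, u, v, ?_⟩
    rw [one_mul, one_mul, one_mul]
    show u ^ 3 ::ₘ w ^ 2 ::ₘ {v ^ 3} = w ^ 2 ::ₘ u ^ 3 ::ₘ {v ^ 3}
    rw [Multiset.cons_swap]
  · have : Z ∣ u := by rw [hu]; exact ⟨4 * (Y * (X ^ 2 + X * Z + Z ^ 2)), by ring⟩
    exact (this.trans (dvd_pow_self u (by norm_num))).mul_left 6
  · -- closeness
    have hule : (u : ℝ) ≤ 12 * Z * X ^ 3 := by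
      rw [hu]; push_cast
      calc (4 : ℝ) * Z * (Y * (X ^ 2 + X * Z + Z ^ 2)) ≤ 4 * Z * (X * (3 * X ^ 2)) := by gcongr
        _ = _ := by ring
    push_cast
    calc (u : ℝ) ^ 3 * X ≤ (12 * (Z : ℝ) * (X : ℝ) ^ 3) ^ 3 * X := by gcongr
      _ = 1728 * (Z : ℝ) * ((Z : ℝ) ^ 2 * (X : ℝ) ^ 10) := by ring
      _ ≤ 1728 * (Z : ℝ) * ((X : ℝ) ^ 2 * (X : ℝ) ^ 10) := by gcongr
      _ = 1728 * (Z : ℝ) * ((X : ℝ) ^ 4) ^ 3 := by ring
      _ ≤ 2000 * (Z : ℝ) * (v : ℝ) ^ 3 := by gcongr; norm_num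
  · push_cast
    calc (X : ℝ) ^ 12 = ((X : ℝ) ^ 4) ^ 3 := by ring
      _ ≤ (v : ℝ) ^ 3 := by gcongr
      _ ≤ 2000 * (v : ℝ) ^ 3 := by
          have : (0 : ℝ) ≤ (v : ℝ) ^ 3 := by positivity
          linarith
  · push_cast
    calc (v : ℝ) ^ 3 ≤ (9 * (X : ℝ) ^ 4) ^ 3 := by gcongr
      _ = 729 * (X : ℝ) ^ 12 := by ring
      _ ≤ 2000 * (X : ℝ) ^ 12 := by gcongr; norm_num
  · have hn0 : X * Y * Z ≠ 0 := by positivity
    have hW0 : 2 * (X ^ 2 + X * Z + Z ^ 2) * (X ^ 3 + 8 * Z ^ 3) * w ≠ 0 := by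
      have := Nat.pos_of_ne_zero hw0
      positivity
    have hRb := R_bound (m := u ^ 3 * w ^ 2 * v ^ 3) hn0 hW0 (by
      intro p hp hd
      have h1 : p ∣ u * w * v := by
        rcases hp.dvd_mul.1 hd with hd | hd
        · rcases hp.dvd_mul.1 hd with hd | hd
          · exact ((hp.dvd_of_dvd_pow hd).mul_right _).mul_right _
          · exact ((hp.dvd_of_dvd_pow hd).mul_left _).mul_right _
        · exact (hp.dvd_of_dvd_pow hd).mul_left _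
      have e : u * w * v = 2 * (X * Y * Z * (2 * (X ^ 2 + X * Z + Z ^ 2) * (X ^ 3 + 8 * Z ^ 3) * w)) := by
        rw [hu, hv]; ring
      rw [e] at h1
      rcases hp.dvd_mul.1 h1 with h1 | h1
      · exact (((h1.mul_right _).mul_right _).mul_right _).mul_left _
      · exact h1)
    calc (R (u ^ 3 * w ^ 2 * v ^ 3) : ℝ)
        ≤ ((R (X * Y * Z) * (2 * (X ^ 2 + X * Z + Z ^ 2) * (X ^ 3 + 8 * Z ^ 3) * w) : ℕ) : ℝ) := by
          exact_mod_cast hRb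
      _ = R (X * Y * Z) * (2 * ((X : ℝ) ^ 2 + X * Z + Z ^ 2) * (X ^ 3 + 8 * Z ^ 3) * w) := by
          push_cast; ring
      _ ≤ R (X * Y * Z) * (2 * (3 * (X : ℝ) ^ 2) * (X ^ 3 + 8 * X ^ 3) * (29 * X ^ 6)) := by
          gcongr
      _ = 1566 * R (X * Y * Z) * (X : ℝ) ^ 11 := by ring
      _ ≤ 2000 * R (X * Y * Z) * (X : ℝ) ^ (12 - 1) := by
          norm_num
          gcongr
          norm_num

end Pool.Agent.N746.Self
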