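import Mathlib
import Pool.Agent.N746.Self.Sigs

/-!
# The octahedral map
-/

namespace Pool.Agent.N746.Self

open Finset

theorem coprime_XZ {X Y Z : ℕ} (h : Z + Y = X) (hXY : Nat.Coprime X Y) : Nat.Coprime X Z := by
  have : Nat.Coprime (Z + Y) Y := by rw [h]; exact hXY
  rw [Nat.coprime_add_self_left] at this
  rw [← h]
  exact Nat.coprime_self_add_left.2 this.symm

theorem good4 : Good (Sig 2 3 4 1 1 108) 24 6 1 30000 := by
  intro X Y Z h hY hZ hXY h6Z _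
  obtain ⟨hXo, hYo⟩ := both_odd X Y Z h hXY (Dvd.dvd.trans (by norm_num) h6Z)
  have hX0 : 0 < X := by omega
  have hXZ : Nat.Coprime X Z := coprime_XZ h hXY
  set v : ℕ := X * Z * (Y * (X + Z) * (X ^ 2 + Z ^ 2)) with hv
  set f : ℕ := X ^ 8 + 14 * X ^ 4 * Z ^ 4 + Z ^ 8 with hf
  set eI : ℤ := (X : ℤ) ^ 12 - 33 * X ^ 8 * Z ^ 4 - 33 * X ^ 4 * Z ^ 8 + Z ^ 12 with heI
  set w : ℕ := eI.natAbs with hw
  have hXZY : (X : ℤ) = Z + Y := by rw [← h]; push_cast; ring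
  have hYXZ : (Y : ℤ) = X - Z := by rw [hXZY]; ring
  have hvI : (v : ℤ) = X * Z * (X ^ 4 - Z ^ 4) := by
    rw [hv]; push_cast; rw [hYXZ]; ring
  have hid : 108 * v ^ 4 + w ^ 2 = f ^ 3 := by
    have : ((108 * v ^ 4 + w ^ 2 : ℕ) : ℤ) = ((f ^ 3 : ℕ) : ℤ) := by
      rw [hf]
      push_cast
      rw [hw, Int.natAbs_sq, heI, hvI]
      ring
    exact_mod_cast this
  obtain ⟨k, hk⟩ : 2 ∣ Z := Dvd.dvd.trans (by norm_num) h6Z
  have hkZ : (Z : ℤ) = 2 * k := by rw [hk]; push_cast; ring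
  have hzo : Odd eI := by
    have h1 : Odd (X : ℤ) := by exact_mod_cast hXo
    have h2 : Even (33 * (X : ℤ) ^ 8 * Z ^ 4) := ⟨33 * (X : ℤ) ^ 8 * (8 * k ^ 4), by rw [hkZ]; ring⟩
    have h3 : Even (33 * (X : ℤ) ^ 4 * Z ^ 8) := ⟨33 * (X : ℤ) ^ 4 * (128 * k ^ 8), by rw [hkZ]; ring⟩
    have h4 : Even ((Z : ℤ) ^ 12) := ⟨2048 * (k : ℤ) ^ 12, by rw [hkZ]; ring⟩
    exact ((h1.pow.sub_even h2).sub_even h3).add_even h4
  have hw0 : w ≠ 0 := by
    rw [hw, Int.natAbs_ne_zero]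
    intro h0
    rw [h0] at hzo
    exact absurd hzo (by decide)
  have hv0 : 0 < v := by positivity
  have hf0 : 0 < f := by positivity
  have small : ∀ p : ℕ, p.Prime → p ∣ 108 → p ∣ Z := by
    intro p hp hd
    have : p ∣ 6 ^ 3 := hd.trans (by norm_num)
    exact (hp.dvd_of_dvd_pow this).trans h6Z
  have huv : ∀ p : ℕ, p.Prime → p ∣ 108 * v ^ 4 → p ∣ f → False := by
    intro p hp h1 h2
    have hpZ : ¬ p ∣ Z := by
      intro h3
      have h4 : p ∣ X ^ 8 := by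
        have e : f = X ^ 8 + (14 * X ^ 4 * Z ^ 3 + Z ^ 7) * Z := by rw [hf]; ring
        rw [e] at h2
        exact (Nat.dvd_add_left (h3.mul_left _)).1 h2
      have h5 := Nat.dvd_gcd (hp.dvd_of_dvd_pow h4) h3
      rw [hXZ] at h5
      exact hp.one_lt.ne' (Nat.dvd_one.1 h5)
    have hpX : ¬ p ∣ X := by
      intro h3
      have h4 : p ∣ Z ^ 8 := by
        have e : f = (X ^ 7 + 14 * X ^ 3 * Z ^ 4) * X + Z ^ 8 := by rw [hf]; ring
        rw [e] at h2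
        exact (Nat.dvd_add_right (h3.mul_left _)).1 h2
      exact hpZ (hp.dvd_of_dvd_pow h4)
    rcases hp.dvd_mul.1 h1 with h1 | h1
    · exact hpZ (small p hp h1)
    · have h3 := hp.dvd_of_dvd_pow h1
      have hpP : Prime (p : ℤ) := Nat.prime_iff_prime_int.1 hp
      have h4 : (p : ℤ) ∣ X * Z * (X ^ 4 - Z ^ 4) := by rw [← hvI]; exact_mod_cast h3
      rcases hpP.dvd_mul.1 h4 with h4 | h4
      · rcases hpP.dvd_mul.1 h4 with h4 | h4
        · exact hpX (by exact_mod_cast h4)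
        · exact hpZ (by exact_mod_cast h4)
      · have h5 : (p : ℤ) ∣ 2 ^ 4 * (Z : ℤ) ^ 8 := by
          have e : (2 : ℤ) ^ 4 * (Z : ℤ) ^ 8 = (f : ℤ) - (X ^ 4 - Z ^ 4) * (X ^ 4 + 15 * Z ^ 4) := by
            rw [hf]; push_cast; ring
          rw [e]
          exact dvd_sub (by exact_mod_cast h2) (h4.mul_right _)
        rcases hpP.dvd_mul.1 h5 with h5 | h5
        · have h6 : (p : ℤ) ∣ ((2 : ℕ) : ℤ) := by exact_mod_cast hpP.dvd_of_dvd_pow h5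
          have h7 : p ∣ 2 := by exact_mod_cast h6
          exact hpZ (small p hp (h7.trans (by norm_num)))
        · exact hpZ (by exact_mod_cast hpP.dvd_of_dvd_pow h5)
  have hXR : (0 : ℝ) < X := by exact_mod_cast hX0
  have hZR : (0 : ℝ) < Z := by exact_mod_cast hZ
  have hYR : (0 : ℝ) < Y := by exact_mod_cast hY
  have hZX : (Z : ℝ) ≤ X := by exact_mod_cast (show Z ≤ X by omega)
  have hYX : (Y : ℝ) ≤ X := by exact_mod_cast (show Y ≤ X by omega)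
  have hfle : (f : ℝ) ≤ 16 * (X : ℝ) ^ 8 := by
    rw [hf]; push_cast
    calc (X : ℝ) ^ 8 + 14 * X ^ 4 * Z ^ 4 + Z ^ 8 ≤ (X : ℝ) ^ 8 + 14 * X ^ 4 * X ^ 4 + X ^ 8 := by
          gcongr
      _ = _ := by ring
  have hfge : (X : ℝ) ^ 8 ≤ f := by
    rw [hf]; push_cast
    have h1 : (0 : ℝ) ≤ 14 * (X : ℝ) ^ 4 * Z ^ 4 := by positivity
    have h2 : (0 : ℝ) ≤ (Z : ℝ) ^ 8 := by positivity
    linarith
  have hwle : (w : ℝ) ≤ 68 * (X : ℝ) ^ 12 := by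
    rw [hw, Nat.cast_natAbs, heI]
    push_cast
    have g1 : (X : ℝ) ^ 8 * Z ^ 4 ≤ X ^ 12 := by
      calc (X : ℝ) ^ 8 * Z ^ 4 ≤ (X : ℝ) ^ 8 * X ^ 4 := by gcongr
        _ = _ := by ring
    have g2 : (X : ℝ) ^ 4 * Z ^ 8 ≤ X ^ 12 := by
      calc (X : ℝ) ^ 4 * Z ^ 8 ≤ (X : ℝ) ^ 4 * X ^ 8 := by gcongr
        _ = _ := by ring
    have g3 : (Z : ℝ) ^ 12 ≤ X ^ 12 := by gcongr
    have p1 : (0 : ℝ) ≤ (X : ℝ) ^ 8 * Z ^ 4 := by positivity
    have p2 : (0 : ℝ) ≤ (X : ℝ) ^ 4 * Z ^ 8 := by positivity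
    have p3 : (0 : ℝ) ≤ (Z : ℝ) ^ 12 := by positivity
    have p4 : (0 : ℝ) ≤ (X : ℝ) ^ 12 := by positivity
    rw [abs_le]
    constructor <;> nlinarith
  have hv4 : 0 < 108 * v ^ 4 := by positivity
  have hw2 : 0 < w ^ 2 := by have := Nat.pos_of_ne_zero hw0; positivity
  have hcop : Nat.Coprime (108 * v ^ 4) (w ^ 2) := by
    have h1 : Nat.Coprime (108 * v ^ 4) (f ^ 3) := Nat.Coprime.pow_right 3 (coprime_of huv)
    rw [← hid] at h1
    simpa using h1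
  refine ⟨108 * v ^ 4, w ^ 2, f ^ 3, hv4, hw2, hid, hcop, ?_, ?_, ?_, ?_, ?_, ?_⟩
  · refine ⟨w, f, v, ?_⟩
    rw [one_mul, one_mul]
    show 108 * v ^ 4 ::ₘ w ^ 2 ::ₘ {f ^ 3} = w ^ 2 ::ₘ f ^ 3 ::ₘ {108 * v ^ 4}
    rw [Multiset.cons_swap]
    exact congrArg (w ^ 2 ::ₘ ·) (Multiset.pair_comm _ _)
  · have : Z ∣ v := by rw [hv]; exact ⟨X * (Y * (X + Z) * (X ^ 2 + Z ^ 2)), by ring⟩
    exact ((this.trans (dvd_pow_self v (by norm_num))).mul_left 108).mul_left 6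
  · -- closeness
    have hvle : (v : ℝ) ≤ 4 * Z * X ^ 5 := by
      rw [hv]; push_cast
      calc (X : ℝ) * Z * (Y * (X + Z) * (X ^ 2 + Z ^ 2))
          ≤ X * Z * (X * (X + X) * (X ^ 2 + X ^ 2)) := by gcongr
        _ = _ := by ring
    push_cast
    calc 108 * (v : ℝ) ^ 4 * X ≤ 108 * (4 * (Z : ℝ) * (X : ℝ) ^ 5) ^ 4 * X := by gcongr
      _ = 27648 * (Z : ℝ) * ((Z : ℝ) ^ 3 * (X : ℝ) ^ 21) := by ring
      _ ≤ 27648 * (Z : ℝ) * ((X : ℝ) ^ 3 * (X : ℝ) ^ 21) := by gcongr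
      _ = 27648 * (Z : ℝ) * ((X : ℝ) ^ 8) ^ 3 := by ring
      _ ≤ 30000 * (Z : ℝ) * (f : ℝ) ^ 3 := by gcongr; norm_num
  · push_cast
    calc (X : ℝ) ^ 24 = ((X : ℝ) ^ 8) ^ 3 := by ring
      _ ≤ (f : ℝ) ^ 3 := by gcongr
      _ ≤ 30000 * (f : ℝ) ^ 3 := by
          have : (0 : ℝ) ≤ (f : ℝ) ^ 3 := by positivity
          linarith
  · push_cast
    calc (f : ℝ) ^ 3 ≤ (16 * (X : ℝ) ^ 8) ^ 3 := by gcongr
      _ = 4096 * (X : ℝ) ^ 24 := by ring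
      _ ≤ 30000 * (X : ℝ) ^ 24 := by gcongr; norm_num
  · have hn0 : X * Y * Z ≠ 0 := by positivity
    have hW0 : (X + Z) * (X ^ 2 + Z ^ 2) * w * f ≠ 0 := by
      have := Nat.pos_of_ne_zero hw0
      positivity
    have hRb := R_bound (m := 108 * v ^ 4 * w ^ 2 * f ^ 3) hn0 hW0 (by
      intro p hp hd
      have h1 : p ∣ 108 ∨ p ∣ v * w * f := by
        rcases hp.dvd_mul.1 hd with hd | hd
        · rcases hp.dvd_mul.1 hd with hd | hd
          · rcases hp.dvd_mul.1 hd with hd | hd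
            · exact Or.inl hd
            · exact Or.inr (((hp.dvd_of_dvd_pow hd).mul_right _).mul_right _)
          · exact Or.inr (((hp.dvd_of_dvd_pow hd).mul_left _).mul_right _)
        · exact Or.inr ((hp.dvd_of_dvd_pow hd).mul_left _)
      rcases h1 with h1 | h1
      · exact ((small p hp h1).mul_left _).mul_right _
      · have e : v * w * f = X * Y * Z * ((X + Z) * (X ^ 2 + Z ^ 2) * w * f) := by
          rw [hv]; ring
        rwa [e] at h1)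
    calc (R (108 * v ^ 4 * w ^ 2 * f ^ 3) : ℝ)
        ≤ ((R (X * Y * Z) * ((X + Z) * (X ^ 2 + Z ^ 2) * w * f) : ℕ) : ℝ) := by
          exact_mod_cast hRb
      _ = R (X * Y * Z) * (((X : ℝ) + Z) * (X ^ 2 + Z ^ 2) * w * f) := by
          push_cast; ring
      _ ≤ R (X * Y * Z) * (((X : ℝ) + X) * (X ^ 2 + X ^ 2) * (68 * X ^ 12) * (16 * X ^ 8)) := by
          gcongr
      _ = 4352 * R (X * Y * Z) * (X : ℝ) ^ 23 := by ring
      _ ≤ 30000 * R (X * Y * Z) * (X : ℝ) ^ (24 - 1) := by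
          norm_num
          gcongr
          norm_num

end Pool.Agent.N746.Self
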