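import Mathlib
import Pool.Agent.N746.Self.Sigs4

/-!
# The icosahedral map
-/

namespace Pool.Agent.N746.Self

open Finset

/-- inequalities for the icosahedral forms in `u = x ^ 5`, `v = y ^ 5` -/
theorem icosa_bounds (u v : ℝ) (hv : 0 ≤ v) (h : 1000 * v ≤ u) :
    u ^ 2 ≤ u ^ 2 + 11 * u * v - v ^ 2 ∧ u ^ 2 + 11 * u * v - v ^ 2 ≤ 12 * u ^ 2 ∧
    u ^ 4 / 2 ≤ u ^ 4 + v ^ 4 - 228 * (u ^ 3 * v - u * v ^ 3) + 494 * u ^ 2 * v ^ 2 ∧
    u ^ 4 + v ^ 4 - 228 * (u ^ 3 * v - u * v ^ 3) + 494 * u ^ 2 * v ^ 2 ≤ 724 * u ^ 4 ∧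
    u ^ 6 / 2 ≤ u ^ 6 + v ^ 6 + 522 * (u ^ 5 * v - u * v ^ 5) - 10005 * (u ^ 4 * v ^ 2 + u ^ 2 * v ^ 4) ∧
    u ^ 6 + v ^ 6 + 522 * (u ^ 5 * v - u * v ^ 5) - 10005 * (u ^ 4 * v ^ 2 + u ^ 2 * v ^ 4) ≤ 524 * u ^ 6 ∧
    |u ^ 4 + 522 * u ^ 3 * v - 10006 * u ^ 2 * v ^ 2 - 522 * u * v ^ 3 + v ^ 4| ≤ 11052 * u ^ 4 := by
  have hu : 0 ≤ u := by linarith
  have hvu : v ≤ u := by linarith
  have hv' : v ≤ u / 1000 := by linarith
  have p2 : v ^ 2 ≤ (u / 1000) ^ 2 := pow_le_pow_left₀ hv hv' 2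
  have p4 : v ^ 4 ≤ (u / 1000) ^ 4 := pow_le_pow_left₀ hv hv' 4
  have p5 : v ^ 5 ≤ (u / 1000) ^ 5 := pow_le_pow_left₀ hv hv' 5
  have q1 : u ^ 3 * v ≤ u ^ 3 * (u / 1000) := mul_le_mul_of_nonneg_left hv' (by positivity)
  have q2 : u ^ 4 * v ^ 2 ≤ u ^ 4 * (u / 1000) ^ 2 := mul_le_mul_of_nonneg_left p2 (by positivity)
  have q3 : u ^ 2 * v ^ 4 ≤ u ^ 2 * (u / 1000) ^ 4 := mul_le_mul_of_nonneg_left p4 (by positivity)
  have q4 : u * v ^ 5 ≤ u * (u / 1000) ^ 5 := mul_le_mul_of_nonneg_left p5 hu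
  have a1 : u * v ^ 3 ≤ u ^ 4 := by
    calc u * v ^ 3 ≤ u * u ^ 3 := by gcongr
      _ = _ := by ring
  have a2 : u ^ 2 * v ^ 2 ≤ u ^ 4 := by
    calc u ^ 2 * v ^ 2 ≤ u ^ 2 * u ^ 2 := by gcongr
      _ = _ := by ring
  have a3 : v ^ 4 ≤ u ^ 4 := by gcongr
  have a4 : u ^ 5 * v ≤ u ^ 6 := by
    calc u ^ 5 * v ≤ u ^ 5 * u := by gcongr
      _ = _ := by ring
  have a5 : v ^ 6 ≤ u ^ 6 := by gcongr
  have a6 : u ^ 3 * v ≤ u ^ 4 := by
    calc u ^ 3 * v ≤ u ^ 3 * u := by gcongr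
      _ = _ := by ring
  have a7 : u * v ≤ u ^ 2 := by
    calc u * v ≤ u * u := by gcongr
      _ = _ := by ring
  have a8 : v ^ 2 ≤ u * v := by
    calc v ^ 2 = v * v := by ring
      _ ≤ _ := by gcongr
  have n1 : 0 ≤ u * v := by positivity
  have n2 : 0 ≤ v ^ 2 := by positivity
  have n3 : 0 ≤ v ^ 4 := by positivity
  have n4 : 0 ≤ u * v ^ 3 := by positivity
  have n5 : 0 ≤ u ^ 2 * v ^ 2 := by positivity
  have n6 : 0 ≤ u ^ 4 := by positivity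
  have n7 : 0 ≤ u ^ 6 := by positivity
  have n8 : 0 ≤ u ^ 5 * v := by positivity
  have n9 : 0 ≤ v ^ 6 := by positivity
  have n10 : 0 ≤ u ^ 3 * v := by positivity
  have n11 : 0 ≤ u * v ^ 5 := by positivity
  have n12 : 0 ≤ u ^ 4 * v ^ 2 := by positivity
  have n13 : 0 ≤ u ^ 2 * v ^ 4 := by positivity
  have e1 : u ^ 3 * (u / 1000) = u ^ 4 / 1000 := by ring
  have e2 : u ^ 4 * (u / 1000) ^ 2 = u ^ 6 / 1000 ^ 2 := by ring
  have e3 : u ^ 2 * (u / 1000) ^ 4 = u ^ 6 / 1000 ^ 4 := by ring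
  have e4 : u * (u / 1000) ^ 5 = u ^ 6 / 1000 ^ 5 := by ring
  rw [e1] at q1
  rw [e2] at q2
  rw [e3] at q3
  rw [e4] at q4
  refine ⟨by linarith, by linarith, by linarith, by linarith, by linarith, by linarith, ?_⟩
  rw [abs_le]
  constructor <;> linarith

theorem good5 : Good (Sig 2 3 5 1 1 1728) 120 30 (1 / 1000) (1728 * 24 ^ 5 * 2 ^ 62) := by
  intro X Y Z h hY hZ hXY h30Z hsmall
  have hX0 : 0 < X := by omega
  have hXZ : Nat.Coprime X Z := coprime_XZ h hXY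
  set x : ℕ := Y * (X + Z) with hx
  set y : ℕ := 2 * X * Z with hy
  set u : ℕ := x ^ 5 with hu
  set v : ℕ := y ^ 5 with hv
  set gI : ℤ := (u : ℤ) ^ 2 + 11 * u * v - v ^ 2 with hgI
  set HI : ℤ := (u : ℤ) ^ 4 + v ^ 4 - 228 * (u ^ 3 * v - u * v ^ 3) + 494 * u ^ 2 * v ^ 2 with hHI
  set TI : ℤ := (u : ℤ) ^ 6 + v ^ 6 + 522 * (u ^ 5 * v - u * v ^ 5) -
    10005 * (u ^ 4 * v ^ 2 + u ^ 2 * v ^ 4) with hTI
  set qI : ℤ := (u : ℤ) ^ 4 + 522 * u ^ 3 * v - 10006 * u ^ 2 * v ^ 2 - 522 * u * v ^ 3 + v ^ 4 with hqI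
  set oI : ℤ := (x : ℤ) ^ 8 - x ^ 6 * y ^ 2 + x ^ 4 * y ^ 4 - x ^ 2 * y ^ 6 + y ^ 8 with hoI
  have hXZY : (X : ℤ) = Z + Y := by rw [← h]; push_cast; ring
  have hYXZ : (Y : ℤ) = X - Z := by rw [hXZY]; ring
  -- real estimates
  have hXR : (0 : ℝ) < X := by exact_mod_cast hX0
  have hX1 : (1 : ℝ) ≤ X := by exact_mod_cast hX0
  have hZR : (0 : ℝ) < Z := by exact_mod_cast hZ
  have hYR : (0 : ℝ) < Y := by exact_mod_cast hY
  have hZX : (Z : ℝ) ≤ X := by exact_mod_cast (show Z ≤ X by omega)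
  have hYRe : (Y : ℝ) = X - Z := by
    have : ((Z + Y : ℕ) : ℝ) = X := by rw [h]
    push_cast at this
    linarith
  have hxR : (x : ℝ) = X ^ 2 - Z ^ 2 := by rw [hx]; push_cast; rw [hYRe]; ring
  have hyR : (y : ℝ) = 2 * X * Z := by rw [hy]; push_cast; ring
  have hx0 : 0 < x := by positivity
  have hy0 : 0 < y := by positivity
  have hxR0 : (0 : ℝ) < x := by exact_mod_cast hx0
  have hyR0 : (0 : ℝ) < y := by exact_mod_cast hy0
  have hxle : (x : ℝ) ≤ X ^ 2 := by rw [hxR]; nlinarith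
  have hxge : (X : ℝ) ^ 2 / 2 ≤ x := by rw [hxR]; nlinarith
  have hyx : 250 * (y : ℝ) ≤ x := by
    rw [hyR]
    nlinarith
  have huR : (u : ℝ) = (x : ℝ) ^ 5 := by rw [hu]; push_cast; ring
  have hvR : (v : ℝ) = (y : ℝ) ^ 5 := by rw [hv]; push_cast; ring
  have hvu : 1000 * (v : ℝ) ≤ u := by
    rw [huR, hvR]
    calc 1000 * (y : ℝ) ^ 5 ≤ (250 * (y : ℝ)) ^ 5 := by
          have : (0 : ℝ) ≤ (y : ℝ) ^ 5 := by positivity
          nlinarith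
      _ ≤ (x : ℝ) ^ 5 := by gcongr
  have hv0R : (0 : ℝ) ≤ v := Nat.cast_nonneg _
  have hu0 : 0 < u := by positivity
  have hu0R : (0 : ℝ) < u := by exact_mod_cast hu0
  have hule : (u : ℝ) ≤ (X : ℝ) ^ 10 := by
    rw [huR]
    calc (x : ℝ) ^ 5 ≤ ((X : ℝ) ^ 2) ^ 5 := by gcongr
      _ = _ := by ring
  have huge : (X : ℝ) ^ 10 / 32 ≤ u := by
    rw [huR]
    calc (X : ℝ) ^ 10 / 32 = ((X : ℝ) ^ 2 / 2) ^ 5 := by ring
      _ ≤ (x : ℝ) ^ 5 := by gcongr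
  obtain ⟨g1, g2, H1, H2, T1, T2, Q2⟩ := icosa_bounds u v hv0R hvu
  have hgR : ((gI : ℤ) : ℝ) = (u : ℝ) ^ 2 + 11 * u * v - v ^ 2 := by rw [hgI]; push_cast; ring
  have hHR : ((HI : ℤ) : ℝ) = (u : ℝ) ^ 4 + v ^ 4 - 228 * (u ^ 3 * v - u * v ^ 3) + 494 * u ^ 2 * v ^ 2 := by
    rw [hHI]; push_cast; ring
  have hTR : ((TI : ℤ) : ℝ) = (u : ℝ) ^ 6 + v ^ 6 + 522 * (u ^ 5 * v - u * v ^ 5) -
      10005 * (u ^ 4 * v ^ 2 + u ^ 2 * v ^ 4) := by rw [hTI]; push_cast; ring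
  have hqR : ((qI : ℤ) : ℝ) = (u : ℝ) ^ 4 + 522 * u ^ 3 * v - 10006 * u ^ 2 * v ^ 2 - 522 * u * v ^ 3 + v ^ 4 := by
    rw [hqI]; push_cast; ring
  rw [← hgR] at g1 g2
  rw [← hHR] at H1 H2
  rw [← hTR] at T1 T2
  rw [← hqR] at Q2
  have hg0 : 0 < gI := by
    have : (0 : ℝ) < gI := lt_of_lt_of_le (by positivity) g1
    exact_mod_cast this
  have hH0 : 0 < HI := by
    have : (0 : ℝ) < HI := lt_of_lt_of_le (by positivity) H1
    exact_mod_cast this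
  have hT0 : 0 < TI := by
    have : (0 : ℝ) < TI := lt_of_lt_of_le (by positivity) T1
    exact_mod_cast this
  obtain ⟨g, hg⟩ : ∃ g : ℕ, (g : ℤ) = gI := ⟨gI.natAbs, Int.natAbs_of_nonneg hg0.le⟩
  obtain ⟨H, hH⟩ : ∃ H : ℕ, (H : ℤ) = HI := ⟨HI.natAbs, Int.natAbs_of_nonneg hH0.le⟩
  obtain ⟨T, hT⟩ : ∃ T : ℕ, (T : ℤ) = TI := ⟨TI.natAbs, Int.natAbs_of_nonneg hT0.le⟩
  have hg0' : 0 < g := by have : (0 : ℤ) < g := by rw [hg]; exact hg0
                          exact_mod_cast this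
  have hH0' : 0 < H := by have : (0 : ℤ) < H := by rw [hH]; exact hH0
                          exact_mod_cast this
  have hT0' : 0 < T := by have : (0 : ℤ) < T := by rw [hT]; exact hT0
                          exact_mod_cast this
  have hgR' : (g : ℝ) = (gI : ℝ) := by rw [← hg]; push_cast; ring
  have hHR' : (H : ℝ) = (HI : ℝ) := by rw [← hH]; push_cast; ring
  have hTR' : (T : ℝ) = (TI : ℝ) := by rw [← hT]; push_cast; ring
  rw [← hgR'] at g1 g2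
  rw [← hHR'] at H1 H2
  rw [← hTR'] at T1 T2
  set f : ℕ := x * y * g with hf
  have hf0 : 0 < f := by positivity
  have hid : 1728 * f ^ 5 + H ^ 3 = T ^ 2 := by
    have e : f ^ 5 = u * v * g ^ 5 := by rw [hf, hu, hv]; ring
    rw [e]
    have : ((1728 * (u * v * g ^ 5) + H ^ 3 : ℕ) : ℤ) = ((T ^ 2 : ℕ) : ℤ) := by
      push_cast
      rw [hg, hH, hT, hgI, hHI, hTI]
      ring
    exact_mod_cast this
  -- the factorisation of `T`
  have hTfac : TI = ((X : ℤ) ^ 2 + Z ^ 2) ^ 2 * oI * qI := by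
    have h1 : (x : ℤ) ^ 2 + y ^ 2 = ((X : ℤ) ^ 2 + Z ^ 2) ^ 2 := by
      rw [hx, hy]; push_cast; rw [hYXZ]; ring
    have h2 : (u : ℤ) ^ 2 + v ^ 2 = ((x : ℤ) ^ 2 + y ^ 2) * oI := by
      rw [hu, hv, hoI]; push_cast; ring
    have h3 : TI = ((u : ℤ) ^ 2 + v ^ 2) * qI := by rw [hTI, hqI]; ring
    rw [h3, h2, h1]
  have hq0 : qI ≠ 0 := by
    intro h0
    rw [h0, mul_zero] at hTfac
    exact hT0.ne' hTfac
  have ho0 : oI ≠ 0 := by
    intro h0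
    rw [h0, mul_zero, zero_mul] at hTfac
    exact hT0.ne' hTfac
  have small : ∀ p : ℕ, p.Prime → p ∣ 30 ^ 6 → p ∣ Z := fun p hp hd =>
    (hp.dvd_of_dvd_pow hd).trans h30Z
  -- coprimality
  have notboth : ∀ p : ℕ, p.Prime → p ∣ x → p ∣ y → False := by
    intro p hp h1 h2
    have h3 : p ∣ X ∨ p ∣ Z := by
      rw [hy] at h2
      rcases hp.dvd_mul.1 h2 with h2 | h2
      · rcases hp.dvd_mul.1 h2 with h2 | h2
        · exact Or.inr (small p hp (h2.trans (by norm_num)))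
        · exact Or.inl h2
      · exact Or.inr h2
    have key : ¬ (p ∣ X ∧ p ∣ Z) := by
      rintro ⟨k1, k2⟩
      have := Nat.dvd_gcd k1 k2
      rw [hXZ] at this
      exact hp.one_lt.ne' (Nat.dvd_one.1 this)
    rw [hx] at h1
    rcases hp.dvd_mul.1 h1 with h1 | h1
    · -- `p ∣ Y = X - Z`
      rcases h3 with h3 | h3
      · refine key ⟨h3, ?_⟩
        have : p ∣ X - Y := Nat.dvd_sub h3 h1
        rwa [show X - Y = Z by omega] at this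
      · refine key ⟨?_, h3⟩
        rw [← h]; exact dvd_add h3 h1
    · rcases h3 with h3 | h3
      · exact key ⟨h3, (Nat.dvd_add_right h3).1 h1⟩
      · exact key ⟨(Nat.dvd_add_left h3).1 h1, h3⟩
  have hcopp : ∀ p : ℕ, p.Prime → p ∣ 1728 * f ^ 5 → p ∣ H ^ 3 → False := by
    intro p hp h1 h2
    have hpP : Prime (p : ℤ) := Nat.prime_iff_prime_int.1 hp
    have hpH : (p : ℤ) ∣ HI := by
      rw [← hH]; exact_mod_cast hp.dvd_of_dvd_pow h2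
    have case_y : ¬ p ∣ y := by
      intro hy'
      have hv' : (p : ℤ) ∣ v := by
        have : p ∣ v := by rw [hv]; exact hy'.trans (dvd_pow_self y (by norm_num))
        exact_mod_cast this
      have h3 : (p : ℤ) ∣ (u : ℤ) ^ 4 := by
        have e : (u : ℤ) ^ 4 = HI - (v ^ 3 - 228 * (u ^ 3 - u * v ^ 2) + 494 * u ^ 2 * v) * v := by
          rw [hHI]; ring
        rw [e]; exact dvd_sub hpH (hv'.mul_left _)
      have h4 : p ∣ u := by exact_mod_cast hpP.dvd_of_dvd_pow h3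
      rw [hu] at h4
      exact notboth p hp (hp.dvd_of_dvd_pow h4) hy'
    have case_x : ¬ p ∣ x := by
      intro hx'
      have hu' : (p : ℤ) ∣ u := by
        have : p ∣ u := by rw [hu]; exact hx'.trans (dvd_pow_self x (by norm_num))
        exact_mod_cast this
      have h3 : (p : ℤ) ∣ (v : ℤ) ^ 4 := by
        have e : (v : ℤ) ^ 4 = HI - (u ^ 3 - 228 * (u ^ 2 * v - v ^ 3) + 494 * u * v ^ 2) * u := by
          rw [hHI]; ring
        rw [e]; exact dvd_sub hpH (hu'.mul_left _)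
      have h4 : p ∣ v := by exact_mod_cast hpP.dvd_of_dvd_pow h3
      rw [hv] at h4
      exact notboth p hp hx' (hp.dvd_of_dvd_pow h4)
    have case_Z : ¬ p ∣ Z := fun hz => case_y (by rw [hy]; exact hz.mul_left _)
    rcases hp.dvd_mul.1 h1 with h1 | h1
    · exact case_Z (small p hp (h1.trans (by norm_num)))
    · have h3 := hp.dvd_of_dvd_pow h1
      rw [hf] at h3
      rcases hp.dvd_mul.1 h3 with h3 | h3
      · rcases hp.dvd_mul.1 h3 with h3 | h3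
        · exact case_x h3
        · exact case_y h3
      · have hpg : (p : ℤ) ∣ gI := by rw [← hg]; exact_mod_cast h3
        have h4 : (p : ℤ) ∣ 5 ^ 5 * ((v : ℤ) ^ 3 * (11 * u - v)) := by
          have e : (5 : ℤ) ^ 5 * ((v : ℤ) ^ 3 * (11 * u - v)) =
              -HI + (u ^ 2 - 239 * u * v + 3124 * v ^ 2) * gI := by
            rw [hHI, hgI]; ring
          rw [e]
          exact dvd_add (hpH.neg_right) (hpg.mul_left _)
        rcases hpP.dvd_mul.1 h4 with h5 | h5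
        · have h6 : (p : ℤ) ∣ ((5 : ℕ) : ℤ) := by exact_mod_cast hpP.dvd_of_dvd_pow h5
          have h7 : p ∣ 5 := by exact_mod_cast h6
          exact case_Z (small p hp (h7.trans (by norm_num)))
        · rcases hpP.dvd_mul.1 h5 with h6 | h6
          · have h7 : p ∣ v := by exact_mod_cast hpP.dvd_of_dvd_pow h6
            rw [hv] at h7
            exact case_y (hp.dvd_of_dvd_pow h7)
          · have h7 : (p : ℤ) ∣ (u : ℤ) ^ 2 := by
              have e : (u : ℤ) ^ 2 = gI - v * (11 * u - v) := by rw [hgI]; ring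
              rw [e]; exact dvd_sub hpg (h6.mul_left _)
            have h8 : p ∣ u := by exact_mod_cast hpP.dvd_of_dvd_pow h7
            rw [hu] at h8
            exact case_x (hp.dvd_of_dvd_pow h8)
  have hKbig : (1 : ℝ) ≤ 1728 * 24 ^ 5 := by norm_num
  have hXp : (0 : ℝ) < (X : ℝ) ^ 120 := by positivity
  have hTge : (X : ℝ) ^ 60 / 2 ^ 31 ≤ T := by
    calc (X : ℝ) ^ 60 / 2 ^ 31 = ((X : ℝ) ^ 10 / 32) ^ 6 / 2 := by ring
      _ ≤ (u : ℝ) ^ 6 / 2 := by gcongr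
      _ ≤ T := T1
  have hTge2 : (X : ℝ) ^ 120 ≤ 2 ^ 62 * (T : ℝ) ^ 2 := by
    have h1 : ((X : ℝ) ^ 60 / 2 ^ 31) ^ 2 ≤ (T : ℝ) ^ 2 := by gcongr
    have h2 : ((X : ℝ) ^ 60 / 2 ^ 31) ^ 2 = (X : ℝ) ^ 120 / 2 ^ 62 := by ring
    rw [h2, div_le_iff₀ (by positivity)] at h1
    linarith
  have hgle : (g : ℝ) ≤ 12 * (X : ℝ) ^ 20 := by
    calc (g : ℝ) ≤ 12 * (u : ℝ) ^ 2 := g2
      _ ≤ 12 * ((X : ℝ) ^ 10) ^ 2 := by gcongr
      _ = _ := by ring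
  refine ⟨1728 * f ^ 5, H ^ 3, T ^ 2, by positivity, by positivity, hid, coprime_of hcopp, ?_, ?_, ?_, ?_,
    ?_, ?_⟩
  · refine ⟨T, H, f, ?_⟩
    rw [one_mul, one_mul]
    show 1728 * f ^ 5 ::ₘ H ^ 3 ::ₘ {T ^ 2} = T ^ 2 ::ₘ H ^ 3 ::ₘ {1728 * f ^ 5}
    have h1 : H ^ 3 ::ₘ ({T ^ 2} : Multiset ℕ) = T ^ 2 ::ₘ {H ^ 3} := Multiset.pair_comm _ _
    rw [h1, Multiset.cons_swap]
    exact congrArg (T ^ 2 ::ₘ ·) (Multiset.pair_comm _ _)
  · have : Z ∣ f := by rw [hf, hy]; exact ⟨x * (2 * X) * g, by ring⟩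
    exact ((this.trans (dvd_pow_self f (by norm_num))).mul_left 1728).mul_left 30
  · -- closeness
    have hfle : (f : ℝ) ≤ 24 * Z * X ^ 23 := by
      rw [hf]; push_cast
      calc (x : ℝ) * y * g ≤ X ^ 2 * (2 * X * Z) * (12 * X ^ 20) := by
            rw [hyR]; gcongr
        _ = _ := by ring
    push_cast
    calc 1728 * (f : ℝ) ^ 5 * X ≤ 1728 * (24 * (Z : ℝ) * (X : ℝ) ^ 23) ^ 5 * X := by gcongr
      _ = 1728 * 24 ^ 5 * (Z : ℝ) * ((Z : ℝ) ^ 4 * (X : ℝ) ^ 116) := by ring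
      _ ≤ 1728 * 24 ^ 5 * (Z : ℝ) * ((X : ℝ) ^ 4 * (X : ℝ) ^ 116) := by gcongr
      _ = 1728 * 24 ^ 5 * (Z : ℝ) * (X : ℝ) ^ 120 := by ring
      _ ≤ 1728 * 24 ^ 5 * (Z : ℝ) * (2 ^ 62 * (T : ℝ) ^ 2) := by gcongr
      _ = 1728 * 24 ^ 5 * 2 ^ 62 * (Z : ℝ) * (T : ℝ) ^ 2 := by ring
  · push_cast
    calc (X : ℝ) ^ 120 ≤ 2 ^ 62 * (T : ℝ) ^ 2 := hTge2
      _ ≤ 1728 * 24 ^ 5 * (2 ^ 62 * (T : ℝ) ^ 2) := le_mul_of_one_le_left (by positivity) hKbig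
      _ = _ := by ring
  · push_cast
    calc (T : ℝ) ^ 2 ≤ (524 * (u : ℝ) ^ 6) ^ 2 := by gcongr
      _ ≤ (524 * ((X : ℝ) ^ 10) ^ 6) ^ 2 := by gcongr
      _ = 524 ^ 2 * (X : ℝ) ^ 120 := by ring
      _ ≤ 1728 * 24 ^ 5 * 2 ^ 62 * (X : ℝ) ^ 120 := by gcongr; norm_num
  · have hn0 : X * Y * Z ≠ 0 := by positivity
    set w : ℕ := (X + Z) * g * H * ((X ^ 2 + Z ^ 2) * oI.natAbs * qI.natAbs) with hw
    have hW0 : w ≠ 0 := by
      have h1 : 0 < oI.natAbs := Int.natAbs_pos.2 ho0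
      have h2 : 0 < qI.natAbs := Int.natAbs_pos.2 hq0
      positivity
    have hRb := R_bound (m := 1728 * f ^ 5 * H ^ 3 * T ^ 2) hn0 hW0 (by
      intro p hp hd
      have h1 : p ∣ Z ∨ p ∣ f ∨ p ∣ H ∨ p ∣ T := by
        rcases hp.dvd_mul.1 hd with hd | hd
        · rcases hp.dvd_mul.1 hd with hd | hd
          · rcases hp.dvd_mul.1 hd with hd | hd
            · exact Or.inl (small p hp (hd.trans (by norm_num)))
            · exact Or.inr (Or.inl (hp.dvd_of_dvd_pow hd))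
          · exact Or.inr (Or.inr (Or.inl (hp.dvd_of_dvd_pow hd)))
        · exact Or.inr (Or.inr (Or.inr (hp.dvd_of_dvd_pow hd)))
      rcases h1 with h1 | h1 | h1 | h1
      · exact (h1.mul_left _).mul_right _
      · have e : f = 2 * (X * Y * Z * ((X + Z) * g)) := by rw [hf, hx, hy]; ring
        rw [e] at h1
        rcases hp.dvd_mul.1 h1 with h1 | h1
        · exact ((small p hp (h1.trans (by norm_num))).mul_left _).mul_right _
        · refine h1.trans (mul_dvd_mul_left _ ?_)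
          exact ⟨H * ((X ^ 2 + Z ^ 2) * oI.natAbs * qI.natAbs), by rw [hw]; ring⟩
      · refine (h1.trans ?_).mul_left _
        exact ⟨(X + Z) * g * ((X ^ 2 + Z ^ 2) * oI.natAbs * qI.natAbs), by rw [hw]; ring⟩
      · have e : T = (X ^ 2 + Z ^ 2) ^ 2 * oI.natAbs * qI.natAbs := by
          have h2 := congrArg Int.natAbs hTfac
          rw [← hT] at h2
          rw [Int.natAbs_natCast, Int.natAbs_mul, Int.natAbs_mul, Int.natAbs_pow] at h2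
          have h3 : ((X : ℤ) ^ 2 + Z ^ 2).natAbs = X ^ 2 + Z ^ 2 := by
            have : ((X : ℤ) ^ 2 + Z ^ 2) = ((X ^ 2 + Z ^ 2 : ℕ) : ℤ) := by push_cast; ring
            rw [this, Int.natAbs_natCast]
          rw [h3] at h2
          exact h2
        rw [e] at h1
        have h4 : p ∣ (X ^ 2 + Z ^ 2) * oI.natAbs * qI.natAbs := by
          rcases hp.dvd_mul.1 h1 with h1 | h1
          · rcases hp.dvd_mul.1 h1 with h1 | h1
            · exact ((hp.dvd_of_dvd_pow h1).mul_right _).mul_right _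
            · exact (h1.mul_left _).mul_right _
          · exact h1.mul_left _
        refine (h4.trans ?_).mul_left _
        exact ⟨(X + Z) * g * H, by rw [hw]; ring⟩)
    have hHle : (H : ℝ) ≤ 724 * (X : ℝ) ^ 40 := by
      calc (H : ℝ) ≤ 724 * (u : ℝ) ^ 4 := H2
        _ ≤ 724 * ((X : ℝ) ^ 10) ^ 4 := by gcongr
        _ = _ := by ring
    have hqle : (qI.natAbs : ℝ) ≤ 11052 * (X : ℝ) ^ 40 := by
      rw [Nat.cast_natAbs]
      push_cast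
      calc |(qI : ℝ)| ≤ 11052 * (u : ℝ) ^ 4 := Q2
        _ ≤ 11052 * ((X : ℝ) ^ 10) ^ 4 := by gcongr
        _ = _ := by ring
    have hyx' : (y : ℝ) ≤ x := by linarith
    have hole : (oI.natAbs : ℝ) ≤ 5 * (X : ℝ) ^ 16 := by
      rw [Nat.cast_natAbs]
      push_cast
      rw [hoI]
      push_cast
      have b1 : (x : ℝ) ^ 6 * y ^ 2 ≤ x ^ 8 := by
        calc (x : ℝ) ^ 6 * y ^ 2 ≤ x ^ 6 * x ^ 2 := by gcongr
          _ = _ := by ring
      have b2 : (x : ℝ) ^ 4 * y ^ 4 ≤ x ^ 8 := by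
        calc (x : ℝ) ^ 4 * y ^ 4 ≤ x ^ 4 * x ^ 4 := by gcongr
          _ = _ := by ring
      have b3 : (x : ℝ) ^ 2 * y ^ 6 ≤ x ^ 8 := by
        calc (x : ℝ) ^ 2 * y ^ 6 ≤ x ^ 2 * x ^ 6 := by gcongr
          _ = _ := by ring
      have b4 : (y : ℝ) ^ 8 ≤ x ^ 8 := by gcongr
      have b5 : (x : ℝ) ^ 8 ≤ X ^ 16 := by
        calc (x : ℝ) ^ 8 ≤ ((X : ℝ) ^ 2) ^ 8 := by gcongr
          _ = _ := by ring
      have c1 : (0 : ℝ) ≤ (x : ℝ) ^ 6 * y ^ 2 := by positivity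
      have c2 : (0 : ℝ) ≤ (x : ℝ) ^ 4 * y ^ 4 := by positivity
      have c3 : (0 : ℝ) ≤ (x : ℝ) ^ 2 * y ^ 6 := by positivity
      have c4 : (0 : ℝ) ≤ (y : ℝ) ^ 8 := by positivity
      have c5 : (0 : ℝ) ≤ (x : ℝ) ^ 8 := by positivity
      rw [abs_le]
      constructor <;> linarith
    calc (R (1728 * f ^ 5 * H ^ 3 * T ^ 2) : ℝ) ≤ ((R (X * Y * Z) * w : ℕ) : ℝ) := by
          exact_mod_cast hRb
      _ = R (X * Y * Z) * (((X : ℝ) + Z) * g * H * ((X ^ 2 + Z ^ 2) * oI.natAbs * qI.natAbs)) := by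
          rw [hw]; push_cast; ring
      _ ≤ R (X * Y * Z) * (((X : ℝ) + X) * (12 * (X : ℝ) ^ 20) * (724 * (X : ℝ) ^ 40) *
          ((X ^ 2 + X ^ 2) * (5 * (X : ℝ) ^ 16) * (11052 * (X : ℝ) ^ 40))) := by
          gcongr
      _ = (2 * 12 * 724 * 2 * 5 * 11052) * R (X * Y * Z) * (X : ℝ) ^ 119 := by ring
      _ ≤ 1728 * 24 ^ 5 * 2 ^ 62 * R (X * Y * Z) * (X : ℝ) ^ (120 - 1) := by
          rw [show 120 - 1 = 119 by norm_num]
          apply mul_le_mul_of_nonneg_right _ (by positivity)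
          apply mul_le_mul_of_nonneg_right _ (Nat.cast_nonneg _)
          norm_num

end Pool.Agent.N746.Self
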