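import Mathlib
import Pool.Agent.N746.Self.Sigs5

/-!
# The spherical signatures
-/

namespace Pool.Agent.N746.Self

open Finset Filter

theorem Sig_perm {p q r A B C p' q' r' A' B' C' : ℕ}
    (h : ∀ x y z : ℕ, ({A * x ^ p, B * y ^ q, C * z ^ r} : Multiset ℕ) =
      {A' * x ^ p', B' * z ^ q', C' * y ^ r'} ∨ ({A * x ^ p, B * y ^ q, C * z ^ r} : Multiset ℕ) =
      {A' * y ^ p', B' * x ^ q', C' * z ^ r'}) (a b c : ℕ) :
    Sig p q r A B C a b c → Sig p' q' r' A' B' C' a b c := by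
  rintro ⟨x, y, z, hx⟩
  rcases h x y z with h | h
  · exact ⟨x, z, y, hx.trans h⟩
  · exact ⟨y, x, z, hx.trans h⟩

theorem Sig_swap23 (p q r A B C a b c : ℕ) : Sig p q r A B C a b c → Sig p r q A C B a b c :=
  Sig_perm (fun x y z => Or.inl (congrArg (A * x ^ p ::ₘ ·) (Multiset.pair_comm _ _))) a b c

theorem Sig_swap12 (p q r A B C a b c : ℕ) : Sig p q r A B C a b c → Sig q p r B A C a b c :=
  Sig_perm (fun x y z => Or.inr (by
    show A * x ^ p ::ₘ B * y ^ q ::ₘ {C * z ^ r} = B * y ^ q ::ₘ A * x ^ p ::ₘ {C * z ^ r}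
    rw [Multiset.cons_swap])) a b c

/-- the existence of good maps -/
def HasGood (p q r : ℕ) : Prop :=
  ∃ A B C : ℕ, 0 < A ∧ 0 < B ∧ 0 < C ∧ A * B * C ∣ 1728 ∧ ∃ (d N₀ : ℕ) (δ₀ K : ℝ), 1 ≤ d ∧ 1 ≤ N₀ ∧ 0 < δ₀ ∧
    1 ≤ K ∧ Good (Sig p q r A B C) d N₀ δ₀ K

theorem Good_mono {S S' : ℕ → ℕ → ℕ → Prop} (hS : ∀ a b c, S a b c → S' a b c) {d N₀ : ℕ} {δ₀ K : ℝ}
    (h : Good S d N₀ δ₀ K) : Good S' d N₀ δ₀ K := by
  intro X Y Z h1 h2 h3 h4 h5 h6
  obtain ⟨a, b, c, k1, k2, k3, k4, k5, k6⟩ := h X Y Z h1 h2 h3 h4 h5 h6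
  exact ⟨a, b, c, k1, k2, k3, k4, hS _ _ _ k5, k6⟩

theorem HasGood_swap23 {p q r : ℕ} (h : HasGood p q r) : HasGood p r q := by
  obtain ⟨A, B, C, hA, hB, hC, hd, d, N₀, δ₀, K, h1, h2, h3, h4, h5⟩ := h
  refine ⟨A, C, B, hA, hC, hB, ?_, d, N₀, δ₀, K, h1, h2, h3, h4, Good_mono (Sig_swap23 p q r A B C) h5⟩
  rwa [mul_right_comm]

theorem HasGood_swap12 {p q r : ℕ} (h : HasGood p q r) : HasGood q p r := by
  obtain ⟨A, B, C, hA, hB, hC, hd, d, N₀, δ₀, K, h1, h2, h3, h4, h5⟩ := h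
  refine ⟨B, A, C, hB, hA, hC, ?_, d, N₀, δ₀, K, h1, h2, h3, h4, Good_mono (Sig_swap12 p q r A B C) h5⟩
  rwa [mul_comm B A]

theorem hasGood1 (q r : ℕ) (hq : 1 ≤ q) (hr : 1 ≤ r) : HasGood 1 q r :=
  ⟨1, 1, 1, one_pos, one_pos, one_pos, by norm_num, q * r, 1, 1, (q * r : ℕ), Nat.mul_pos hq hr, le_rfl, one_pos,
    by exact_mod_cast Nat.mul_pos hq hr, good1 q r hq hr⟩

theorem hasGood2 (n : ℕ) (hn : 1 ≤ n) : HasGood 2 2 n :=
  ⟨1, 1, 1, one_pos, one_pos, one_pos, by norm_num, 2 * n, 2, 1, 4 ^ (n + 1), by omega, by norm_num, one_pos,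
    one_le_pow₀ (by norm_num), good2 n hn⟩

theorem hasGood3 : HasGood 2 3 3 :=
  ⟨1, 1, 1, one_pos, one_pos, one_pos, by norm_num, 12, 6, 1, 2000, by norm_num, by norm_num, one_pos,
    by norm_num, good3⟩

theorem hasGood4 : HasGood 2 3 4 :=
  ⟨1, 1, 108, one_pos, one_pos, by norm_num, by norm_num, 24, 6, 1, 30000, by norm_num, by norm_num, one_pos,
    by norm_num, good4⟩

theorem hasGood5 : HasGood 2 3 5 :=
  ⟨1, 1, 1728, one_pos, one_pos, by norm_num, by norm_num, 120, 30, 1 / 1000, 1728 * 24 ^ 5 * 2 ^ 62, by norm_num,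
    by norm_num, by norm_num, by norm_num, good5⟩

theorem sorted (p q r : ℕ) (hp : 1 ≤ p) (hpq : p ≤ q) (hqr : q ≤ r)
    (h : p * q * r < q * r + p * r + p * q) : HasGood p q r := by
  rcases Nat.lt_or_ge p 2 with h1 | h1
  · have : p = 1 := by omega
    subst this
    exact hasGood1 q r hpq (by omega)
  · rcases Nat.lt_or_ge p 3 with h2 | h2
    · have : p = 2 := by omega
      subst this
      rcases Nat.lt_or_ge q 3 with h3 | h3
      · have : q = 2 := by omega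
        subst this
        exact hasGood2 r (by omega)
      · rcases Nat.lt_or_ge q 4 with h4 | h4
        · have : q = 3 := by omega
          subst this
          have h5 : r ≤ 5 := by omega
          interval_cases r
          · exact hasGood3
          · exact hasGood4
          · exact hasGood5
        · exfalso
          nlinarith
    · exfalso
      have h3 : 3 * (q * r) ≤ p * q * r := by
        calc 3 * (q * r) ≤ p * (q * r) := Nat.mul_le_mul_right _ h2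
          _ = _ := by ring
      have h4 : p * r ≤ q * r := Nat.mul_le_mul_right _ hpq
      have h5 : p * q ≤ q * r := by
        calc p * q = q * p := mul_comm _ _
          _ ≤ q * r := Nat.mul_le_mul_left _ (hpq.trans hqr)
      omega

theorem hasGood (p q r : ℕ) (hp : 1 ≤ p) (hq : 1 ≤ q) (hr : 1 ≤ r)
    (h : p * q * r < q * r + p * r + p * q) : HasGood p q r := by
  rcases le_total p q with h1 | h1 <;> rcases le_total q r with h2 | h2 <;>
    rcases le_total p r with h3 | h3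
  · exact sorted p q r hp h1 h2 h
  · exact sorted p q r hp h1 h2 h
  · -- `p ≤ r ≤ q`
    exact HasGood_swap23 (sorted p r q hp h3 h2 (by
      calc p * r * q = p * q * r := by ring
        _ < _ := h
        _ = _ := by ring))
  · -- `r ≤ p ≤ q`
    exact HasGood_swap23 (HasGood_swap12 (sorted r p q hr h3 h1 (by
      calc r * p * q = p * q * r := by ring
        _ < _ := h
        _ = _ := by ring)))
  · -- `q ≤ p ≤ r`
    exact HasGood_swap12 (sorted q p r hq h1 h3 (by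
      calc q * p * r = p * q * r := by ring
        _ < _ := h
        _ = _ := by ring))
  · -- `q ≤ r ≤ p`
    exact HasGood_swap12 (HasGood_swap23 (sorted q r p hq h2 h3 (by
      calc q * r * p = p * q * r := by ring
        _ < _ := h
        _ = _ := by ring)))
  · -- `r ≤ q ≤ p`
    exact HasGood_swap12 (HasGood_swap23 (HasGood_swap12 (sorted r q p hr h2 h1 (by
      calc r * q * p = p * q * r := by ring
        _ < _ := h
        _ = _ := by ring))))
  · exact HasGood_swap12 (HasGood_swap23 (HasGood_swap12 (sorted r q p hr h2 h1 (by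
      calc r * q * p = p * q * r := by ring
        _ < _ := h
        _ = _ := by ring))))

theorem spherical (p q r : ℕ) (hp : 1 ≤ p) (hq : 1 ≤ q) (hr : 1 ≤ r)
    (h : p * q * r < q * r + p * r + p * q) :
    ∃ A B C : ℕ, 0 < A ∧ 0 < B ∧ 0 < C ∧ A * B * C ∣ 1728 ∧
      ∀ (N s : ℕ) (δ : ℝ) (Y : ℕ → ℝ), 1 ≤ N → 0 < δ → (∀ i, 1 < Y i) → Tendsto Y atTop atTop →
        (∀ i, Y (i + 1) ≤ (Y i) ^ s) →
        ((ABC fun a b c => Sig p q r A B C a b c ∧ N ∣ a ∧ (a : ℝ) ≤ δ * c ∧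
            ∃ i, Y i ≤ c ∧ (c : ℝ) ≤ (Y i) ^ (1 + δ)) ↔
          ABC fun _ _ _ => True) := by
  obtain ⟨A, B, C, hA, hB, hC, hd, d, N₀, δ₀, K, h1, h2, h3, h4, h5⟩ := hasGood p q r hp hq hr h
  exact ⟨A, B, C, hA, hB, hC, hd, fun N s δ Y hN hδ hY hYt hYr =>
    lift _ d N₀ h1 h2 δ₀ K h3 h4 h5 N s hN δ hδ Y hY hYt hYr⟩

end Pool.Agent.N746.Self
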